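import Pool.Agent.Helper34.HRV.Defs

/-! HRV piece C1 (project HRT, MP_2370de_an; hints: `/team-store/HRV_hints.md`). Replace the `sorry`s in place. -/

set_option autoImplicit false

open MeasureTheory Complex Set
open scoped ComplexConjugate Real

namespace Pool.Agent.Helper34.HRV

private theorem c1_sq {u : ℝ} (h : |u| ≤ 8 / 5) : 3 / 5 ≤ cc u ∧ cc u ^ 2 = 1 - u ^ 2 / 4 := by
  have h1 : u ^ 2 ≤ (8 / 5) ^ 2 := by
    rw [← sq_abs]
    exact pow_le_pow_left₀ (abs_nonneg u) h 2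
  have h2 : (3 / 5 : ℝ) ^ 2 ≤ 1 - u ^ 2 / 4 := by linarith
  refine ⟨Real.le_sqrt_of_sq_le h2, ?_⟩
  unfold cc
  exact Real.sq_sqrt (by linarith [sq_nonneg (3 / 5 : ℝ)])

/-- C1. -/
theorem cc_facts : (∀ u : ℝ, |u| < 2 → HasDerivAt cc (-u / (4 * cc u)) u) ∧
    (∀ u : ℝ, cc (-u) = cc u) ∧ (∀ u : ℝ, 0 ≤ cc u ∧ cc u ≤ 1) ∧
    (∀ u v : ℝ, |u| ≤ 8 / 5 → |v| ≤ 8 / 5 → |cc u - cc v| ≤ |u - v|) ∧
    (∀ u v : ℝ, |u| ≤ 8 / 5 → |v| ≤ 8 / 5 → |u * cc u - v * cc v| ≤ 2 * |u - v|) ∧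
    Continuous cc := by
  refine ⟨?_, ?_, ?_, ?_, ?_, ?_⟩
  · intro u hu
    have h1 : u ^ 2 < 2 ^ 2 := by
      rw [← sq_abs]
      exact pow_lt_pow_left₀ hu (abs_nonneg u) (by norm_num)
    have h2 : 0 < 1 - u ^ 2 / 4 := by linarith
    have h3 : HasDerivAt (fun x : ℝ => 1 - x ^ 2 / 4) (-(2 * u / 4)) u := by
      have := ((hasDerivAt_pow 2 u).div_const 4).const_sub 1
      simpa using this
    have h4 := h3.sqrt h2.ne'
    have h5 : Real.sqrt (1 - u ^ 2 / 4) ≠ 0 := (Real.sqrt_pos.mpr h2).ne'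
    refine h4.congr_deriv ?_
    unfold cc
    field_simp
  · intro u
    unfold cc
    rw [neg_sq]
  · intro u
    unfold cc
    refine ⟨Real.sqrt_nonneg _, ?_⟩
    rw [Real.sqrt_le_one]
    linarith [sq_nonneg u]
  · intro u v hu hv
    obtain ⟨a1, a2⟩ := c1_sq hu
    obtain ⟨b1, b2⟩ := c1_sq hv
    have hs : 6 / 5 ≤ cc u + cc v := by linarith
    have hid : (cc u - cc v) * (cc u + cc v) = -((u + v) * (u - v)) / 4 := by
      have : (cc u - cc v) * (cc u + cc v) = cc u ^ 2 - cc v ^ 2 := by ring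
      rw [this, a2, b2]; ring
    have habs : |cc u - cc v| * (cc u + cc v) = |u + v| * |u - v| / 4 := by
      rw [← abs_of_nonneg (by linarith : (0 : ℝ) ≤ cc u + cc v), ← abs_mul, hid, abs_div, abs_neg,
        abs_mul]
      norm_num
    have huv : |u + v| ≤ 16 / 5 := (abs_add_le u v).trans (by linarith)
    have h6 : |cc u - cc v| * (6 / 5) ≤ |u + v| * |u - v| / 4 := by
      rw [← habs]
      exact mul_le_mul_of_nonneg_left hs (abs_nonneg _)
    have h7 : |u + v| * |u - v| ≤ 16 / 5 * |u - v| :=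
      mul_le_mul_of_nonneg_right huv (abs_nonneg _)
    have := abs_nonneg (u - v)
    linarith
  · intro u v hu hv
    obtain ⟨a1, a2⟩ := c1_sq hu
    obtain ⟨b1, b2⟩ := c1_sq hv
    have hc1 : cc u ≤ 1 := by
      unfold cc
      rw [Real.sqrt_le_one]
      linarith [sq_nonneg u]
    have hc2 : cc v ≤ 1 := by
      unfold cc
      rw [Real.sqrt_le_one]
      linarith [sq_nonneg v]
    have hs : 6 / 5 ≤ cc u + cc v := by linarith
    have hs0 : 0 < cc u + cc v := by linarith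
    have hid : (cc u - cc v) = -((u + v) * (u - v)) / (4 * (cc u + cc v)) := by
      rw [eq_div_iff (by positivity)]
      have : (cc u - cc v) * (4 * (cc u + cc v)) = 4 * (cc u ^ 2 - cc v ^ 2) := by ring
      rw [this, a2, b2]; ring
    have h1 : u * cc u - v * cc v =
        (u - v) * (((cc u + cc v) - (u + v) ^ 2 / (4 * (cc u + cc v))) / 2) := by
      have h2 : u * cc u - v * cc v =
          ((u - v) * (cc u + cc v) + (u + v) * (cc u - cc v)) / 2 := by ring
      rw [h2, hid]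
      ring
    rw [h1, abs_mul, mul_comm]
    refine mul_le_mul_of_nonneg_right ?_ (abs_nonneg _)
    have huv : |u + v| ≤ 16 / 5 := (abs_add_le u v).trans (by linarith)
    have huv2 : (u + v) ^ 2 ≤ (16 / 5) ^ 2 := by
      rw [← sq_abs]
      exact pow_le_pow_left₀ (abs_nonneg _) huv 2
    have h3 : (u + v) ^ 2 / (4 * (cc u + cc v)) ≤ (16 / 5) ^ 2 / (4 * (6 / 5)) := by
      apply div_le_div₀ (by norm_num) huv2 (by norm_num)
      linarith
    have h4 : 0 ≤ (u + v) ^ 2 / (4 * (cc u + cc v)) := by positivity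
    norm_num at h3
    rw [abs_le]
    constructor <;> linarith
  · unfold cc
    fun_prop

end Pool.Agent.Helper34.HRV
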