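import Pool.Agent.Helper34.HRV.Defs
import Pool.Agent.Helper34.HRV.St.C1

/-! HRV piece C2 (project HRT, MP_2370de_an; hints: `/team-store/HRV_hints.md`). Replace the `sorry`s in place. -/

set_option autoImplicit false

open MeasureTheory Complex Set
open scoped ComplexConjugate Real

namespace Pool.Agent.Helper34.HRV

private theorem c2_cont : Continuous cc := by
  unfold cc
  fun_prop

private theorem c2_cc_le {u : ℝ} (h1 : 1 / 2 ≤ u) : cc u ≤ 31 / 32 := by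
  unfold cc
  rw [Real.sqrt_le_left (by norm_num)]
  nlinarith

private theorem c2_cc_ge {u : ℝ} (h0 : 0 ≤ u) (h1 : u ≤ 3 / 2) : 21 / 32 ≤ cc u := by
  unfold cc
  apply Real.le_sqrt_of_sq_le
  nlinarith

private theorem c2_cc_ge' {u : ℝ} (h0 : 0 ≤ u) (h1 : u ≤ 31 / 20) : 3 / 5 ≤ cc u := by
  unfold cc
  apply Real.le_sqrt_of_sq_le
  nlinarith

private theorem c2_cc_le_one (u : ℝ) : cc u ≤ 1 := by
  unfold cc
  rw [Real.sqrt_le_left (by norm_num)]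
  nlinarith [sq_nonneg u]

private theorem c2_rho {ρ : ℝ} (h0 : 9 / 20 ≤ ρ) (h1 : ρ ≤ 31 / 20) :
    27 / 100 ≤ ρ * cc ρ ∧ ρ * cc ρ ≤ 1 := by
  constructor
  · have := c2_cc_ge' (by linarith : (0 : ℝ) ≤ ρ) h1
    nlinarith
  · have h2 : (0 : ℝ) ≤ 1 - ρ ^ 2 / 4 := by nlinarith
    have h3 : cc ρ ^ 2 = 1 - ρ ^ 2 / 4 := by
      unfold cc
      exact Real.sq_sqrt h2
    have h4 : (ρ * cc ρ) ^ 2 ≤ 1 ^ 2 := by
      rw [mul_pow, h3]
      nlinarith [sq_nonneg (1 - ρ ^ 2 / 2)]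
    exact le_of_sq_le_sq h4 (by norm_num)

/-- C2. Bounds on the weights (`ρ - y`, `ρ - y' ∈ [1/2,3/2]`; everything is explicit). -/
theorem wy_facts : ∃ w0 : ℝ, 0 < w0 ∧ ∀ y y' ρ : ℝ, |y| ≤ 1 / 20 → |y'| ≤ 1 / 20 →
    ρ ∈ Icc (1 / 2 + max y y') (3 / 2 + min y y') →
    w0 ≤ wy y y' ρ ∧ wy y y' ρ ≤ 3 ∧ 0 ≤ wt ρ ∧ wt ρ ≤ 3 ∧ wy y y' ρ ≤ wt ρ ∧
      0 ≤ Real.sin (π * th y y' ρ / 2) ∧ ContinuousAt (wy y y') ρ ∧ ContinuousAt wt ρ := by
  refine ⟨1 / 200, by norm_num, ?_⟩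
  intro y y' ρ hy hy' hρ
  obtain ⟨h1, h2⟩ := hρ
  have hm1 := le_max_left y y'
  have hm2 := le_max_right y y'
  have hm3 := min_le_left y y'
  have hm4 := min_le_right y y'
  obtain ⟨hy1, hy2⟩ := abs_le.1 hy
  obtain ⟨hy3, hy4⟩ := abs_le.1 hy'
  have hρ0 : 9 / 20 ≤ ρ := by linarith
  have hρ1 : ρ ≤ 31 / 20 := by linarith
  have hπ := Real.pi_gt_d2
  have hπ' := Real.pi_lt_d2
  obtain ⟨hr1, hr2⟩ := c2_rho hρ0 hρ1
  have hsρ : 2 / π * ρ ≤ Real.sin ρ := Real.mul_le_sin (by linarith) (by linarith)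
  have hπ0 : (0 : ℝ) < π := Real.pi_pos
  have hsρ0 : 0 < Real.sin ρ := lt_of_lt_of_le (by positivity) hsρ
  have hs1 : Real.sin ρ ≤ 1 := Real.sin_le_one ρ
  have hn1 : 2 / π * (ρ * cc ρ) ≤ Real.sin (ρ * cc ρ) :=
    Real.mul_le_sin (by linarith) (by linarith)
  have hn2 : Real.sin (ρ * cc ρ) ≤ ρ * cc ρ := Real.sin_le (by linarith)
  have h2π : (3 : ℝ) / 5 ≤ 2 / π := by
    rw [le_div_iff₀ hπ0]
    linarith
  have hn3 : 1 / 10 ≤ Real.sin (ρ * cc ρ) := by nlinarith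
  have hw0 : 1 / 10 ≤ wt ρ := by
    unfold wt
    rw [le_div_iff₀ hsρ0]
    linarith
  have hw3 : wt ρ ≤ 3 := by
    unfold wt
    rw [div_le_iff₀ hsρ0]
    have := c2_cc_le_one ρ
    nlinarith
  have hc1 := c2_cc_le (by linarith : 1 / 2 ≤ ρ - y)
  have hc2 := c2_cc_le (by linarith : 1 / 2 ≤ ρ - y')
  have hc3 := c2_cc_ge (by linarith : 0 ≤ ρ - y) (by linarith)
  have hc4 := c2_cc_ge (by linarith : 0 ≤ ρ - y') (by linarith)
  have ht1 : th y y' ρ ≤ 31 / 16 := by unfold th; linarith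
  have ht2 : 21 / 16 ≤ th y y' ρ := by unfold th; linarith
  have hsin : Real.sin (π * th y y' ρ / 2) = Real.sin (π * (1 - th y y' ρ / 2)) := by
    rw [← Real.sin_pi_sub]
    congr 1
    ring
  have hj : 2 / π * (π * (1 - th y y' ρ / 2)) ≤ Real.sin (π * (1 - th y y' ρ / 2)) :=
    Real.mul_le_sin (by nlinarith) (by nlinarith)
  have hj2 : 2 / π * (π * (1 - th y y' ρ / 2)) = 2 * (1 - th y y' ρ / 2) := by
    field_simp
  have hs0 : 1 / 16 ≤ Real.sin (π * th y y' ρ / 2) := by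
    rw [hsin]
    linarith
  have hs2 : Real.sin (π * th y y' ρ / 2) ≤ 1 := Real.sin_le_one _
  have hcw : ContinuousAt wt ρ := by
    unfold wt
    refine ContinuousAt.div ?_ Real.continuous_sin.continuousAt hsρ0.ne'
    exact (Real.continuous_sin.comp (continuous_id.mul c2_cont)).continuousAt
  refine ⟨?_, ?_, by linarith, hw3, ?_, by linarith, ?_, hcw⟩
  · unfold wy
    nlinarith
  · unfold wy
    nlinarith
  · unfold wy
    nlinarith
  · unfold wy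
    refine hcw.mul ?_
    unfold th
    have : Continuous (fun ρ : ℝ => Real.sin (π * (cc (ρ - y) + cc (ρ - y')) / 2)) := by
      have h5 : Continuous (fun ρ : ℝ => cc (ρ - y)) := c2_cont.comp (by fun_prop)
      have h6 : Continuous (fun ρ : ℝ => cc (ρ - y')) := c2_cont.comp (by fun_prop)
      exact Real.continuous_sin.comp ((continuous_const.mul (h5.add h6)).div_const 2)
    exact this.continuousAt

end Pool.Agent.Helper34.HRV
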