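import Pool.Agent.Helper34.HRV.Defs
import Pool.Agent.Helper34.HRV.St.C1

/-! HRV piece C3 (project HRT, MP_2370de_an; hints: `/team-store/HRV_hints.md`). -/

set_option autoImplicit false

open MeasureTheory Complex Set
open scoped ComplexConjugate Real

namespace Pool.Agent.Helper34.HRV

theorem C3_hasDerivAt_cc (u : ℝ) (h1 : 1 / 2 ≤ u) (h2 : u ≤ 3 / 2) :
    ∃ d : ℝ, HasDerivAt cc d u ∧ -(3 / 5) ≤ d ∧ d ≤ 0 := by
  have hpos : 0 < 1 - u ^ 2 / 4 := by nlinarith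
  have hs : (66 / 100 : ℝ) ≤ Real.sqrt (1 - u ^ 2 / 4) := by
    apply Real.le_sqrt_of_sq_le
    nlinarith
  have hd : HasDerivAt (fun v : ℝ => 1 - v ^ 2 / 4) (-(u / 2)) u := by
    have h := ((hasDerivAt_pow 2 u).div_const 4).const_sub 1
    exact h.congr_deriv (by norm_num; ring)
  have h := hd.sqrt hpos.ne'
  refine ⟨_, h, ?_, ?_⟩
  · rw [neg_div, neg_le_neg_iff, div_le_iff₀ (by linarith)]
    linarith
  · rw [neg_div, neg_nonpos]
    exact div_nonneg (by linarith) (by linarith)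

theorem C3_diff (y y' : ℝ) (hy : |y| ≤ 1 / 20) (hy' : |y'| ≤ 1 / 20) (h : y' ≤ y) :
    1 / 2 ≤ th y y' (1 / 2 + y) - th y y' (3 / 2 + y') := by
  obtain ⟨hy1, hy2⟩ := abs_le.mp hy
  obtain ⟨hy3, hy4⟩ := abs_le.mp hy'
  unfold th cc
  have h1 : (968 / 1000 : ℝ) ≤ Real.sqrt (1 - (1 / 2 + y - y) ^ 2 / 4) := by
    apply Real.le_sqrt_of_sq_le
    nlinarith
  have h2 : (953 / 1000 : ℝ) ≤ Real.sqrt (1 - (1 / 2 + y - y') ^ 2 / 4) := by
    apply Real.le_sqrt_of_sq_le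
    have : (1 / 2 + y - y') ^ 2 ≤ (6 / 10) ^ 2 := by
      apply pow_le_pow_left₀ <;> linarith
    linarith
  have h3 : Real.sqrt (1 - (3 / 2 + y' - y') ^ 2 / 4) ≤ 6615 / 10000 := by
    rw [Real.sqrt_le_left (by norm_num)]
    nlinarith
  have h4 : Real.sqrt (1 - (3 / 2 + y' - y) ^ 2 / 4) ≤ 7142 / 10000 := by
    rw [Real.sqrt_le_left (by norm_num)]
    have : (14 / 10 : ℝ) ^ 2 ≤ (3 / 2 + y' - y) ^ 2 := by
      apply pow_le_pow_left₀ <;> linarith
    linarith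
  linarith

/-- C3. The phase on the domain: strictly decreasing, derivative bounded by `6/5`, image of length `≥ 1/2`. -/
theorem th_facts (y y' : ℝ) (hy : |y| ≤ 1 / 20) (hy' : |y'| ≤ 1 / 20) :
    1 / 2 ≤ th y y' (1 / 2 + max y y') - th y y' (3 / 2 + min y y') ∧
    ∀ ρ ∈ Icc (1 / 2 + max y y') (3 / 2 + min y y'),
      ∃ d : ℝ, HasDerivAt (th y y') d ρ ∧ -(6 / 5) ≤ d ∧ d ≤ 0 := by
  refine ⟨?_, ?_⟩
  · rcases le_total y' y with h | h
    · rw [max_eq_left h, min_eq_right h]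
      exact C3_diff y y' hy hy' h
    · rw [max_eq_right h, min_eq_left h]
      have hsymm : th y y' = th y' y := by
        funext ρ
        unfold th
        ring
      rw [hsymm]
      exact C3_diff y' y hy' hy h
  · rintro ρ ⟨h1, h2⟩
    have hm1 := le_max_left y y'
    have hm2 := le_max_right y y'
    have hm3 := min_le_left y y'
    have hm4 := min_le_right y y'
    obtain ⟨d1, hd1, h11, h12⟩ := C3_hasDerivAt_cc (ρ - y) (by linarith) (by linarith)
    obtain ⟨d2, hd2, h21, h22⟩ := C3_hasDerivAt_cc (ρ - y') (by linarith) (by linarith)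
    refine ⟨d1 + d2, ?_, by linarith, by linarith⟩
    have e1 : HasDerivAt (fun r => cc (r - y)) d1 ρ := hd1.comp_sub_const ρ y
    have e2 : HasDerivAt (fun r => cc (r - y')) d2 ρ := hd2.comp_sub_const ρ y'
    exact e1.add e2

end Pool.Agent.Helper34.HRV
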