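import Pool.Agent.Helper34.HRV.Defs

/-! HRV piece S1 (project HRT, MP_2370de_an; hints: `/team-store/HRV_hints.md`). Replace the `sorry`s in place. -/

set_option autoImplicit false

open MeasureTheory Complex Set
open scoped ComplexConjugate Real

namespace Pool.Agent.Helper34.HRV

section
variable {cf : ℝ → ℝ} {ζ : ℤ → ℂ} {a : ℤ → ℝ → ℂ}

private theorem s1_nn (y : ℝ) : 0 ≤ ∑' k, ‖a k y‖ ^ 2 := tsum_nonneg fun _ => sq_nonneg _

private theorem s1_sq (y : ℝ) : An a y ^ 2 = ∑' k, ‖a k y‖ ^ 2 := Real.sq_sqrt (s1_nn y)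

private theorem s1_An_nn (y : ℝ) : 0 ≤ An a y := Real.sqrt_nonneg _

private theorem s1_meas (ha : Fib cf ζ a) : Measurable (An a) := by
  have h1 : Measurable fun y => ∑' k, ENNReal.ofReal (‖a k y‖ ^ 2) := by
    refine Measurable.tsum fun k => ?_
    have := ha.a_meas k
    fun_prop
  have h2 : (fun y => ∑' k, ‖a k y‖ ^ 2) = fun y => (∑' k, ENNReal.ofReal (‖a k y‖ ^ 2)).toReal := by
    funext y
    rw [← ENNReal.ofReal_tsum_of_nonneg (fun _ => sq_nonneg _) (ha.a_sum y),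
      ENNReal.toReal_ofReal (s1_nn y)]
  have h3 : Measurable fun y => ∑' k, ‖a k y‖ ^ 2 := by
    rw [h2]
    exact h1.ennreal_toReal
  exact h3.sqrt

private theorem s1_le (ha : Fib cf ζ a) (k : ℤ) (y : ℝ) : ‖a k y‖ ≤ An a y := by
  refine Real.le_sqrt_of_sq_le ?_
  exact (ha.a_sum y).le_tsum k (fun _ _ => sq_nonneg _)

private theorem s1_supp (ha : Fib cf ζ a) (y : ℝ) (h : An a y ≠ 0) : |y| < 1 / 20 := by
  by_contra hy
  apply h
  have : ∀ k, a k y = 0 := by
    intro k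
    by_contra hk
    exact hy (ha.a_supp k y hk)
  unfold An
  simp [this]

private theorem s1_int (ha : Fib cf ζ a) : Integrable (An a) := by
  have i1 : Integrable (fun ρ : ℝ => (Icc (-(1 / 20) : ℝ) (1 / 20)).indicator
      (fun _ => (1 : ℝ)) ρ) := by
    rw [integrable_indicator_iff measurableSet_Icc]
    exact integrableOn_const (by simp)
  refine (i1.add ha.a_int).mono' (s1_meas ha).aestronglyMeasurable (ae_of_all _ fun y => ?_)
  simp only [Pi.add_apply]
  rw [Real.norm_eq_abs, abs_of_nonneg (s1_An_nn y), ← s1_sq]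
  by_cases h : An a y = 0
  · rw [h]
    have : 0 ≤ (Icc (-(1 / 20) : ℝ) (1 / 20)).indicator (fun _ => (1 : ℝ)) y :=
      indicator_nonneg (fun _ _ => by norm_num) _
    positivity
  · have h1 := s1_supp ha y h
    have h2 : y ∈ Icc (-(1 / 20) : ℝ) (1 / 20) := abs_le.1 h1.le
    rw [indicator_of_mem h2]
    nlinarith [sq_nonneg (An a y - 1), s1_An_nn (a := a) y]

private theorem s1_sm (ha : Fib cf ζ a) (y y' : ℝ) : Summable fun k => ‖a k y‖ * ‖a k y'‖ := by
  refine Summable.of_nonneg_of_le (fun _ => by positivity) (fun k => ?_)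
    ((ha.a_sum y).add (ha.a_sum y'))
  nlinarith [sq_nonneg (‖a k y‖ - ‖a k y'‖), sq_nonneg (‖a k y‖ + ‖a k y'‖)]

private theorem s1_cs (ha : Fib cf ζ a) (y y' : ℝ) :
    ∑' k, ‖a k y‖ * ‖a k y'‖ ≤ An a y * An a y' := by
  have hA := s1_An_nn (a := a) y
  have hB := s1_An_nn (a := a) y'
  rcases hA.eq_or_lt with h | hA'
  · have h0 : ∀ k, ‖a k y‖ = 0 := fun k =>
      le_antisymm (h ▸ s1_le ha k y) (norm_nonneg _)
    simp [h0, ← h]
  rcases hB.eq_or_lt with h | hB'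
  · have h0 : ∀ k, ‖a k y'‖ = 0 := fun k =>
      le_antisymm (h ▸ s1_le ha k y') (norm_nonneg _)
    simp [h0, ← h]
  have h1 : HasSum (fun k => (An a y' / An a y * ‖a k y‖ ^ 2 + An a y / An a y' * ‖a k y'‖ ^ 2) / 2)
      ((An a y' / An a y * An a y ^ 2 + An a y / An a y' * An a y' ^ 2) / 2) := by
    rw [s1_sq, s1_sq]
    exact (((ha.a_sum y).hasSum.mul_left _).add ((ha.a_sum y').hasSum.mul_left _)).div_const _
  have h2 : ∑' k, ‖a k y‖ * ‖a k y'‖ ≤
      (An a y' / An a y * An a y ^ 2 + An a y / An a y' * An a y' ^ 2) / 2 := by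
    rw [← h1.tsum_eq]
    refine (s1_sm ha y y').tsum_le_tsum (fun k => ?_) h1.summable
    have h3 : An a y' / An a y * ‖a k y‖ ^ 2 + An a y / An a y' * ‖a k y'‖ ^ 2 -
        2 * (‖a k y‖ * ‖a k y'‖) =
        (An a y' * ‖a k y‖ - An a y * ‖a k y'‖) ^ 2 / (An a y * An a y') := by
      field_simp
      ring
    have h4 : 0 ≤ (An a y' * ‖a k y‖ - An a y * ‖a k y'‖) ^ 2 / (An a y * An a y') := by
      positivity
    linarith
  refine h2.trans (le_of_eq ?_)
  field_simp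
  ring

private theorem s1_hs (ha : Fib cf ζ a) (y : ℝ) :
    HasSum (fun k => ‖a k y‖ ^ 2 / An a y) (An a y) := by
  have h := (ha.a_sum y).hasSum.div_const (An a y)
  rw [← s1_sq] at h
  have e : An a y ^ 2 / An a y = An a y := by
    by_cases h0 : An a y = 0
    · rw [h0]
      simp
    · field_simp
  rwa [e] at h

private theorem s1_q_le (ha : Fib cf ζ a) (k : ℤ) (y : ℝ) : ‖a k y‖ ^ 2 / An a y ≤ An a y := by
  have hA := s1_An_nn (a := a) y
  rcases hA.eq_or_lt with h | hA'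
  · rw [← h]
    simp
  · rw [div_le_iff₀ hA']
    have := s1_le ha k y
    nlinarith [norm_nonneg (a k y)]

private theorem s1_q_int (ha : Fib cf ζ a) (k : ℤ) :
    Integrable fun y => ‖a k y‖ ^ 2 / An a y := by
  refine (s1_int ha).mono' ?_ (ae_of_all _ fun y => ?_)
  · have h1 := ha.a_meas k
    have h2 := s1_meas ha
    have : Measurable fun y => ‖a k y‖ ^ 2 / An a y := (h1.norm.pow_const 2).div h2
    exact this.aestronglyMeasurable
  · rw [Real.norm_eq_abs, abs_of_nonneg (div_nonneg (sq_nonneg _) (s1_An_nn y))]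
    exact s1_q_le ha k y

private theorem s1_ak (ha : Fib cf ζ a) (k : ℤ) : Integrable (a k) :=
  (s1_int ha).mono' (ha.a_meas k).aestronglyMeasurable (ae_of_all _ fun y => s1_le ha k y)

private theorem s1_sqrt_le {x : ℝ} (h : |x| ≤ 1) : ‖(Real.sqrt ((1 + x) / 2) : ℂ)‖ ≤ 1 := by
  rw [Complex.norm_real, Real.norm_eq_abs, abs_of_nonneg (Real.sqrt_nonneg _)]
  have := (abs_le.1 h).2
  have h2 : (1 + x) / 2 ≤ 1 := by linarith
  calc Real.sqrt ((1 + x) / 2) ≤ Real.sqrt 1 := Real.sqrt_le_sqrt h2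
    _ = 1 := Real.sqrt_one

private theorem s1_lin (ha : Fib cf ζ a) (n : ℤ) : Lin (fl cf ζ a n) := by
  have hcf := ha.cf_meas
  by_cases hn : Even n
  · have e : fl cf ζ a n = fun y => ζ (n / 2) * (Real.sqrt ((1 - cf y) / 2) : ℂ) * a (n / 2) y := by
      funext y
      unfold fl
      rw [if_pos hn]
    have m1 : Measurable fun y => ζ (n / 2) * (Real.sqrt ((1 - cf y) / 2) : ℂ) * a (n / 2) y := by
      have h1 := ha.a_meas (n / 2)
      have h2 : Measurable fun y => (Real.sqrt ((1 - cf y) / 2) : ℂ) :=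
        Complex.measurable_ofReal.comp (((measurable_const.sub hcf).div_const 2).sqrt)
      exact (h2.const_mul _).mul h1
    rw [e]
    refine ⟨m1, (s1_int ha).mono' m1.aestronglyMeasurable (ae_of_all _ fun y => ?_), fun y hy => ?_⟩
    · rw [norm_mul, norm_mul, ha.ζ_one, one_mul]
      have h1 : ‖(Real.sqrt ((1 - cf y) / 2) : ℂ)‖ ≤ 1 := by
        have := s1_sqrt_le (x := -cf y) (by rw [abs_neg]; exact ha.cf_le y)
        rwa [← sub_eq_add_neg] at this
      calc ‖(Real.sqrt ((1 - cf y) / 2) : ℂ)‖ * ‖a (n / 2) y‖ ≤ 1 * An a y :=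
            mul_le_mul h1 (s1_le ha _ _) (norm_nonneg _) zero_le_one
        _ = An a y := one_mul _
    · exact ha.a_supp _ y (right_ne_zero_of_mul hy)
  · have e : fl cf ζ a n = fun y => (Real.sqrt ((1 + cf y) / 2) : ℂ) * a ((n + 1) / 2) y := by
      funext y
      unfold fl
      rw [if_neg hn]
    have m1 : Measurable fun y => (Real.sqrt ((1 + cf y) / 2) : ℂ) * a ((n + 1) / 2) y := by
      have h1 := ha.a_meas ((n + 1) / 2)
      have h2 : Measurable fun y => (Real.sqrt ((1 + cf y) / 2) : ℂ) :=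
        Complex.measurable_ofReal.comp (((measurable_const.add hcf).div_const 2).sqrt)
      exact h2.mul h1
    rw [e]
    refine ⟨m1, (s1_int ha).mono' m1.aestronglyMeasurable (ae_of_all _ fun y => ?_), fun y hy => ?_⟩
    · rw [norm_mul]
      have h1 : ‖(Real.sqrt ((1 + cf y) / 2) : ℂ)‖ ≤ 1 := s1_sqrt_le (ha.cf_le y)
      calc ‖(Real.sqrt ((1 + cf y) / 2) : ℂ)‖ * ‖a ((n + 1) / 2) y‖ ≤ 1 * An a y :=
            mul_le_mul h1 (s1_le ha _ _) (norm_nonneg _) zero_le_one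
        _ = An a y := one_mul _
    · exact ha.a_supp _ y (right_ne_zero_of_mul hy)

end

/-- S1. Fibre facts: measurability, integrability, support. -/
theorem fib_facts {cf : ℝ → ℝ} {ζ : ℤ → ℂ} {a : ℤ → ℝ → ℂ} (ha : Fib cf ζ a) :
    Measurable (An a) ∧ Integrable (An a) ∧ (∀ y, An a y ≠ 0 → |y| < 1 / 20) ∧
    (∀ k y, ‖a k y‖ ≤ An a y) ∧ (∀ k, Integrable (a k)) ∧
    (∀ y y', Summable fun k => ‖a k y‖ * ‖a k y'‖) ∧
    (∀ y y', ∑' k, ‖a k y‖ * ‖a k y'‖ ≤ An a y * An a y') ∧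
    (∀ k, Integrable fun y => ‖a k y‖ ^ 2 / An a y) ∧ (∀ k, 0 ≤ Qi a k) ∧
    (∀ y, HasSum (fun k => ‖a k y‖ ^ 2 / An a y) (An a y)) ∧
    (∀ n, Lin (fl cf ζ a n)) := by
  refine ⟨s1_meas ha, s1_int ha, s1_supp ha, s1_le ha, s1_ak ha, s1_sm ha, s1_cs ha, s1_q_int ha,
    fun k => ?_, s1_hs ha, s1_lin ha⟩
  exact integral_nonneg fun y => div_nonneg (sq_nonneg _) (s1_An_nn y)

end Pool.Agent.Helper34.HRV
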