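import Pool.Agent.Helper34.HRV.Defs
import Pool.Agent.Helper34.HRV.St.S1

/-! HRV piece S1b (project HRT, MP_2370de_an; hints: `/team-store/HRV_hints.md`). -/

set_option autoImplicit false

open MeasureTheory Complex Set
open scoped ComplexConjugate Real

namespace Pool.Agent.Helper34.HRV

/-- weighted form of Minkowski -/
theorem s1b_weighted {cf : ℝ → ℝ} {ζ : ℤ → ℂ} {a : ℤ → ℝ → ℂ} (ha : Fib cf ζ a) (w : ℝ → ℝ)
    (hwm : Measurable w) (hw0 : ∀ y, 0 ≤ w y) (hw1 : ∀ y, |y| < 1 / 20 → w y ≤ 1) :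
    (Summable fun k => (∫ y, w y * ‖a k y‖) * ∫ y, ‖a k y‖) ∧
    (∑' k, (∫ y, w y * ‖a k y‖) * (∫ y, ‖a k y‖) ≤ (∫ y, w y * An a y) * a1 a) := by
  obtain ⟨hAm, hAi, hAs, hle, hai, hps, hpt, -, -, -, -⟩ := fib_facts ha
  have hA0 : ∀ y, 0 ≤ An a y := fun y => Real.sqrt_nonneg _
  have hwk : ∀ k y, w y * ‖a k y‖ ≤ ‖a k y‖ := by
    intro k y
    by_cases h : a k y = 0
    · rw [h]
      simp
    · have h1 := mul_le_mul_of_nonneg_right (hw1 y (ha.a_supp k y h)) (norm_nonneg (a k y))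
      rwa [one_mul] at h1
  have hwA : ∀ y, w y * An a y ≤ An a y := by
    intro y
    by_cases h : An a y = 0
    · rw [h]
      simp
    · have h1 := mul_le_mul_of_nonneg_right (hw1 y (hAs y h)) (hA0 y)
      rwa [one_mul] at h1
  have hwki : ∀ k, Integrable fun y => w y * ‖a k y‖ := by
    intro k
    refine (hai k).norm.mono' (hwm.mul (ha.a_meas k).norm).aestronglyMeasurable ?_
    refine Filter.Eventually.of_forall fun y => ?_
    rw [Real.norm_of_nonneg (mul_nonneg (hw0 y) (norm_nonneg _))]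
    exact hwk k y
  have hwAi : Integrable fun y => w y * An a y := by
    refine hAi.mono' (hwm.mul hAm).aestronglyMeasurable ?_
    refine Filter.Eventually.of_forall fun y => ?_
    rw [Real.norm_of_nonneg (mul_nonneg (hw0 y) (hA0 y))]
    exact hwA y
  have hnn : ∀ k, 0 ≤ (∫ y, w y * ‖a k y‖) * ∫ y, ‖a k y‖ := fun k =>
    mul_nonneg (integral_nonneg fun y => mul_nonneg (hw0 y) (norm_nonneg _))
      (integral_nonneg fun y => norm_nonneg _)
  have hfin : ∀ s : Finset ℤ, ∑ k ∈ s, (∫ y, w y * ‖a k y‖) * (∫ y, ‖a k y‖) ≤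
      (∫ y, w y * An a y) * a1 a := by
    intro s
    -- the inner sums
    have h1 : ∀ y, ∑ k ∈ s, ‖a k y‖ * (∫ y', ‖a k y'‖) ≤ An a y * a1 a := by
      intro y
      have h2 : ∑ k ∈ s, ‖a k y‖ * (∫ y', ‖a k y'‖) = ∫ y', ∑ k ∈ s, ‖a k y‖ * ‖a k y'‖ := by
        rw [integral_finsetSum _ fun k _ => (hai k).norm.const_mul ‖a k y‖]
        apply Finset.sum_congr rfl
        intro k _
        rw [integral_const_mul]
      rw [h2]
      unfold a1
      rw [← integral_const_mul]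
      refine integral_mono (integrable_finsetSum _ fun k _ => (hai k).norm.const_mul ‖a k y‖)
        (hAi.const_mul _) fun y' => ?_
      refine le_trans ((hps y y').sum_le_tsum s fun k _ =>
        mul_nonneg (norm_nonneg _) (norm_nonneg _)) (hpt y y')
    have h3 : ∑ k ∈ s, (∫ y, w y * ‖a k y‖) * (∫ y, ‖a k y‖) =
        ∫ y, w y * ∑ k ∈ s, ‖a k y‖ * (∫ y', ‖a k y'‖) := by
      have h4 : (fun y => w y * ∑ k ∈ s, ‖a k y‖ * (∫ y', ‖a k y'‖)) =
          fun y => ∑ k ∈ s, (w y * ‖a k y‖) * (∫ y', ‖a k y'‖) := by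
        funext y
        rw [Finset.mul_sum]
        apply Finset.sum_congr rfl
        intro k _
        ring
      rw [h4, integral_finsetSum _ fun k _ => (hwki k).mul_const _]
      apply Finset.sum_congr rfl
      intro k _
      rw [integral_mul_const]
    rw [h3, ← integral_mul_const]
    refine integral_mono ?_ (hwAi.mul_const _) fun y => ?_
    · have h4 : (fun y => w y * ∑ k ∈ s, ‖a k y‖ * (∫ y', ‖a k y'‖)) =
          fun y => ∑ k ∈ s, (w y * ‖a k y‖) * (∫ y', ‖a k y'‖) := by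
        funext y
        rw [Finset.mul_sum]
        apply Finset.sum_congr rfl
        intro k _
        ring
      rw [h4]
      exact integrable_finsetSum _ fun k _ => (hwki k).mul_const _
    · have h5 := mul_le_mul_of_nonneg_left (h1 y) (hw0 y)
      calc w y * ∑ k ∈ s, ‖a k y‖ * (∫ y', ‖a k y'‖) ≤ w y * (An a y * a1 a) := h5
        _ = w y * An a y * a1 a := by ring
  have hs := summable_of_sum_le hnn hfin
  exact ⟨hs, hs.tsum_le_of_sum_le hfin⟩

/-- S1b. `∑ Q_k = ∫ |a|` and Minkowski. -/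
theorem fib_sums {cf : ℝ → ℝ} {ζ : ℤ → ℂ} {a : ℤ → ℝ → ℂ} (ha : Fib cf ζ a) :
    HasSum (Qi a) (a1 a) ∧ (Summable fun k => Qi a k ^ 2) ∧ (∑' k, Qi a k ^ 2 ≤ a1 a ^ 2) ∧
    (Summable fun k => (∫ y, ‖a k y‖) ^ 2) ∧ (∑' k, (∫ y, ‖a k y‖) ^ 2 ≤ a1 a ^ 2) ∧
    (Summable fun k => (∫ y, |y| * ‖a k y‖) * ∫ y, ‖a k y‖) ∧
    (∑' k, (∫ y, |y| * ‖a k y‖) * (∫ y, ‖a k y‖) ≤ (∫ y, |y| * An a y) * a1 a) := by
  obtain ⟨hAm, hAi, hAs, hle, hai, hps, hpt, hqi, hQ, hsum, -⟩ := fib_facts ha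
  have hA0 : ∀ y, 0 ≤ An a y := fun y => Real.sqrt_nonneg _
  have hq0 : ∀ k y, 0 ≤ ‖a k y‖ ^ 2 / An a y := fun k y => div_nonneg (by positivity) (hA0 y)
  have hfin : ∀ s : Finset ℤ, ∑ k ∈ s, Qi a k ≤ a1 a := by
    intro s
    have h1 : ∑ k ∈ s, Qi a k = ∫ y, ∑ k ∈ s, ‖a k y‖ ^ 2 / An a y := by
      rw [integral_finsetSum _ fun k _ => hqi k]
      rfl
    rw [h1]
    unfold a1
    refine integral_mono (integrable_finsetSum _ fun k _ => hqi k) hAi fun y => ?_
    exact sum_le_hasSum s (fun k _ => hq0 k y) (hsum y)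
  have hQs : Summable (Qi a) := summable_of_sum_le hQ hfin
  have hQn : ∀ k, ∫ y, ‖‖a k y‖ ^ 2 / An a y‖ = Qi a k := by
    intro k
    unfold Qi
    apply integral_congr_ae
    refine Filter.Eventually.of_forall fun y => ?_
    exact Real.norm_of_nonneg (hq0 k y)
  have hhs : HasSum (Qi a) (a1 a) := by
    have h1 := hasSum_integral_of_summable_integral_norm (F := fun k y => ‖a k y‖ ^ 2 / An a y)
      hqi (by simpa only [hQn] using hQs)
    have h2 : (fun y => ∑' k, ‖a k y‖ ^ 2 / An a y) = An a := by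
      funext y
      exact (hsum y).tsum_eq
    rw [h2] at h1
    exact h1
  have hQle : ∀ k, Qi a k ≤ a1 a := fun k => by
    have h1 := hfin {k}
    rwa [Finset.sum_singleton] at h1
  have hQ2 : ∀ k, Qi a k ^ 2 ≤ a1 a * Qi a k := fun k => by
    rw [sq]
    exact mul_le_mul_of_nonneg_right (hQle k) (hQ k)
  have hQ2s : Summable fun k => Qi a k ^ 2 :=
    Summable.of_nonneg_of_le (fun k => sq_nonneg _) hQ2 (hQs.mul_left _)
  have hQ2t : ∑' k, Qi a k ^ 2 ≤ a1 a ^ 2 := by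
    refine (hQ2s.tsum_le_tsum hQ2 (hQs.mul_left _)).trans ?_
    rw [tsum_mul_left, hhs.tsum_eq, sq]
  obtain ⟨h1, h2⟩ := s1b_weighted ha (fun _ => 1) measurable_const (fun _ => zero_le_one)
    (fun _ _ => le_rfl)
  obtain ⟨h3, h4⟩ := s1b_weighted ha (fun y => |y|) (by fun_prop) (fun y => abs_nonneg y)
    (fun y hy => by linarith)
  simp only [one_mul] at h1 h2
  have h5 : (fun k => (∫ y, ‖a k y‖) ^ 2) = fun k => (∫ y, ‖a k y‖) * ∫ y, ‖a k y‖ := by
    funext k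
    rw [sq]
  refine ⟨hhs, hQ2s, hQ2t, ?_, ?_, h3, h4⟩
  · rw [h5]
    exact h1
  · rw [h5, sq]
    exact h2

end Pool.Agent.Helper34.HRV
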