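import Pool.Agent.Helper34.HRV.Defs
import Pool.Agent.Helper34.HRV.St.S1
import Pool.Agent.Helper34.HRV.St.S1b

/-! HRV piece D1 (project HRT, MP_2370de_an; hints: `/team-store/HRV_hints.md`). -/

set_option autoImplicit false

open MeasureTheory Complex Set
open scoped ComplexConjugate Real

namespace Pool.Agent.Helper34.HRV

/-- D1. Profile and dimer concentration. -/
theorem star_conc (κ c0 η' : ℝ) (hκ : 0 < κ) (hκ1 : κ ≤ 1) (hc0 : 0 < c0) (hη : 0 < η') :
    ∃ ε0 : ℝ, 0 < ε0 ∧ ∀ (ε g Λ : ℝ) (e : ℝ → ℝ) (cf : ℝ → ℝ) (ζ : ℤ → ℂ) (a : ℤ → ℝ → ℂ),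
    0 ≤ ε → ε ≤ ε0 → 0 < g → Measurable e → (∀ y, g ≤ e y) →
    (∫ y in Ioo (-(1 / 20) : ℝ) (1 / 20), (e y)⁻¹) = Λ →
    c0 * Λ / g ≤ (∫ y in Ioo (-(1 / 20) : ℝ) (1 / 20), ((e y)⁻¹) ^ 2) →
    Fib cf ζ a → Star e Λ κ ε a → (∫ y, An a y ^ 2) = 1 →
    ∃ j : ℤ, (∫ y, (An a y ^ 2 - ‖a j y‖ ^ 2)) ≤ η' ∧
      (∫ y, |‖a j y‖ ^ 2 - (Ioo (-(1 / 20) : ℝ) (1 / 20)).indicator
        (fun y => ((e y)⁻¹) ^ 2 / ∫ y in Ioo (-(1 / 20) : ℝ) (1 / 20), ((e y)⁻¹) ^ 2) y|) ≤ η' := by
  set d : ℝ := η' / 8 with hd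
  set τ : ℝ := c0 * η' / 32 with hτ
  have hdpos : 0 < d := by positivity
  have hτpos : 0 < τ := by positivity
  refine ⟨min (1 / 4) (min (c0 / 16) (min (c0 * d ^ 2 / 16) (κ * τ / 2))), by positivity, ?_⟩
  intro ε g Λ e cf ζ a hε hε0 hg hem heg hΛ hI2 ha hstar hone
  have hε1 : ε ≤ 1 / 4 := hε0.trans (min_le_left _ _)
  have hε2 : ε ≤ c0 / 16 := hε0.trans ((min_le_right _ _).trans (min_le_left _ _))
  have hε3 : ε ≤ c0 * d ^ 2 / 16 :=
    hε0.trans ((min_le_right _ _).trans ((min_le_right _ _).trans (min_le_left _ _)))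
  have hε4 : ε ≤ κ * τ / 2 :=
    hε0.trans ((min_le_right _ _).trans ((min_le_right _ _).trans (min_le_right _ _)))
  obtain ⟨hAm, hAi, hAs, hAk, hai, -, -, hQi, hQ0, -, -⟩ := fib_facts ha
  obtain ⟨hQsum, hQ2, hQ2le, -, -, -, -⟩ := fib_sums ha
  have he0 : ∀ y, 0 < e y := fun y => lt_of_lt_of_le hg (heg y)
  have hA0 : ∀ y, 0 ≤ An a y := fun y => Real.sqrt_nonneg _
  set A : ℝ → ℝ := An a with hA
  set J : Set ℝ := Ioo (-(1 / 20) : ℝ) (1 / 20) with hJ
  have hJm : MeasurableSet J := measurableSet_Ioo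
  -- A ^ 2 is integrable
  have hA2i : Integrable fun y => A y ^ 2 := by
    have : (fun y => A y ^ 2) = fun y => ∑' k, ‖a k y‖ ^ 2 := by
      funext y
      exact Real.sq_sqrt (tsum_nonneg fun k => by positivity)
    rw [this]; exact ha.a_int
  -- the weight
  set w : ℝ → ℝ := J.indicator (fun y => (e y)⁻¹) with hw
  have hwm : Measurable w := hem.inv.indicator hJm
  have hwJ : ∀ y ∈ J, w y = (e y)⁻¹ := fun y hy => by rw [hw, indicator_of_mem hy]
  have hwJ' : ∀ y, y ∉ J → w y = 0 := fun y hy => by rw [hw, indicator_of_notMem hy]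
  have hw0 : ∀ y, 0 ≤ w y := fun y => by
    by_cases hy : y ∈ J
    · rw [hwJ y hy]; exact (inv_pos.mpr (he0 y)).le
    · rw [hwJ' y hy]
  have hwg : ∀ y, w y ≤ g⁻¹ := fun y => by
    by_cases hy : y ∈ J
    · rw [hwJ y hy]; exact inv_anti₀ hg (heg y)
    · rw [hwJ' y hy]; exact (inv_pos.mpr hg).le
  have hgi : 0 < g⁻¹ := inv_pos.mpr hg
  have hwi : Integrable w := by
    rw [hw, integrable_indicator_iff hJm]
    refine Measure.integrableOn_of_bounded (M := g⁻¹) ?_ hem.inv.aestronglyMeasurable ?_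
    · rw [hJ]; simp
    · refine ae_of_all _ fun y => ?_
      rw [Real.norm_of_nonneg (inv_pos.mpr (he0 y)).le]
      exact inv_anti₀ hg (heg y)
  have hwΛ : ∫ y, w y = Λ := by rw [hw, integral_indicator hJm]; exact hΛ
  have hw2i : Integrable fun y => w y ^ 2 := by
    refine Integrable.mono' (hwi.const_mul g⁻¹) (hwm.pow_const 2).aestronglyMeasurable
      (ae_of_all _ fun y => ?_)
    rw [Real.norm_of_nonneg (sq_nonneg _), sq]
    exact mul_le_mul_of_nonneg_right (hwg y) (hw0 y)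
  set I2 : ℝ := ∫ y in J, ((e y)⁻¹) ^ 2 with hI2d
  have hw2I : ∫ y, w y ^ 2 = I2 := by
    rw [hI2d, ← integral_indicator hJm]
    congr 1; funext y
    by_cases hy : y ∈ J
    · rw [hwJ y hy, indicator_of_mem hy]
    · rw [hwJ' y hy, indicator_of_notMem hy]; norm_num
  have hAwi : Integrable fun y => A y * w y := by
    refine Integrable.mono' (hAi.const_mul g⁻¹) (hAm.mul hwm).aestronglyMeasurable
      (ae_of_all _ fun y => ?_)
    rw [Real.norm_of_nonneg (mul_nonneg (hA0 y) (hw0 y)), mul_comm]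
    exact mul_le_mul_of_nonneg_right (hwg y) (hA0 y)
  have hAJ : ∀ y, y ∉ J → A y = 0 := by
    intro y hy
    by_contra hne
    exact hy (abs_lt.mp (hAs y hne))
  -- energies
  set E : ℝ := ∫ y, e y * A y ^ 2 with hE
  set α : ℝ := a1 a with hα
  have hαA : ∫ y, A y = α := rfl
  have hEi : Integrable fun y => e y * A y ^ 2 := hstar.int
  have hEg : g ≤ E := by
    have : ∫ y, g * A y ^ 2 ≤ E :=
      integral_mono (hA2i.const_mul g) hEi fun y =>
        mul_le_mul_of_nonneg_right (heg y) (sq_nonneg _)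
    rw [integral_const_mul, hone, mul_one] at this
    exact this
  have hEpos : 0 < E := lt_of_lt_of_le hg hEg
  have hst := hstar.le
  set S : ℝ := ∑' j, Qi a j ^ 2 with hS
  have hΛ0 : 0 ≤ Λ := by rw [← hwΛ]; exact integral_nonneg hw0
  have hΛpos : 0 < Λ := by
    rcases hΛ0.lt_or_eq with h | h
    · exact h
    · exfalso
      rw [← h] at hst
      simp only [inv_zero, mul_zero, zero_mul] at hst
      have h1 : 0 < (1 - ε) * E := mul_pos (by linarith) hEpos
      exact absurd hst (not_le.mpr h1)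
  have hα0 : 0 ≤ α := by rw [← hαA]; exact integral_nonneg hA0
  set c : ℝ := α / Λ with hc
  have hc0' : 0 ≤ c := by positivity
  have hid : ∀ y, e y * (A y - c * w y) ^ 2 = e y * A y ^ 2 - 2 * c * A y + c ^ 2 * w y := by
    intro y
    by_cases hy : y ∈ J
    · rw [hwJ y hy]
      have := (he0 y).ne'
      field_simp
      ring
    · rw [hwJ' y hy, hAJ y hy]; ring
  have hXi : Integrable fun y => (A y - c * w y) ^ 2 := by
    have : (fun y => (A y - c * w y) ^ 2) =
        fun y => A y ^ 2 - 2 * c * (A y * w y) + c ^ 2 * w y ^ 2 := by funext y; ring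
    rw [this]
    exact (hA2i.sub (hAwi.const_mul (2 * c))).add (hw2i.const_mul (c ^ 2))
  set X : ℝ := ∫ y, (A y - c * w y) ^ 2 with hX
  have hX0 : 0 ≤ X := integral_nonneg fun y => sq_nonneg _
  set Bq : ℝ := α ^ 2 / Λ with hBq
  have hBq0 : 0 ≤ Bq := by positivity
  have hgX : g * X ≤ E - Bq := by
    have h1 : ∫ y, g * (A y - c * w y) ^ 2 ≤ ∫ y, (e y * A y ^ 2 - 2 * c * A y + c ^ 2 * w y) := by
      refine integral_mono (hXi.const_mul g) ?_ fun y => ?_
      · exact (hEi.sub (hAi.const_mul (2 * c))).add (hwi.const_mul (c ^ 2))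
      · show g * (A y - c * w y) ^ 2 ≤ e y * A y ^ 2 - 2 * c * A y + c ^ 2 * w y
        rw [← hid y]
        exact mul_le_mul_of_nonneg_right (heg y) (sq_nonneg _)
    rw [integral_const_mul] at h1
    have h2 : ∫ y, (e y * A y ^ 2 - 2 * c * A y + c ^ 2 * w y) = E - 2 * c * α + c ^ 2 * Λ := by
      rw [integral_add (f := fun y => e y * A y ^ 2 - 2 * c * A y)
        (g := fun y => c ^ 2 * w y) (hEi.sub (hAi.const_mul (2 * c))) (hwi.const_mul (c ^ 2)),
        integral_sub hEi (hAi.const_mul (2 * c)), integral_const_mul, integral_const_mul, hwΛ, hαA]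
    rw [h2] at h1
    have h3 : E - 2 * c * α + c ^ 2 * Λ = E - Bq := by
      rw [hc, hBq]; field_simp; ring
    linarith
  have hBE : Bq ≤ E := by
    have : 0 ≤ g * X := mul_nonneg hg.le hX0
    linarith
  -- consequences of (★)
  have hSα : S ≤ α ^ 2 := hQ2le
  have hBΛ : Λ⁻¹ * α ^ 2 = Bq := by rw [hBq]; field_simp
  have hq1 : κ * (α ^ 2 - S) ≤ 2 * ε * α ^ 2 := by
    have h1 : (1 - ε) * Bq ≤ (1 + ε) * Λ⁻¹ * (α ^ 2 - κ * (α ^ 2 - S)) :=
      (mul_le_mul_of_nonneg_left hBE (by linarith)).trans hst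
    rw [← hBΛ] at h1
    have h2 : (1 - ε) * α ^ 2 ≤ (1 + ε) * (α ^ 2 - κ * (α ^ 2 - S)) := by
      have h3 : Λ⁻¹ * ((1 - ε) * α ^ 2) ≤ Λ⁻¹ * ((1 + ε) * (α ^ 2 - κ * (α ^ 2 - S))) := by
        have e1 : Λ⁻¹ * ((1 - ε) * α ^ 2) = (1 - ε) * (Λ⁻¹ * α ^ 2) := by ring
        have e2 : Λ⁻¹ * ((1 + ε) * (α ^ 2 - κ * (α ^ 2 - S))) =
          (1 + ε) * Λ⁻¹ * (α ^ 2 - κ * (α ^ 2 - S)) := by ring
        rw [e1, e2]; exact h1
      exact le_of_mul_le_mul_left h3 (inv_pos.mpr hΛpos)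
    have h4 : 0 ≤ κ * (α ^ 2 - S) := mul_nonneg hκ.le (by linarith)
    have h5 : (1 + ε) * (α ^ 2 - κ * (α ^ 2 - S)) =
      (1 + ε) * α ^ 2 - κ * (α ^ 2 - S) - ε * (κ * (α ^ 2 - S)) := by ring
    have h6 : 0 ≤ ε * (κ * (α ^ 2 - S)) := mul_nonneg hε h4
    linarith
  have hq2 : E - Bq ≤ 2 * ε * E := by
    have h1 : (1 + ε) * Λ⁻¹ * (α ^ 2 - κ * (α ^ 2 - S)) ≤ (1 + ε) * Bq := by
      rw [← hBΛ, mul_assoc]
      have h4 : 0 ≤ κ * (α ^ 2 - S) := mul_nonneg hκ.le (by linarith)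
      have h5 : Λ⁻¹ * (α ^ 2 - κ * (α ^ 2 - S)) ≤ Λ⁻¹ * α ^ 2 :=
        mul_le_mul_of_nonneg_left (by linarith) (inv_pos.mpr hΛpos).le
      exact mul_le_mul_of_nonneg_left h5 (by linarith)
    have h2 : (1 - ε) * E ≤ (1 + ε) * Bq := hst.trans h1
    have h3 : ε * Bq ≤ ε * E := mul_le_mul_of_nonneg_left hBE hε
    linarith
  set G : ℝ := E / g with hG
  have hGpos : 0 < G := by positivity
  have hXG : X ≤ 2 * ε * G := by
    have h1 : g * X ≤ 2 * ε * E := hgX.trans hq2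
    rw [hG, mul_div_assoc', le_div_iff₀ hg]; linarith
  have hI2c : c0 / 2 * G ≤ c ^ 2 * I2 := by
    have h1 : c ^ 2 * (c0 * Λ / g) ≤ c ^ 2 * I2 := mul_le_mul_of_nonneg_left hI2 (sq_nonneg _)
    have h2 : c ^ 2 * (c0 * Λ / g) = c0 * Bq / g := by rw [hc, hBq]; field_simp
    have h3 : c0 / 2 * G ≤ c0 * Bq / g := by
      rw [hG, le_div_iff₀ hg]
      have : c0 / 2 * (E / g) * g = c0 / 2 * E := by field_simp
      rw [this]
      have h4 : E / 2 ≤ Bq := by
        have h5 : 2 * ε * E ≤ 1 / 2 * E := mul_le_mul_of_nonneg_right (by linarith) hEpos.le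
        linarith
      have h6 : c0 * (E / 2) ≤ c0 * Bq := mul_le_mul_of_nonneg_left h4 hc0.le
      linarith
    linarith
  have hI2u : c ^ 2 * I2 ≤ 2 + 2 * X := by
    have h1 : ∫ y, c ^ 2 * w y ^ 2 ≤ ∫ y, (2 * A y ^ 2 + 2 * (A y - c * w y) ^ 2) := by
      refine integral_mono (hw2i.const_mul (c ^ 2)) ((hA2i.const_mul 2).add (hXi.const_mul 2))
        fun y => ?_
      show c ^ 2 * w y ^ 2 ≤ 2 * A y ^ 2 + 2 * (A y - c * w y) ^ 2
      have h2 : 2 * A y ^ 2 + 2 * (A y - c * w y) ^ 2 - c ^ 2 * w y ^ 2 =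
        (2 * A y - c * w y) ^ 2 := by ring
      linarith only [h2, sq_nonneg (2 * A y - c * w y)]
    rw [integral_const_mul, hw2I, integral_add (hA2i.const_mul 2) (hXi.const_mul 2),
      integral_const_mul, integral_const_mul, hone] at h1
    linarith
  have hGle : G ≤ 8 / c0 := by
    rw [le_div_iff₀ hc0]
    have h1 : 2 * ε * G ≤ 2 * (c0 / 16) * G :=
      mul_le_mul_of_nonneg_right (by linarith) hGpos.le
    linarith
  have hXd : X ≤ d ^ 2 := by
    have h1 : 2 * ε * G ≤ 2 * ε * (8 / c0) := mul_le_mul_of_nonneg_left hGle (by linarith)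
    have h2 : 2 * ε * (8 / c0) ≤ d ^ 2 := by
      rw [mul_div_assoc', div_le_iff₀ hc0]; linarith only [hε3]
    linarith
  have hI2pos : 0 < I2 := lt_of_lt_of_le (by positivity) hI2
  -- the profile
  set q : ℝ := Real.sqrt I2 with hq
  have hqpos : 0 < q := Real.sqrt_pos.mpr hI2pos
  have hqq : q ^ 2 = I2 := Real.sq_sqrt hI2pos.le
  set v : ℝ → ℝ := fun y => w y / q with hv
  have hv0 : ∀ y, 0 ≤ v y := fun y => div_nonneg (hw0 y) hqpos.le
  have hv2 : ∀ y, v y ^ 2 = w y ^ 2 / I2 := fun y => by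
    rw [hv]; simp only []; rw [div_pow, hqq]
  have hv2i : Integrable fun y => v y ^ 2 := by
    simp only [hv2]; exact hw2i.div_const I2
  have hv21 : ∫ y, v y ^ 2 = 1 := by
    simp only [hv2]
    rw [integral_div, hw2I]; exact div_self hI2pos.ne'
  have hAvi : Integrable fun y => A y * v y := by
    have : (fun y => A y * v y) = fun y => A y * w y / q := by funext y; rw [hv]; ring
    rw [this]; exact hAwi.div_const q
  set s : ℝ := ∫ y, A y * v y with hs
  have hs0 : 0 ≤ s := integral_nonneg fun y => mul_nonneg (hA0 y) (hv0 y)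
  have hquad : ∀ b : ℝ, ∫ y, (A y - b * v y) ^ 2 = 1 - 2 * b * s + b ^ 2 := by
    intro b
    have : (fun y => (A y - b * v y) ^ 2) =
        fun y => A y ^ 2 - 2 * b * (A y * v y) + b ^ 2 * v y ^ 2 := by funext y; ring
    rw [this, integral_add (f := fun y => A y ^ 2 - 2 * b * (A y * v y))
      (g := fun y => b ^ 2 * v y ^ 2) (hA2i.sub (hAvi.const_mul (2 * b))) (hv2i.const_mul (b ^ 2)),
      integral_sub hA2i (hAvi.const_mul (2 * b)), integral_const_mul, integral_const_mul, hone,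
      hv21]
    ring
  have hs1 : s ≤ 1 := by
    have h1 := hquad 1
    have h2 : 0 ≤ ∫ y, (A y - 1 * v y) ^ 2 := integral_nonneg fun y => sq_nonneg _
    rw [h1] at h2; linarith
  have hXb : X = 1 - 2 * (c * q) * s + (c * q) ^ 2 := by
    rw [← hquad (c * q), hX]
    congr 1; funext y
    have : c * q * v y = c * w y := by rw [hv]; field_simp
    rw [this]
  have hZX : 2 - 2 * s ≤ 2 * X := by
    rw [hXb]
    linarith only [sq_nonneg (c * q - s), mul_nonneg hs0 (sub_nonneg.2 hs1)]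
  have hdiff_i : Integrable fun y => |A y ^ 2 - v y ^ 2| := (hA2i.sub hv2i).abs
  have hprof : ∫ y, |A y ^ 2 - v y ^ 2| ≤ 3 * d := by
    have h1 : ∫ y, |A y ^ 2 - v y ^ 2| ≤
        ∫ y, ((1 / (2 * d) + d / 2) * A y ^ 2 + (d - 1 / d) * (A y * v y) +
          (1 / (2 * d) + d / 2) * v y ^ 2) := by
      refine integral_mono hdiff_i (((hA2i.const_mul _).add (hAvi.const_mul _)).add
        (hv2i.const_mul _)) fun y => ?_
      show |A y ^ 2 - v y ^ 2| ≤ (1 / (2 * d) + d / 2) * A y ^ 2 + (d - 1 / d) * (A y * v y) +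
          (1 / (2 * d) + d / 2) * v y ^ 2
      have h2 : |A y ^ 2 - v y ^ 2| = |A y - v y| * (A y + v y) := by
        have : A y ^ 2 - v y ^ 2 = (A y - v y) * (A y + v y) := by ring
        rw [this, abs_mul, abs_of_nonneg (add_nonneg (hA0 y) (hv0 y))]
      rw [h2]
      have h3 : |A y - v y| * (A y + v y) ≤
          1 / (2 * d) * (A y - v y) ^ 2 + d / 2 * (A y + v y) ^ 2 := by
        rw [← sq_abs (A y - v y)]
        have h4 : 0 ≤ (|A y - v y| - d * (A y + v y)) ^ 2 / (2 * d) := by positivity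
        have h5 : (|A y - v y| - d * (A y + v y)) ^ 2 / (2 * d) =
          1 / (2 * d) * |A y - v y| ^ 2 + d / 2 * (A y + v y) ^ 2 -
            |A y - v y| * (A y + v y) := by field_simp; ring
        linarith
      refine h3.trans (le_of_eq ?_)
      field_simp; ring
    have h6 : ∫ y, ((1 / (2 * d) + d / 2) * A y ^ 2 + (d - 1 / d) * (A y * v y) +
          (1 / (2 * d) + d / 2) * v y ^ 2) =
        (1 / (2 * d) + d / 2) + (d - 1 / d) * s + (1 / (2 * d) + d / 2) := by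
      rw [integral_add (f := fun y => (1 / (2 * d) + d / 2) * A y ^ 2 + (d - 1 / d) * (A y * v y))
        (g := fun y => (1 / (2 * d) + d / 2) * v y ^ 2)
        ((hA2i.const_mul _).add (hAvi.const_mul _)) (hv2i.const_mul _),
        integral_add (hA2i.const_mul _) (hAvi.const_mul _), integral_const_mul,
        integral_const_mul, integral_const_mul, hone, hv21]
      ring
    rw [h6] at h1
    have h7 : (1 / (2 * d) + d / 2) + (d - 1 / d) * s + (1 / (2 * d) + d / 2) =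
      (1 - s) / d + d * (1 + s) := by field_simp; ring
    rw [h7] at h1
    have h8 : (1 - s) / d ≤ d := by
      rw [div_le_iff₀ hdpos]; linarith only [hZX, hXd]
    have h9 : d * (1 + s) ≤ d * 2 := mul_le_mul_of_nonneg_left (by linarith only [hs1]) hdpos.le
    linarith only [h1, h8, h9]
  -- the dimer
  have hαpos : 0 < α := by
    rcases hα0.lt_or_eq with h | h
    · exact h
    · exfalso
      have : Bq = 0 := by rw [hBq, ← h]; simp
      rw [this] at hq2
      have h5 : 2 * ε * E ≤ 1 / 2 * E := mul_le_mul_of_nonneg_right (by linarith only [hε1]) hEpos.le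
      linarith only [hq2, h5, hEpos]
  obtain ⟨j, hj⟩ : ∃ j : ℤ, (1 - 2 * τ) * α ≤ Qi a j := by
    by_contra hcon
    push Not at hcon
    have h1 : S ≤ (1 - 2 * τ) * α * α := by
      have h2 : HasSum (fun j => (1 - 2 * τ) * α * Qi a j) ((1 - 2 * τ) * α * α) :=
        hQsum.mul_left _
      rw [hS, ← h2.tsum_eq]
      refine Summable.tsum_le_tsum (fun j => ?_) hQ2 h2.summable
      rw [sq]
      exact mul_le_mul_of_nonneg_right (hcon j).le (hQ0 j)
    have h3 : κ * (α ^ 2 - S) ≤ κ * (τ * α ^ 2) := by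
      refine hq1.trans ?_
      have : 2 * ε ≤ κ * τ := by linarith only [hε4]
      have h4 := mul_le_mul_of_nonneg_right this (sq_nonneg α)
      linarith only [h4]
    have h4 : α ^ 2 - S ≤ τ * α ^ 2 := le_of_mul_le_mul_left h3 hκ
    have h5 : 0 < τ * α ^ 2 := by positivity
    linarith only [h1, h4, h5]
  set D : ℝ → ℝ := fun y => A y - ‖a j y‖ ^ 2 / A y with hD
  have hDi : Integrable D := hAi.sub (hQi j)
  have hD0 : ∀ y, 0 ≤ D y := by
    intro y
    rw [hD]; simp only [sub_nonneg]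
    rcases (hA0 y).lt_or_eq with h | h
    · rw [div_le_iff₀ h, ← sq]
      exact pow_le_pow_left₀ (norm_nonneg _) (hAk j y) 2
    · rw [← h]; simp
  have hDA : ∀ y, D y ≤ A y := by
    intro y
    rw [hD]; simp only []
    have : 0 ≤ ‖a j y‖ ^ 2 / A y := div_nonneg (sq_nonneg _) (hA0 y)
    linarith
  have hDint : ∫ y, D y ≤ 2 * τ * α := by
    have h1 : ∫ y, D y = α - Qi a j := by
      rw [hD, integral_sub hAi (hQi j)]; rfl
    rw [h1]; linarith
  have hAD : ∀ y, A y ^ 2 - ‖a j y‖ ^ 2 = A y * D y := by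
    intro y
    rw [hD]; simp only []
    rcases (hA0 y).lt_or_eq with h | h
    · have := h.ne'; field_simp
    · have h1 : ‖a j y‖ = 0 := le_antisymm (by rw [h]; exact hAk j y) (norm_nonneg _)
      rw [← h, h1]; simp
  have haj2 : Integrable fun y => ‖a j y‖ ^ 2 := by
    refine Integrable.mono' hA2i ((ha.a_meas j).norm.pow_const 2).aestronglyMeasurable
      (ae_of_all _ fun y => ?_)
    rw [Real.norm_of_nonneg (sq_nonneg _)]
    exact pow_le_pow_left₀ (norm_nonneg _) (hAk j y) 2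
  have hmain : ∫ y, (A y ^ 2 - ‖a j y‖ ^ 2) ≤ d + 16 * τ / c0 := by
    have h1 : ∫ y, (A y ^ 2 - ‖a j y‖ ^ 2) ≤
        ∫ y, (1 / (2 * d) * (A y - c * w y) ^ 2 + d / 2 * A y ^ 2 + c / g * D y) := by
      refine integral_mono (hA2i.sub haj2) (((hXi.const_mul _).add (hA2i.const_mul _)).add
        (hDi.const_mul _)) fun y => ?_
      show A y ^ 2 - ‖a j y‖ ^ 2 ≤
        1 / (2 * d) * (A y - c * w y) ^ 2 + d / 2 * A y ^ 2 + c / g * D y
      rw [hAD y]
      have h2 : A y * D y = (A y - c * w y) * D y + c * w y * D y := by ring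
      have h3 : c * w y * D y ≤ c / g * D y := by
        have : c * w y ≤ c / g := by
          rw [div_eq_mul_inv]; exact mul_le_mul_of_nonneg_left (hwg y) hc0'
        exact mul_le_mul_of_nonneg_right this (hD0 y)
      have h4 : (A y - c * w y) * D y ≤ 1 / (2 * d) * (A y - c * w y) ^ 2 + d / 2 * D y ^ 2 := by
        have h5 : 0 ≤ (A y - c * w y - d * D y) ^ 2 / (2 * d) := by positivity
        have h6 : (A y - c * w y - d * D y) ^ 2 / (2 * d) =
          1 / (2 * d) * (A y - c * w y) ^ 2 + d / 2 * D y ^ 2 - (A y - c * w y) * D y := by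
          field_simp; ring
        linarith
      have h7 : d / 2 * D y ^ 2 ≤ d / 2 * A y ^ 2 :=
        mul_le_mul_of_nonneg_left (pow_le_pow_left₀ (hD0 y) (hDA y) 2) (by positivity)
      linarith
    have h8 : ∫ y, (1 / (2 * d) * (A y - c * w y) ^ 2 + d / 2 * A y ^ 2 + c / g * D y) =
        1 / (2 * d) * X + d / 2 + c / g * ∫ y, D y := by
      rw [integral_add (f := fun y => 1 / (2 * d) * (A y - c * w y) ^ 2 + d / 2 * A y ^ 2)
        (g := fun y => c / g * D y) ((hXi.const_mul _).add (hA2i.const_mul _)) (hDi.const_mul _),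
        integral_add (hXi.const_mul _) (hA2i.const_mul _), integral_const_mul,
        integral_const_mul, integral_const_mul, hone, mul_one]
    rw [h8] at h1
    have h9 : 1 / (2 * d) * X ≤ d / 2 := by
      have : 1 / (2 * d) * X ≤ 1 / (2 * d) * d ^ 2 := mul_le_mul_of_nonneg_left hXd (by positivity)
      have h10 : 1 / (2 * d) * d ^ 2 = d / 2 := by field_simp
      linarith
    have h11 : c / g * ∫ y, D y ≤ 16 * τ / c0 := by
      have h12 : c / g * ∫ y, D y ≤ c / g * (2 * τ * α) :=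
        mul_le_mul_of_nonneg_left hDint (by positivity)
      have h13 : c / g * (2 * τ * α) = 2 * τ * (Bq / g) := by
        rw [hc, hBq]; field_simp
      have h14 : Bq / g ≤ 8 / c0 := by
        have : Bq / g ≤ G := by rw [hG]; gcongr
        linarith
      have h15 : 2 * τ * (Bq / g) ≤ 2 * τ * (8 / c0) :=
        mul_le_mul_of_nonneg_left h14 (by positivity)
      have h16 : 2 * τ * (8 / c0) = 16 * τ / c0 := by ring
      linarith
    linarith
  have hτc : 16 * τ / c0 = η' / 2 := by rw [hτ]; field_simp; ring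
  refine ⟨j, ?_, ?_⟩
  · rw [hτc] at hmain
    refine hmain.trans ?_
    rw [hd]; linarith
  · have h1 : ∀ y, J.indicator (fun y => ((e y)⁻¹) ^ 2 / I2) y = v y ^ 2 := by
      intro y
      rw [hv2 y]
      by_cases hy : y ∈ J
      · rw [indicator_of_mem hy, hwJ y hy]
      · rw [indicator_of_notMem hy, hwJ' y hy]; simp
    have h2 : ∫ y, |‖a j y‖ ^ 2 - J.indicator (fun y => ((e y)⁻¹) ^ 2 / I2) y| ≤
        ∫ y, ((A y ^ 2 - ‖a j y‖ ^ 2) + |A y ^ 2 - v y ^ 2|) := by
      refine integral_mono ?_ ((hA2i.sub haj2).add hdiff_i) fun y => ?_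
      · simp only [h1]; exact (haj2.sub hv2i).abs
      · show |‖a j y‖ ^ 2 - J.indicator (fun y => ((e y)⁻¹) ^ 2 / I2) y| ≤
          (A y ^ 2 - ‖a j y‖ ^ 2) + |A y ^ 2 - v y ^ 2|
        rw [h1 y]
        have h3 : 0 ≤ A y ^ 2 - ‖a j y‖ ^ 2 := by
          rw [hAD y]; exact mul_nonneg (hA0 y) (hD0 y)
        have h4 : ‖a j y‖ ^ 2 - v y ^ 2 = -(A y ^ 2 - ‖a j y‖ ^ 2) + (A y ^ 2 - v y ^ 2) := by ring
        rw [h4]
        refine (abs_add_le _ _).trans ?_
        rw [abs_neg, abs_of_nonneg h3]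
    rw [integral_add (f := fun y => A y ^ 2 - ‖a j y‖ ^ 2) (g := fun y => |A y ^ 2 - v y ^ 2|)
      (hA2i.sub haj2) hdiff_i] at h2
    rw [hτc] at hmain
    refine h2.trans ?_
    have : d = η' / 8 := hd
    linarith

end Pool.Agent.Helper34.HRV
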