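import Pool.Agent.Helper34.HRV.Defs
import Pool.Agent.Helper34.HRV.St.S1

/-! HRV piece D2 (project HRT, MP_2370de_an; hints: `/team-store/HRV_hints.md`). -/

set_option autoImplicit false

open MeasureTheory Complex Set
open scoped ComplexConjugate Real

namespace Pool.Agent.Helper34.HRV

theorem D2_An_sq (g : ℤ → ℝ → ℂ) (y : ℝ) : An g y ^ 2 = ∑' k, ‖g k y‖ ^ 2 :=
  Real.sq_sqrt (tsum_nonneg fun _ => by positivity)

theorem D2_two_le {g : ℤ → ℝ → ℂ} {y : ℝ} (hs : Summable fun k => ‖g k y‖ ^ 2) {j k : ℤ}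
    (h : j ≠ k) : ‖g j y‖ ^ 2 + ‖g k y‖ ^ 2 ≤ An g y ^ 2 := by
  rw [D2_An_sq]
  have := hs.sum_le_tsum {j, k} (fun _ _ => by positivity)
  rwa [Finset.sum_pair h] at this

theorem D2_one_le {g : ℤ → ℝ → ℂ} {y : ℝ} (hs : Summable fun k => ‖g k y‖ ^ 2) (j : ℤ) :
    ‖g j y‖ ^ 2 ≤ An g y ^ 2 := by
  rw [D2_An_sq]
  exact hs.le_tsum j (fun _ _ => by positivity)

theorem D2_sq_le (x y : ℂ) : ‖x + y‖ ^ 2 ≤ 11 * ‖x‖ ^ 2 + 11 / 10 * ‖y‖ ^ 2 := by
  have h1 : ‖x + y‖ ^ 2 ≤ (‖x‖ + ‖y‖) ^ 2 := by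
    gcongr
    exact norm_add_le _ _
  nlinarith [sq_nonneg (10 * ‖x‖ - ‖y‖)]

theorem D2_sum {cf : ℝ → ℝ} {ζ : ℤ → ℂ} {a b : ℤ → ℝ → ℂ} (ha : Fib cf ζ a) (hb : Fib cf ζ b)
    (c d : ℂ) (y : ℝ) : Summable fun k => ‖c * a k y + d * b k y‖ ^ 2 := by
  refine Summable.of_nonneg_of_le (fun _ => by positivity) (fun k => ?_)
    (((ha.a_sum y).mul_left (11 * ‖c‖ ^ 2)).add ((hb.a_sum y).mul_left (11 / 10 * ‖d‖ ^ 2)))
  refine (D2_sq_le _ _).trans (le_of_eq ?_)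
  rw [norm_mul, norm_mul]
  ring

/-- D2. Two orthonormal vectors cannot both be concentrated. -/
theorem no_two {cf : ℝ → ℝ} {ζ : ℤ → ℂ} {a b : ℤ → ℝ → ℂ} (ha : Fib cf ζ a) (hb : Fib cf ζ b)
    (vr : ℝ → ℝ) (hv0 : ∀ y, 0 ≤ vr y) (hvi : Integrable vr) (hv1 : ∫ y, vr y = 1)
    (hc : ∀ c d : ℂ, ‖c‖ ^ 2 + ‖d‖ ^ 2 = 1 → ∃ j : ℤ,
      (∫ y, (An (fun i y => c * a i y + d * b i y) y ^ 2 - ‖c * a j y + d * b j y‖ ^ 2)) ≤ 1 / 100 ∧
      (∫ y, |‖c * a j y + d * b j y‖ ^ 2 - vr y|) ≤ 1 / 100)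
    (h1 : ∀ c d : ℂ, ‖c‖ ^ 2 + ‖d‖ ^ 2 = 1 →
      (∫ y, An (fun i y => c * a i y + d * b i y) y ^ 2) = 1) : False := by
  have _ := hv0
  -- integrability
  have hAn : ∀ c d : ℂ, ‖c‖ ^ 2 + ‖d‖ ^ 2 = 1 →
      Integrable (fun y => An (fun i y => c * a i y + d * b i y) y ^ 2) := by
    intro c d hcd
    by_contra hni
    have := h1 c d hcd
    rw [integral_undef hni] at this
    exact zero_ne_one this
  have hint : ∀ c d : ℂ, ‖c‖ ^ 2 + ‖d‖ ^ 2 = 1 → ∀ j,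
      Integrable (fun y => ‖c * a j y + d * b j y‖ ^ 2) := by
    intro c d hcd j
    refine (hAn c d hcd).mono' ?_ (Filter.Eventually.of_forall fun y => ?_)
    · have hm : Measurable fun y => c * a j y + d * b j y :=
        ((ha.a_meas j).const_mul c).add ((hb.a_meas j).const_mul d)
      exact (hm.norm.pow_const 2).aestronglyMeasurable
    · rw [Real.norm_eq_abs, abs_of_nonneg (by positivity)]
      exact D2_one_le (g := fun i y => c * a i y + d * b i y) (D2_sum ha hb c d y) j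
  -- the facts for a unit combination
  have key : ∀ c d : ℂ, ‖c‖ ^ 2 + ‖d‖ ^ 2 = 1 → ∃ j : ℤ,
      (99 / 100 ≤ ∫ y, ‖c * a j y + d * b j y‖ ^ 2) ∧
      (∀ i, i ≠ j → (∫ y, ‖c * a i y + d * b i y‖ ^ 2) ≤ 1 / 100) ∧
      (∫ y, |‖c * a j y + d * b j y‖ ^ 2 - vr y|) ≤ 1 / 100 := by
    intro c d hcd
    obtain ⟨j, hj1, hj2⟩ := hc c d hcd
    refine ⟨j, ?_, ?_, hj2⟩
    · rw [integral_sub (hAn c d hcd) (hint c d hcd j), h1 c d hcd] at hj1
      linarith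
    · intro i hij
      refine le_trans (integral_mono (hint c d hcd i)
        ((hAn c d hcd).sub (hint c d hcd j)) fun y => ?_) hj1
      have := D2_two_le (g := fun i y => c * a i y + d * b i y) (D2_sum ha hb c d y) hij
      simp only [Pi.sub_apply]
      linarith
  have hle1 : ∀ c d : ℂ, ‖c‖ ^ 2 + ‖d‖ ^ 2 = 1 → ∀ i,
      (∫ y, ‖c * a i y + d * b i y‖ ^ 2) ≤ 1 := by
    intro c d hcd i
    rw [← h1 c d hcd]
    exact integral_mono (hint c d hcd i) (hAn c d hcd) fun y =>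
      D2_one_le (g := fun i y => c * a i y + d * b i y) (D2_sum ha hb c d y) i
  have n10 : ‖(1 : ℂ)‖ ^ 2 + ‖(0 : ℂ)‖ ^ 2 = 1 := by simp
  have n01 : ‖(0 : ℂ)‖ ^ 2 + ‖(1 : ℂ)‖ ^ 2 = 1 := by simp
  set r : ℂ := ((Real.sqrt (1 / 2) : ℝ) : ℂ) with hr
  have hr2 : ‖r‖ ^ 2 = 1 / 2 := by
    rw [hr, Complex.norm_real, Real.norm_eq_abs, sq_abs, Real.sq_sqrt (by norm_num)]
  have n11 : ‖r‖ ^ 2 + ‖r‖ ^ 2 = 1 := by rw [hr2]; norm_num
  have n1i : ‖r‖ ^ 2 + ‖r * I‖ ^ 2 = 1 := by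
    rw [norm_mul, Complex.norm_I, mul_one, hr2]; norm_num
  obtain ⟨k1, a1', a2', a3'⟩ := key 1 0 n10
  obtain ⟨k2, b1', b2', b3'⟩ := key 0 1 n01
  have ea : ∀ i y, (1 : ℂ) * a i y + 0 * b i y = a i y := fun i y => by ring
  have eb : ∀ i y, (0 : ℂ) * a i y + 1 * b i y = b i y := fun i y => by ring
  have hia : ∀ i, Integrable (fun y => ‖a i y‖ ^ 2) := fun i => by
    have := hint 1 0 n10 i
    simpa only [ea] using this
  have hib : ∀ i, Integrable (fun y => ‖b i y‖ ^ 2) := fun i => by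
    have := hint 0 1 n01 i
    simpa only [eb] using this
  have hla : ∀ i, (∫ y, ‖a i y‖ ^ 2) ≤ 1 := fun i => by
    have := hle1 1 0 n10 i
    simpa only [ea] using this
  have hlb : ∀ i, (∫ y, ‖b i y‖ ^ 2) ≤ 1 := fun i => by
    have := hle1 0 1 n01 i
    simpa only [eb] using this
  simp only [ea] at a1' a2' a3'
  simp only [eb] at b1' b2' b3'
  -- the mass of a component of a combination with one small part
  have small : ∀ d : ℂ, ‖d‖ ^ 2 = 1 / 2 → ∀ i,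
      ((∫ y, ‖a i y‖ ^ 2) ≤ 1 / 100 ∨ (∫ y, ‖b i y‖ ^ 2) ≤ 1 / 100) →
      (∫ y, ‖r * a i y + d * b i y‖ ^ 2) < 99 / 100 := by
    intro d hd i hi
    have hn : ‖r‖ ^ 2 + ‖d‖ ^ 2 = 1 := by rw [hr2, hd]; norm_num
    rcases hi with hi | hi
    · have h2 : (∫ y, ‖r * a i y + d * b i y‖ ^ 2) ≤
          ∫ y, (11 / 2 * ‖a i y‖ ^ 2 + 11 / 20 * ‖b i y‖ ^ 2) := by
        refine integral_mono (hint r d hn i)
          (((hia i).const_mul _).add ((hib i).const_mul _)) fun y => ?_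
        refine (D2_sq_le _ _).trans (le_of_eq ?_)
        rw [norm_mul, norm_mul, mul_pow, mul_pow, hr2, hd]
        ring
      rw [integral_add ((hia i).const_mul _) ((hib i).const_mul _), integral_const_mul,
        integral_const_mul] at h2
      have := hlb i
      linarith
    · have h2 : (∫ y, ‖r * a i y + d * b i y‖ ^ 2) ≤
          ∫ y, (11 / 20 * ‖a i y‖ ^ 2 + 11 / 2 * ‖b i y‖ ^ 2) := by
        refine integral_mono (hint r d hn i)
          (((hia i).const_mul _).add ((hib i).const_mul _)) fun y => ?_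
        rw [show r * a i y + d * b i y = d * b i y + r * a i y by ring]
        refine (D2_sq_le _ _).trans (le_of_eq ?_)
        rw [norm_mul, norm_mul, mul_pow, mul_pow, hr2, hd]
        ring
      rw [integral_add ((hia i).const_mul _) ((hib i).const_mul _), integral_const_mul,
        integral_const_mul] at h2
      have := hla i
      linarith
  have hdI : ‖r * I‖ ^ 2 = 1 / 2 := by rw [norm_mul, Complex.norm_I, mul_one, hr2]
  obtain ⟨k3, c1', _, c3'⟩ := key r r n11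
  obtain ⟨k4, d1', _, d3'⟩ := key r (r * I) n1i
  have h31 : k3 = k1 := by
    by_contra hne
    exact absurd (small r hr2 k3 (Or.inl (a2' k3 hne))) (not_lt.mpr c1')
  have h32 : k3 = k2 := by
    by_contra hne
    exact absurd (small r hr2 k3 (Or.inr (b2' k3 hne))) (not_lt.mpr c1')
  have h41 : k4 = k1 := by
    by_contra hne
    exact absurd (small (r * I) hdI k4 (Or.inl (a2' k4 hne))) (not_lt.mpr d1')
  subst h31
  subst h32
  subst h41
  -- pointwise inequality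
  have hA := ((hia k4).sub hvi).abs
  have hB := ((hib k4).sub hvi).abs
  have hC := ((hint r r n11 k4).sub hvi).abs
  have hD := ((hint r (r * I) n1i k4).sub hvi).abs
  simp only [Pi.sub_apply] at hA hB hC hD
  have hrr : ∀ z w : ℂ, ‖r * z + r * w‖ ^ 2 =
      (‖z‖ ^ 2 + ‖w‖ ^ 2) / 2 + (z.re * w.re + z.im * w.im) := by
    intro z w
    rw [show r * z + r * w = r * (z + w) by ring, norm_mul, mul_pow, hr2,
      ← Complex.normSq_eq_norm_sq, ← Complex.normSq_eq_norm_sq, ← Complex.normSq_eq_norm_sq,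
      Complex.normSq_apply, Complex.normSq_apply, Complex.normSq_apply]
    simp only [Complex.add_re, Complex.add_im]
    ring
  have hri : ∀ z w : ℂ, ‖r * z + r * I * w‖ ^ 2 =
      (‖z‖ ^ 2 + ‖w‖ ^ 2) / 2 + (z.im * w.re - z.re * w.im) := by
    intro z w
    rw [show r * z + r * I * w = r * (z + I * w) by ring, norm_mul, mul_pow, hr2,
      ← Complex.normSq_eq_norm_sq, ← Complex.normSq_eq_norm_sq, ← Complex.normSq_eq_norm_sq,
      Complex.normSq_apply, Complex.normSq_apply, Complex.normSq_apply]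
    simp only [Complex.add_re, Complex.add_im, Complex.mul_re, Complex.mul_im, Complex.I_re,
      Complex.I_im]
    ring
  have hpt : ∀ y, vr y ≤ 2 * |‖a k4 y‖ ^ 2 - vr y| + 2 * |‖b k4 y‖ ^ 2 - vr y| +
      |‖r * a k4 y + r * b k4 y‖ ^ 2 - vr y| + |‖r * a k4 y + r * I * b k4 y‖ ^ 2 - vr y| := by
    intro y
    set z := a k4 y
    set w := b k4 y
    set v := vr y
    have e1 := hrr z w
    have e2 := hri z w
    set P := ‖r * z + r * w‖ ^ 2
    set Q := ‖r * z + r * I * w‖ ^ 2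
    have hre : |z.re * w.re + z.im * w.im| ≤
        |P - v| + (|‖z‖ ^ 2 - v| + |‖w‖ ^ 2 - v|) / 2 := by
      have : z.re * w.re + z.im * w.im =
          (P - v) - ((‖z‖ ^ 2 - v) + (‖w‖ ^ 2 - v)) / 2 := by rw [e1]; ring
      rw [this]
      have h2 := abs_sub (P - v) (((‖z‖ ^ 2 - v) + (‖w‖ ^ 2 - v)) / 2)
      have h3 : |((‖z‖ ^ 2 - v) + (‖w‖ ^ 2 - v)) / 2| ≤ (|‖z‖ ^ 2 - v| + |‖w‖ ^ 2 - v|) / 2 := by
        rw [abs_div, abs_two]
        have := abs_add_le (‖z‖ ^ 2 - v) (‖w‖ ^ 2 - v)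
        linarith
      linarith
    have him : |z.im * w.re - z.re * w.im| ≤
        |Q - v| + (|‖z‖ ^ 2 - v| + |‖w‖ ^ 2 - v|) / 2 := by
      have : z.im * w.re - z.re * w.im =
          (Q - v) - ((‖z‖ ^ 2 - v) + (‖w‖ ^ 2 - v)) / 2 := by rw [e2]; ring
      rw [this]
      have h2 := abs_sub (Q - v) (((‖z‖ ^ 2 - v) + (‖w‖ ^ 2 - v)) / 2)
      have h3 : |((‖z‖ ^ 2 - v) + (‖w‖ ^ 2 - v)) / 2| ≤ (|‖z‖ ^ 2 - v| + |‖w‖ ^ 2 - v|) / 2 := by
        rw [abs_div, abs_two]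
        have := abs_add_le (‖z‖ ^ 2 - v) (‖w‖ ^ 2 - v)
        linarith
      linarith
    have hzw : ‖z‖ * ‖w‖ ≤ |z.re * w.re + z.im * w.im| + |z.im * w.re - z.re * w.im| := by
      have h4 : (‖z‖ * ‖w‖) ^ 2 =
          (z.re * w.re + z.im * w.im) ^ 2 + (z.im * w.re - z.re * w.im) ^ 2 := by
        rw [mul_pow, ← Complex.normSq_eq_norm_sq, ← Complex.normSq_eq_norm_sq,
          Complex.normSq_apply, Complex.normSq_apply]
        ring
      have h5 : (‖z‖ * ‖w‖) ^ 2 ≤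
          (|z.re * w.re + z.im * w.im| + |z.im * w.re - z.re * w.im|) ^ 2 := by
        rw [h4, ← sq_abs (z.re * w.re + z.im * w.im), ← sq_abs (z.im * w.re - z.re * w.im)]
        nlinarith [abs_nonneg (z.re * w.re + z.im * w.im), abs_nonneg (z.im * w.re - z.re * w.im)]
      exact abs_le_of_sq_le_sq' h5 (by positivity) |>.2
    have hmin : v ≤ ‖z‖ * ‖w‖ + |‖z‖ ^ 2 - v| + |‖w‖ ^ 2 - v| := by
      rcases le_total ‖z‖ ‖w‖ with h | h
      · have h6 : ‖z‖ ^ 2 ≤ ‖z‖ * ‖w‖ := by nlinarith [norm_nonneg z]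
        have := neg_abs_le (‖z‖ ^ 2 - v)
        have := abs_nonneg (‖w‖ ^ 2 - v)
        linarith
      · have h6 : ‖w‖ ^ 2 ≤ ‖z‖ * ‖w‖ := by nlinarith [norm_nonneg w]
        have := neg_abs_le (‖w‖ ^ 2 - v)
        have := abs_nonneg (‖z‖ ^ 2 - v)
        linarith
    linarith
  have i2A : Integrable (fun y => 2 * |‖a k4 y‖ ^ 2 - vr y|) := hA.const_mul 2
  have i2B : Integrable (fun y => 2 * |‖b k4 y‖ ^ 2 - vr y|) := hB.const_mul 2
  have iAB : Integrable (fun y => 2 * |‖a k4 y‖ ^ 2 - vr y| + 2 * |‖b k4 y‖ ^ 2 - vr y|) :=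
    i2A.add i2B
  have iABC : Integrable (fun y => 2 * |‖a k4 y‖ ^ 2 - vr y| + 2 * |‖b k4 y‖ ^ 2 - vr y| +
      |‖r * a k4 y + r * b k4 y‖ ^ 2 - vr y|) := iAB.add hC
  have hfin : (∫ y, vr y) ≤ ∫ y, (2 * |‖a k4 y‖ ^ 2 - vr y| + 2 * |‖b k4 y‖ ^ 2 - vr y| +
      |‖r * a k4 y + r * b k4 y‖ ^ 2 - vr y| + |‖r * a k4 y + r * I * b k4 y‖ ^ 2 - vr y|) :=
    integral_mono hvi (iABC.add hD) hpt
  rw [integral_add iABC hD, integral_add iAB hC, integral_add i2A i2B, integral_const_mul,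
    integral_const_mul, hv1] at hfin
  linarith

end Pool.Agent.Helper34.HRV
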