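import Pool.Agent.Helper34.HRV.Defs

/-! HRV piece E1 (project HRT, MP_2370de_an; hints: `/team-store/HRV_hints.md`). -/

set_option autoImplicit false

open MeasureTheory Complex Set
open scoped ComplexConjugate Real

namespace Pool.Agent.Helper34.HRV

/-- positive symmetric operators: `‖T x‖² ≤ (‖T‖ + 1) re ⟨x, T x⟩` -/
theorem crossing_aux {E : Type} [NormedAddCommGroup E] [InnerProductSpace ℂ E]
    (T : E →L[ℂ] E) (hsym : ∀ x y, inner ℂ (T x) y = inner ℂ x (T y))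
    (h0 : ∀ x, 0 ≤ (inner ℂ x (T x) : ℂ).re) (x : E) :
    ‖T x‖ ^ 2 ≤ (‖T‖ + 1) * (inner ℂ x (T x) : ℂ).re := by
  set L : ℝ := ‖T‖ + 1 with hL
  have hLpos : 0 < L := by positivity
  have h := h0 ((L : ℂ) • x - T x)
  have h1 : (inner ℂ ((L : ℂ) • x - T x) (T ((L : ℂ) • x - T x)) : ℂ).re =
      L ^ 2 * (inner ℂ x (T x) : ℂ).re - 2 * L * ‖T x‖ ^ 2 +
        (inner ℂ (T x) (T (T x)) : ℂ).re := by
    rw [map_sub, map_smul, inner_sub_left, inner_sub_right, inner_sub_right, inner_smul_left,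
      inner_smul_left, inner_smul_right, inner_smul_right, ← hsym x (T x)]
    rw [Complex.conj_ofReal]
    have h2 : (inner ℂ (T x) (T x) : ℂ) = ((‖T x‖ ^ 2 : ℝ) : ℂ) := by
      rw [inner_self_eq_norm_sq_to_K]
      push_cast
      rfl
    rw [h2]
    simp only [Complex.sub_re, Complex.mul_re, Complex.ofReal_re, Complex.ofReal_im, zero_mul,
      sub_zero, mul_zero, Complex.mul_im, add_zero]
    ring
  have h3 : (inner ℂ (T x) (T (T x)) : ℂ).re ≤ ‖T‖ * ‖T x‖ ^ 2 := by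
    calc (inner ℂ (T x) (T (T x)) : ℂ).re ≤ ‖(inner ℂ (T x) (T (T x)) : ℂ)‖ :=
          Complex.re_le_norm _
      _ ≤ ‖T x‖ * ‖T (T x)‖ := norm_inner_le_norm _ _
      _ ≤ ‖T x‖ * (‖T‖ * ‖T x‖) := by gcongr; exact T.le_opNorm _
      _ = ‖T‖ * ‖T x‖ ^ 2 := by ring
  rw [h1] at h
  have h4 : ‖T‖ * ‖T x‖ ^ 2 ≤ L * ‖T x‖ ^ 2 := by
    have : ‖T‖ ≤ L := by rw [hL]; linarith
    gcongr
  have h5 : L * ‖T x‖ ^ 2 ≤ L * (L * (inner ℂ x (T x) : ℂ).re) := by nlinarith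
  exact le_of_mul_le_mul_left h5 hLpos

/-- E1. A norm continuous family of self-adjoint operators, nonnegative at `0` and not at `1`. -/
theorem crossing {E : Type} [NormedAddCommGroup E] [InnerProductSpace ℂ E] [CompleteSpace E]
    (S : ℝ → E →L[ℂ] E) (hS : ContinuousOn S (Icc 0 1))
    (hsym : ∀ t ∈ Icc (0 : ℝ) 1, ∀ x y, inner ℂ (S t x) y = inner ℂ x (S t y))
    (h0 : ∀ x, 0 ≤ (inner ℂ x (S 0 x) : ℂ).re) (x1 : E) (h1 : (inner ℂ x1 (S 1 x1) : ℂ).re < 0) :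
    ∃ t ∈ Icc (0 : ℝ) 1, ∀ ε : ℝ, 0 < ε → ∃ x : E, ‖x‖ = 1 ∧ ‖S t x‖ < ε := by
  by_contra hcon
  push Not at hcon
  set s : Set ℝ := {t | ∀ x, 0 ≤ (inner ℂ x (S t x) : ℂ).re} with hs
  have hcont : ∀ x : E, ContinuousOn (fun t => (inner ℂ x (S t x) : ℂ).re) (Icc 0 1) := by
    intro x
    have h2 : ContinuousOn (fun t => S t x) (Icc 0 1) := hS.clm_apply continuousOn_const
    exact Complex.continuous_re.comp_continuousOn (continuousOn_const.inner h2)
  have hclosed : IsClosed (s ∩ Icc (0 : ℝ) 1) := by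
    have : s ∩ Icc (0 : ℝ) 1 =
        ⋂ x : E, (Icc (0 : ℝ) 1 ∩ (fun t => (inner ℂ x (S t x) : ℂ).re) ⁻¹' Ici 0) := by
      ext t
      simp only [hs, mem_inter_iff, mem_ofPred_eq, mem_iInter, mem_preimage, mem_Ici]
      constructor
      · rintro ⟨h2, h3⟩ x
        exact ⟨h3, h2 x⟩
      · intro h2
        exact ⟨fun x => (h2 x).2, (h2 0).1⟩
    rw [this]
    exact isClosed_iInter fun x => (hcont x).preimage_isClosed_of_isClosed isClosed_Icc isClosed_Ici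
  have hall : Icc (0 : ℝ) 1 ⊆ s := by
    refine hclosed.Icc_subset_of_forall_exists_gt h0 ?_
    rintro t ⟨hts, ht0, ht1⟩ y hy
    have htI : t ∈ Icc (0 : ℝ) 1 := ⟨ht0, ht1.le⟩
    obtain ⟨ε, hε, hbb⟩ := hcon t htI
    set L : ℝ := ‖S t‖ + 1 with hL
    have hLpos : 0 < L := by positivity
    have hlow : ∀ x : E, ε ^ 2 * ‖x‖ ^ 2 ≤ L * (inner ℂ x (S t x) : ℂ).re := by
      intro x
      refine le_trans ?_ (crossing_aux (S t) (hsym t htI) hts x)
      rcases eq_or_ne x 0 with hx | hx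
      · simp [hx]
      · have hxn : 0 < ‖x‖ := norm_pos_iff.mpr hx
        have h2 := hbb ((‖x‖⁻¹ : ℂ) • x) (by
          rw [norm_smul]
          simp [hxn.ne'])
        rw [map_smul, norm_smul] at h2
        have h3 : ‖(‖x‖⁻¹ : ℂ)‖ = ‖x‖⁻¹ := by simp
        rw [h3] at h2
        have h4 : ε * ‖x‖ ≤ ‖S t x‖ := by
          have := mul_le_mul_of_nonneg_left h2 hxn.le
          rw [← mul_assoc, mul_inv_cancel₀ hxn.ne', one_mul] at this
          linarith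
        calc ε ^ 2 * ‖x‖ ^ 2 = (ε * ‖x‖) ^ 2 := by ring
          _ ≤ ‖S t x‖ ^ 2 := by gcongr
    have hc : 0 < ε ^ 2 / L := by positivity
    have h5 := (Metric.continuousOn_iff.mp hS) t htI (ε ^ 2 / L) hc
    obtain ⟨δ, hδ, h6⟩ := h5
    set r : ℝ := min (t + δ / 2) (min y 1) with hr
    have hy' : t < y := hy
    have hrt : t < r := by
      rw [hr]
      refine lt_min (by linarith) (lt_min hy' ht1)
    have hry : r ≤ y := (min_le_right _ _).trans (min_le_left _ _)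
    have hr1 : r ≤ 1 := (min_le_right _ _).trans (min_le_right _ _)
    have hrd : r ≤ t + δ / 2 := min_le_left _ _
    refine ⟨r, ?_, hrt, hry⟩
    have h7 : dist (S r) (S t) < ε ^ 2 / L := by
      apply h6 r ⟨ht0.trans hrt.le, hr1⟩
      rw [Real.dist_eq, abs_of_pos (by linarith)]
      linarith
    rw [dist_eq_norm] at h7
    intro x
    have h8 : (inner ℂ x (S r x) : ℂ).re =
        (inner ℂ x (S t x) : ℂ).re + (inner ℂ x ((S r - S t) x) : ℂ).re := by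
      rw [← Complex.add_re, ← inner_add_right]
      congr 2
      simp
    have h9 : |(inner ℂ x ((S r - S t) x) : ℂ).re| ≤ ε ^ 2 / L * ‖x‖ ^ 2 := by
      calc |(inner ℂ x ((S r - S t) x) : ℂ).re| ≤ ‖(inner ℂ x ((S r - S t) x) : ℂ)‖ :=
            Complex.abs_re_le_norm _
        _ ≤ ‖x‖ * ‖(S r - S t) x‖ := norm_inner_le_norm _ _
        _ ≤ ‖x‖ * (‖S r - S t‖ * ‖x‖) := by gcongr; exact (S r - S t).le_opNorm _
        _ ≤ ‖x‖ * (ε ^ 2 / L * ‖x‖) := by gcongr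
        _ = ε ^ 2 / L * ‖x‖ ^ 2 := by ring
    have h10 : ε ^ 2 / L * ‖x‖ ^ 2 ≤ (inner ℂ x (S t x) : ℂ).re := by
      have := hlow x
      rw [div_mul_eq_mul_div, div_le_iff₀ hLpos]
      linarith
    rw [h8]
    have := (abs_le.mp h9).1
    linarith
  exact absurd (hall ⟨zero_le_one, le_rfl⟩ x1) (not_le.mpr h1)

end Pool.Agent.Helper34.HRV
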