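import Pool.Agent.Helper34.HRV.Defs
import Pool.Agent.Helper34.HRV.St.E1

/-! HRV piece E2 (project HRT, MP_2370de_an; hints: `/team-store/HRV_hints.md`). Replace the `sorry`s in place. -/

set_option autoImplicit false

open MeasureTheory Complex Set
open scoped ComplexConjugate Real

namespace Pool.Agent.Helper34.HRV

private theorem e2_unit {E : Type} [NormedAddCommGroup E] [InnerProductSpace ℂ E] [CompleteSpace E]
    (B : E →L[ℂ] E) (hB : ∀ x y, inner ℂ (B x) y = inner ℂ x (B y)) (c : ℝ) (hc : 0 < c)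
    (h : ∀ x, c * ‖x‖ ≤ ‖B x‖) : IsUnit B := by
  rw [ContinuousLinearMap.isUnit_iff_bijective,
    ContinuousLinearMap.bijective_iff_dense_range_and_antilipschitz]
  refine ⟨?_, ⟨Real.toNNReal c⁻¹, ?_⟩⟩
  · rw [Submodule.topologicalClosure_eq_top_iff, Submodule.eq_bot_iff]
    intro x hx
    have h1 : B x = 0 := by
      have h2 : inner ℂ (B (B x)) x = 0 := hx (B (B x)) ⟨B x, rfl⟩
      rw [hB] at h2
      exact inner_self_eq_zero.1 h2
    have h3 := h x
    rw [h1, norm_zero] at h3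
    have : ‖x‖ ≤ 0 := by
      by_contra h4
      push Not at h4
      have := mul_pos hc h4
      linarith
    exact norm_le_zero_iff.1 this
  · refine B.antilipschitz_of_bound fun x => ?_
    rw [Real.coe_toNNReal _ (inv_nonneg.2 hc.le)]
    rw [inv_mul_eq_div, le_div_iff₀ hc, mul_comm]
    exact h x

/-- E2. Schur complement version. `J` is an orthogonal projection. -/
theorem schur {E : Type} [NormedAddCommGroup E] [InnerProductSpace ℂ E] [CompleteSpace E]
    (A0 X J : E →L[ℂ] E) (g : ℝ) (hg : 0 < g)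
    (hA : ∀ x y, inner ℂ (A0 x) y = inner ℂ x (A0 y)) (hX : ∀ x y, inner ℂ (X x) y = inner ℂ x (X y))
    (hJ : ∀ x, J (J x) = J x) (hJs : ∀ x y, inner ℂ (J x) y = inner ℂ x (J y))
    (hz : ∀ t ∈ Icc (0 : ℝ) 1, ∀ z : E, J z = 0 →
      g * ‖z‖ ≤ ‖(A0 z + (t : ℂ) • X z) - J (A0 z + (t : ℂ) • X z)‖)
    (h0 : ∀ y z : E, J y = y → J z = 0 → A0 (y + z) - J (A0 (y + z)) = 0 →
      0 ≤ (inner ℂ y (A0 (y + z)) : ℂ).re)
    (y1 : E) (hy1 : J y1 = y1)
    (h1 : ∀ z : E, J z = 0 → (A0 (y1 + z) + X (y1 + z)) - J (A0 (y1 + z) + X (y1 + z)) = 0 →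
      (inner ℂ y1 (A0 (y1 + z) + X (y1 + z)) : ℂ).re < 0) :
    ∃ t ∈ Icc (0 : ℝ) 1, ∀ ε : ℝ, 0 < ε → ∃ u : E, ‖u‖ = 1 ∧ ‖A0 u + (t : ℂ) • X u‖ < ε := by
  set A : ℝ → E →L[ℂ] E := fun t => A0 + (t : ℂ) • X with hAdef
  have hAa : ∀ t x, A t x = A0 x + (t : ℂ) • X x := fun t x => rfl
  have hAs : ∀ t x y, inner ℂ (A t x) y = inner ℂ x (A t y) := by
    intro t x y
    rw [hAa, hAa, inner_add_left, inner_add_right, inner_smul_left, inner_smul_right, hA, hX,
      Complex.conj_ofReal]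
  have hAc : Continuous A := by
    refine continuous_const.add ?_
    exact (Complex.continuous_ofReal).smul continuous_const
  -- orthogonality of J and 1 - J
  have hort : ∀ x y : E, inner ℂ (J x) (y - J y) = 0 := by
    intro x y
    rw [hJs, map_sub, hJ, sub_self, inner_zero_right]
  have hpyth : ∀ x : E, ‖x‖ ^ 2 = ‖J x‖ ^ 2 + ‖x - J x‖ ^ 2 := by
    intro x
    have h := norm_add_sq_eq_norm_sq_add_norm_sq_of_inner_eq_zero (J x) (x - J x) (hort x x)
    rw [add_sub_cancel] at h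
    nlinarith [h]
  set B : ℝ → E →L[ℂ] E := fun t => (1 - J) * A t * (1 - J) + J with hBdef
  have hBa : ∀ t x, B t x = (A t (x - J x) - J (A t (x - J x))) + J x := fun t x => rfl
  have hBs : ∀ t x y, inner ℂ (B t x) y = inner ℂ x (B t y) := by
    intro t x y
    rw [hBa, hBa, inner_add_left, inner_add_right, hJs]
    congr 1
    have e1 : inner ℂ x (A t (y - J y) - J (A t (y - J y))) =
        inner ℂ (x - J x) (A t (y - J y)) := by
      rw [inner_sub_right, ← hJs, ← inner_sub_left]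
    have e2 : inner ℂ (A t (x - J x) - J (A t (x - J x))) y =
        inner ℂ (A t (x - J x)) (y - J y) := by
      rw [inner_sub_left, hJs, ← inner_sub_right]
    rw [e1, e2, hAs]
  have hBu : ∀ t ∈ Icc (0 : ℝ) 1, IsUnit (B t) := by
    intro t ht
    refine e2_unit (B t) (hBs t) (min g 1) (lt_min hg one_pos) fun x => ?_
    have hb1 : J (B t x) = J x := by
      rw [hBa, map_add, map_sub, hJ, hJ, sub_self, zero_add]
    have hb2 : B t x - J (B t x) = A t (x - J x) - J (A t (x - J x)) := by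
      rw [hb1, hBa, add_sub_cancel_right]
    have hb3 : g * ‖x - J x‖ ≤ ‖A t (x - J x) - J (A t (x - J x))‖ := by
      have := hz t ht (x - J x) (by rw [map_sub, hJ, sub_self])
      exact this
    have hb4 := hpyth (B t x)
    rw [hb2, hb1] at hb4
    have hb5 := hpyth x
    have m1 : min g 1 ≤ g := min_le_left _ _
    have m2 : min g 1 ≤ 1 := min_le_right _ _
    have m3 : 0 < min g 1 := lt_min hg one_pos
    have n1 := norm_nonneg (J x)
    have n2 := norm_nonneg (x - J x)
    have c1 : (min g 1 * ‖x - J x‖) ^ 2 ≤ ‖A t (x - J x) - J (A t (x - J x))‖ ^ 2 := by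
      refine pow_le_pow_left₀ (by positivity) ?_ 2
      exact (mul_le_mul_of_nonneg_right m1 n2).trans hb3
    have c2 : (min g 1 * ‖J x‖) ^ 2 ≤ ‖J x‖ ^ 2 := by
      refine pow_le_pow_left₀ (by positivity) ?_ 2
      nlinarith
    refine (pow_le_pow_iff_left₀ (by positivity) (norm_nonneg _) two_ne_zero).1 ?_
    rw [hb4, mul_pow, hb5]
    nlinarith
  have hBc : Continuous B := by
    have e : B = fun t => (1 - J) * A t * (1 - J) + J := rfl
    rw [e]
    exact ((continuous_const.mul hAc).mul continuous_const).add continuous_const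
  have hBi : ContinuousOn (fun t => Ring.inverse (B t)) (Icc 0 1) := by
    intro t ht
    obtain ⟨u, hu⟩ := hBu t ht
    have h := NormedRing.inverse_continuousAt u
    rw [hu] at h
    exact (ContinuousAt.comp (f := B) h hBc.continuousAt).continuousWithinAt
  set Z : ℝ → E →L[ℂ] E := fun t => -(Ring.inverse (B t) * (1 - J) * A t * J) with hZdef
  have hZc : ContinuousOn Z (Icc 0 1) :=
    (((hBi.mul continuousOn_const).mul hAc.continuousOn).mul continuousOn_const).neg
  have hBZ : ∀ t ∈ Icc (0 : ℝ) 1, ∀ x, B t (Z t x) = -(A t (J x) - J (A t (J x))) := by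
    intro t ht x
    have e : B t * Z t = -((1 - J) * A t * J) := by
      rw [hZdef]
      simp only
      rw [mul_neg, ← mul_assoc, ← mul_assoc, ← mul_assoc, Ring.mul_inverse_cancel _ (hBu t ht),
        one_mul]
    have := congrArg (fun T : E →L[ℂ] E => T x) e
    exact this
  have hJZ : ∀ t ∈ Icc (0 : ℝ) 1, ∀ x, J (Z t x) = 0 := by
    intro t ht x
    have h := congrArg J (hBZ t ht x)
    rw [hBa, map_add, map_sub, hJ, hJ, sub_self, zero_add, map_neg, map_sub, hJ, sub_self,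
      neg_zero] at h
    exact h
  have hQ : ∀ t ∈ Icc (0 : ℝ) 1, ∀ x, A t (J x + Z t x) - J (A t (J x + Z t x)) = 0 := by
    intro t ht x
    have h := hBZ t ht x
    rw [hBa, hJZ t ht x, sub_zero, add_zero] at h
    rw [map_add, map_add]
    have : A t (J x) + A t (Z t x) - (J (A t (J x)) + J (A t (Z t x))) =
      (A t (J x) - J (A t (J x))) + (A t (Z t x) - J (A t (Z t x))) := by abel
    rw [this, h, add_neg_cancel]
  set S : ℝ → E →L[ℂ] E := fun t => J * A t * (J + Z t) + (1 - J) with hSdef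
  have hSa : ∀ t x, S t x = J (A t (J x + Z t x)) + (x - J x) := fun t x => rfl
  have hSa' : ∀ t ∈ Icc (0 : ℝ) 1, ∀ x, S t x = A t (J x + Z t x) + (x - J x) := by
    intro t ht x
    rw [hSa]
    congr 1
    exact (sub_eq_zero.1 (hQ t ht x)).symm
  have hSc : ContinuousOn S (Icc 0 1) :=
    ((continuousOn_const.mul hAc.continuousOn).mul (continuousOn_const.add hZc)).add
      continuousOn_const
  -- the form of S
  have hform : ∀ t ∈ Icc (0 : ℝ) 1, ∀ x y, inner ℂ x (S t y) =
      inner ℂ (J x + Z t x) (A t (J y + Z t y)) + inner ℂ x (y - J y) := by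
    intro t ht x y
    rw [hSa, inner_add_right]
    congr 1
    rw [← hJs, inner_add_left]
    have h2 : inner ℂ (Z t x) (A t (J y + Z t y)) = 0 := by
      rw [sub_eq_zero.1 (hQ t ht y), ← hJs, hJZ t ht x, inner_zero_left]
    rw [h2, add_zero]
  have hSsym : ∀ t ∈ Icc (0 : ℝ) 1, ∀ x y, inner ℂ (S t x) y = inner ℂ x (S t y) := by
    intro t ht x y
    rw [← inner_conj_symm, hform t ht y x, hform t ht x y, map_add, inner_conj_symm,
      inner_conj_symm, hAs]
    congr 1
    rw [inner_sub_left, inner_sub_right, hJs]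
  have hpos0 : ∀ x, 0 ≤ (inner ℂ x (S 0 x) : ℂ).re := by
    intro x
    have ht : (0 : ℝ) ∈ Icc (0 : ℝ) 1 := by constructor <;> norm_num
    have hA00 : A 0 = A0 := by
      ext x; rw [hAa]; simp
    rw [hSa, inner_add_right, Complex.add_re]
    apply add_nonneg
    · rw [← hJs]
      have h := h0 (J x) (Z 0 x) (hJ x) (hJZ 0 ht x)
      rw [hA00]
      apply h
      have := hQ 0 ht x
      rwa [hA00] at this
    · have e : inner ℂ x (x - J x) = inner ℂ (x - J x) (x - J x) := by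
        have := hort x x
        conv_lhs => rw [← add_sub_cancel (J x) x]
        rw [inner_add_left]
        rw [add_sub_cancel]
        rw [this, zero_add]
      rw [e]
      exact inner_self_nonneg (𝕜 := ℂ)
  have hneg1 : (inner ℂ y1 (S 1 y1) : ℂ).re < 0 := by
    have ht : (1 : ℝ) ∈ Icc (0 : ℝ) 1 := by constructor <;> norm_num
    have hA11 : ∀ x, A 1 x = A0 x + X x := by
      intro x; rw [hAa]; simp
    rw [hSa, hy1, sub_self, add_zero, ← hJs, hy1, hA11]
    apply h1 (Z 1 y1) (hJZ 1 ht y1)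
    have := hQ 1 ht y1
    rw [hy1, hA11] at this
    exact this
  obtain ⟨t, ht, hcr⟩ := crossing S hSc hSsym hpos0 y1 hneg1
  refine ⟨t, ht, fun ε hε => ?_⟩
  obtain ⟨x, hx1, hx2⟩ := hcr (min (ε / 2) (1 / 2)) (by positivity)
  have hx3 : ‖S t x‖ < ε / 2 := hx2.trans_le (min_le_left _ _)
  have hx4 : ‖S t x‖ < 1 / 2 := hx2.trans_le (min_le_right _ _)
  have hJS : J (S t x) = A t (J x + Z t x) := by
    rw [hSa, map_add, map_sub, hJ, hJ, sub_self, add_zero]
    exact (sub_eq_zero.1 (hQ t ht x)).symm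
  have hJS2 : S t x - J (S t x) = x - J x := by
    rw [hJS, hSa' t ht, add_sub_cancel_left]
  have hp := hpyth (S t x)
  rw [hJS2, hJS] at hp
  have hpx := hpyth x
  rw [hx1] at hpx
  have ha1 : ‖A t (J x + Z t x)‖ ≤ ‖S t x‖ := by
    refine (pow_le_pow_iff_left₀ (norm_nonneg _) (norm_nonneg _) two_ne_zero).1 ?_
    nlinarith [sq_nonneg ‖x - J x‖]
  have ha2 : ‖x - J x‖ ≤ ‖S t x‖ := by
    refine (pow_le_pow_iff_left₀ (norm_nonneg _) (norm_nonneg _) two_ne_zero).1 ?_
    nlinarith [sq_nonneg ‖A t (J x + Z t x)‖]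
  have ha3 : (3 : ℝ) / 4 ≤ ‖J x‖ ^ 2 := by
    have n2 := norm_nonneg (x - J x)
    nlinarith
  -- the vector
  have hb1 : ‖J x‖ ^ 2 ≤ ‖J x + Z t x‖ ^ 2 := by
    have h := hpyth (J x + Z t x)
    rw [map_add, hJ, hJZ t ht x, add_zero] at h
    nlinarith [sq_nonneg ‖J x + Z t x - J x‖]
  have hb2 : 1 / 2 < ‖J x + Z t x‖ := by
    have n := norm_nonneg (J x + Z t x)
    nlinarith
  have hb3 : 0 < ‖J x + Z t x‖ := by linarith
  refine ⟨((‖J x + Z t x‖⁻¹ : ℝ) : ℂ) • (J x + Z t x), ?_, ?_⟩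
  · rw [norm_smul, Complex.norm_real, norm_inv, norm_norm, inv_mul_cancel₀ hb3.ne']
  · rw [← hAa, map_smul, norm_smul, Complex.norm_real, norm_inv, norm_norm, inv_mul_eq_div,
      div_lt_iff₀ hb3]
    calc ‖A t (J x + Z t x)‖ ≤ ‖S t x‖ := ha1
      _ < ε / 2 := hx3
      _ = ε * (1 / 2) := by ring
      _ < ε * ‖J x + Z t x‖ := mul_lt_mul_of_pos_left hb2 hε

end Pool.Agent.Helper34.HRV
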