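import Pool.Agent.Helper34.HRV.Defs
import Pool.Agent.Helper34.HRV.St.C1

/-! HRV piece L1 (project HRT, MP_2370de_an; hints: `/team-store/HRV_hints.md`). Replace the `sorry`s in place. -/

set_option autoImplicit false

open MeasureTheory Complex Set
open scoped ComplexConjugate Real

namespace Pool.Agent.Helper34.HRV

theorem l1_norm_exp (a : ℝ) : ‖cexp ((a : ℂ) * I)‖ = 1 := Complex.norm_exp_ofReal_mul_I a

theorem l1_norm_exp' (a : ℝ) : ‖cexp (-((a : ℂ) * I))‖ = 1 := by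
  have h : -((a : ℂ) * I) = ((-a : ℝ) : ℂ) * I := by push_cast; ring
  rw [h, l1_norm_exp]

theorem l1_exp_sub (a b : ℝ) : ‖cexp ((a : ℂ) * I) - cexp ((b : ℂ) * I)‖ ≤ |a - b| := by
  have h1 : cexp ((a : ℂ) * I) - cexp ((b : ℂ) * I) =
      cexp ((b : ℂ) * I) * (cexp (I * ((a - b : ℝ) : ℂ)) - 1) := by
    rw [mul_sub, mul_one, ← Complex.exp_add]
    congr 2
    push_cast
    ring
  rw [h1, norm_mul, l1_norm_exp, one_mul]
  exact Real.norm_exp_I_mul_ofReal_sub_one_le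

theorem l1_exp_sub' (a b : ℝ) : ‖cexp (-((a : ℂ) * I)) - cexp (-((b : ℂ) * I))‖ ≤ |a - b| := by
  have h : ∀ a : ℝ, -((a : ℂ) * I) = ((-a : ℝ) : ℂ) * I := fun a => by push_cast; ring
  rw [h, h]
  refine (l1_exp_sub _ _).trans (le_of_eq ?_)
  rw [← abs_neg]
  congr 1
  ring

/-- a kernel integral with bounded measurable kernel supported in `1/2 < |ρ - y| < 3/2` -/
theorem l1_general {A : ℝ} {φ : ℝ → ℂ} (hφ : Lin φ) {K : ℝ → ℝ → ℂ}
    (hK : Measurable (fun q : ℝ × ℝ => K q.1 q.2)) (hA : ∀ ρ y, ‖K ρ y‖ ≤ A)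
    (hs : ∀ ρ y, K ρ y ≠ 0 → 1 / 2 < |ρ - y| ∧ |ρ - y| < 3 / 2) :
    Measurable (fun ρ => ∫ y, K ρ y * φ y) ∧ (∀ ρ, ‖∫ y, K ρ y * φ y‖ ≤ A * ∫ y, ‖φ y‖) ∧
    (∀ ρ, (∫ y, K ρ y * φ y) ≠ 0 → 9 / 20 < |ρ| ∧ |ρ| < 31 / 20) ∧
    (∀ ρ, Integrable (fun y => K ρ y * φ y)) := by
  have hint : ∀ ρ, Integrable (fun y => K ρ y * φ y) := by
    intro ρ
    refine hφ.int.bdd_mul (c := A) ?_ (Filter.Eventually.of_forall fun y => hA ρ y)
    exact (hK.comp (measurable_const.prodMk measurable_id)).aestronglyMeasurable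
  refine ⟨?_, ?_, ?_, hint⟩
  · have h1 : StronglyMeasurable (fun q : ℝ × ℝ => K q.1 q.2 * φ q.2) :=
      (hK.mul (hφ.meas.comp measurable_snd)).stronglyMeasurable
    exact (h1.integral_prod_right' (ν := volume)).measurable
  · intro ρ
    refine (norm_integral_le_integral_norm _).trans ?_
    rw [← integral_const_mul]
    refine integral_mono (hint ρ).norm (hφ.int.norm.const_mul A) fun y => ?_
    simp only [norm_mul]
    exact mul_le_mul_of_nonneg_right (hA ρ y) (norm_nonneg _)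
  · intro ρ hρ
    have h1 : ∃ y, K ρ y * φ y ≠ 0 := by
      by_contra hcon
      push Not at hcon
      apply hρ
      simp [hcon]
    obtain ⟨y, hy⟩ := h1
    have h2 := hs ρ y (left_ne_zero_of_mul hy)
    have h3 := hφ.supp y (right_ne_zero_of_mul hy)
    constructor
    · have := abs_sub_abs_le_abs_sub (ρ - y) (-y)
      have h4 := abs_sub ρ y
      have h5 : |ρ - y| ≤ |ρ| + |y| := by
        simpa [sub_eq_add_neg] using abs_add_le ρ (-y)
      linarith [h2.1]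
    · have h5 : |ρ| ≤ |ρ - y| + |y| := by
        simpa using abs_add_le (ρ - y) y
      linarith [h2.2]

/-- L1. Size, support and convolution form of `X_0 φ`. -/
theorem Xl_facts {M p : ℝ} {k φ : ℝ → ℂ} (hk : Ker M k) (hφ : Lin φ) :
    Measurable (Xl k p φ) ∧ (∀ ρ, ‖Xl k p φ ρ‖ ≤ 2 * M * ∫ y, ‖φ y‖) ∧
    (∀ ρ, Xl k p φ ρ ≠ 0 → 9 / 20 < |ρ| ∧ |ρ| < 31 / 20) ∧
    (∀ ρ, ‖∫ y, Xk k p (ρ - y) * φ y‖ ≤ 2 * M * ∫ y, ‖φ y‖) ∧
    (∀ ρ, (∫ y, Xk k p (ρ - y) * φ y) ≠ 0 → 9 / 20 < |ρ| ∧ |ρ| < 31 / 20) ∧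
    Measurable (fun ρ => ∫ y, Xk k p (ρ - y) * φ y) ∧
    (∀ ρ, ‖Xl k p φ ρ - ∫ y, Xk k p (ρ - y) * φ y‖ ≤ 2 * M * ∫ y, |y| * ‖φ y‖) := by
  obtain ⟨-, -, hc01, -, -, hcc⟩ := cc_facts
  have hkm := hk.meas
  have hccm : Measurable cc := hcc.measurable
  -- the first kernel
  set K1 : ℝ → ℝ → ℂ := fun ρ y =>
    k (ρ - y) * cexp (((cc (ρ - y) * (p + (ρ + y) / 2) : ℝ) : ℂ) * I) +
    conj (k (y - ρ)) * cexp (-(((cc (ρ - y) * (p + (ρ + y) / 2) : ℝ) : ℂ) * I)) with hK1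
  set K2 : ℝ → ℝ → ℂ := fun ρ y => Xk k p (ρ - y) with hK2
  have m1 : Measurable (fun q : ℝ × ℝ => K1 q.1 q.2) := by
    rw [hK1]
    fun_prop
  have m2 : Measurable (fun q : ℝ × ℝ => K2 q.1 q.2) := by
    rw [hK2]
    unfold Xk
    fun_prop
  have b1 : ∀ ρ y, ‖K1 ρ y‖ ≤ 2 * M := by
    intro ρ y
    rw [hK1]
    refine (norm_add_le _ _).trans ?_
    rw [norm_mul, norm_mul, l1_norm_exp, l1_norm_exp', RCLike.norm_conj, mul_one, mul_one]
    linarith [hk.bd (ρ - y), hk.bd (y - ρ)]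
  have b2 : ∀ ρ y, ‖K2 ρ y‖ ≤ 2 * M := by
    intro ρ y
    rw [hK2]
    simp only [Xk]
    refine (norm_add_le _ _).trans ?_
    rw [norm_mul, norm_mul, l1_norm_exp, l1_norm_exp', RCLike.norm_conj, mul_one, mul_one]
    linarith [hk.bd (ρ - y), hk.bd (-(ρ - y))]
  have hsupp : ∀ ρ y : ℝ, (k (ρ - y) ≠ 0 ∨ k (y - ρ) ≠ 0) → 1 / 2 < |ρ - y| ∧ |ρ - y| < 3 / 2 := by
    intro ρ y h
    rcases h with h | h
    · exact hk.supp _ h
    · rw [abs_sub_comm]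
      exact hk.supp _ h
  have s1 : ∀ ρ y, K1 ρ y ≠ 0 → 1 / 2 < |ρ - y| ∧ |ρ - y| < 3 / 2 := by
    intro ρ y h
    apply hsupp
    by_contra hcon
    push Not at hcon
    apply h
    rw [hK1]
    simp [hcon.1, hcon.2]
  have s2 : ∀ ρ y, K2 ρ y ≠ 0 → 1 / 2 < |ρ - y| ∧ |ρ - y| < 3 / 2 := by
    intro ρ y h
    apply hsupp
    by_contra hcon
    push Not at hcon
    apply h
    rw [hK2]
    simp [Xk, hcon.1, hcon.2]
  obtain ⟨g1, g2, g3, g4⟩ := l1_general hφ m1 b1 s1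
  obtain ⟨f1, f2, f3, f4⟩ := l1_general hφ m2 b2 s2
  refine ⟨g1, g2, g3, f2, f3, f1, ?_⟩
  intro ρ
  have hdiff : ∀ y, ‖K1 ρ y - K2 ρ y‖ ≤ 2 * M * |y| := by
    intro y
    have e1 : K1 ρ y - K2 ρ y =
        k (ρ - y) * (cexp (((cc (ρ - y) * (p + (ρ + y) / 2) : ℝ) : ℂ) * I) -
          cexp (((cc (ρ - y) * (p + (ρ - y) / 2) : ℝ) : ℂ) * I)) +
        conj (k (y - ρ)) * (cexp (-(((cc (ρ - y) * (p + (ρ + y) / 2) : ℝ) : ℂ) * I)) -
          cexp (-(((cc (ρ - y) * (p + (ρ - y) / 2) : ℝ) : ℂ) * I))) := by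
      rw [hK1, hK2]
      simp only [Xk, neg_sub]
      ring
    have e2 : |cc (ρ - y) * (p + (ρ + y) / 2) - cc (ρ - y) * (p + (ρ - y) / 2)| ≤ |y| := by
      have : cc (ρ - y) * (p + (ρ + y) / 2) - cc (ρ - y) * (p + (ρ - y) / 2) = cc (ρ - y) * y := by
        ring
      rw [this, abs_mul, abs_of_nonneg (hc01 _).1]
      exact mul_le_of_le_one_left (abs_nonneg _) (hc01 _).2
    have e3 := (l1_exp_sub (cc (ρ - y) * (p + (ρ + y) / 2))
      (cc (ρ - y) * (p + (ρ - y) / 2))).trans e2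
    have e4 := (l1_exp_sub' (cc (ρ - y) * (p + (ρ + y) / 2))
      (cc (ρ - y) * (p + (ρ - y) / 2))).trans e2
    rw [e1]
    refine (norm_add_le _ _).trans ?_
    rw [norm_mul, norm_mul, RCLike.norm_conj]
    have h1 := mul_le_mul (hk.bd (ρ - y)) e3 (norm_nonneg _)
      ((norm_nonneg _).trans (hk.bd (ρ - y)))
    have h2 := mul_le_mul (hk.bd (y - ρ)) e4 (norm_nonneg _)
      ((norm_nonneg _).trans (hk.bd (y - ρ)))
    linarith
  have hyint : Integrable (fun y : ℝ => |y| * ‖φ y‖) := by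
    refine (hφ.int.norm.const_mul (1 / 20)).mono'
      ((measurable_id.abs.mul hφ.meas.norm).aestronglyMeasurable) ?_
    refine Filter.Eventually.of_forall fun y => ?_
    rw [norm_mul, norm_norm, Real.norm_eq_abs, abs_abs]
    by_cases hy : φ y = 0
    · simp [hy]
    · exact mul_le_mul_of_nonneg_right (hφ.supp y hy).le (norm_nonneg _)
  have e5 : Xl k p φ ρ - ∫ y, Xk k p (ρ - y) * φ y = ∫ y, (K1 ρ y - K2 ρ y) * φ y := by
    have e6 : Xl k p φ ρ = ∫ y, K1 ρ y * φ y := rfl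
    have e7 : (∫ y, Xk k p (ρ - y) * φ y) = ∫ y, K2 ρ y * φ y := rfl
    rw [e6, e7, ← integral_sub (g4 ρ) (f4 ρ)]
    refine integral_congr_ae (Filter.Eventually.of_forall fun y => ?_)
    simp only [sub_mul]
  rw [e5]
  refine (norm_integral_le_integral_norm _).trans ?_
  rw [← integral_const_mul]
  refine integral_mono_of_nonneg (Filter.Eventually.of_forall fun y => norm_nonneg _)
    (hyint.const_mul (2 * M)) (Filter.Eventually.of_forall fun y => ?_)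
  simp only [norm_mul]
  rw [← mul_assoc]
  exact mul_le_mul_of_nonneg_right (hdiff y) (norm_nonneg _)

end Pool.Agent.Helper34.HRV
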