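import Pool.Agent.Helper34.HRV.Defs
import Pool.Agent.Helper34.HRV.St.C1

/-! HRV piece L2 (project HRT, MP_2370de_an; hints: `/team-store/HRV_hints.md`). Replace the `sorry`s in place. -/

set_option autoImplicit false

open MeasureTheory Complex Set
open scoped ComplexConjugate Real

namespace Pool.Agent.Helper34.HRV

lemma L2_alg (A B A' B' : ℂ) (t t' : ℝ) :
    (A * cexp ((t : ℂ) * I) + conj B * cexp (-((t : ℂ) * I))) *
        conj (A' * cexp ((t' : ℂ) * I) + conj B' * cexp (-((t' : ℂ) * I))) -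
      (B' * cexp (-((t' : ℂ) * I)) + conj A' * cexp ((t' : ℂ) * I)) *
        conj (B * cexp (-((t : ℂ) * I)) + conj A * cexp ((t : ℂ) * I)) -
      2 * I * (Real.sin (t + t') : ℂ) * (A * B' - conj (B * A')) =
    2 * I * (Real.sin (t - t') : ℂ) * (A * conj A' - conj B * B') := by
  have c1 : conj (cexp ((t' : ℂ) * I)) = cexp (-((t' : ℂ) * I)) := by
    rw [← Complex.exp_conj]; simp
  have c2 : conj (cexp (-((t' : ℂ) * I))) = cexp ((t' : ℂ) * I) := by
    rw [← Complex.exp_conj]; simp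
  have c3 : conj (cexp ((t : ℂ) * I)) = cexp (-((t : ℂ) * I)) := by
    rw [← Complex.exp_conj]; simp
  have c4 : conj (cexp (-((t : ℂ) * I))) = cexp ((t : ℂ) * I) := by
    rw [← Complex.exp_conj]; simp
  have s1 : 2 * I * (Real.sin (t + t') : ℂ) =
      cexp ((t : ℂ) * I) * cexp ((t' : ℂ) * I) - cexp (-((t : ℂ) * I)) * cexp (-((t' : ℂ) * I)) := by
    rw [← Complex.exp_add, ← Complex.exp_add, Complex.ofReal_sin, Complex.sin]
    push_cast
    have e1 : -((t : ℂ) + t') * I = -((t : ℂ) * I) + -((t' : ℂ) * I) := by ring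
    have e2 : ((t : ℂ) + t') * I = (t : ℂ) * I + (t' : ℂ) * I := by ring
    rw [e2, e1]
    linear_combination (cexp (-((t : ℂ) * I) + -((t' : ℂ) * I)) - cexp ((t : ℂ) * I + (t' : ℂ) * I)) * Complex.I_mul_I
  have s2 : 2 * I * (Real.sin (t - t') : ℂ) =
      cexp ((t : ℂ) * I) * cexp (-((t' : ℂ) * I)) - cexp (-((t : ℂ) * I)) * cexp ((t' : ℂ) * I) := by
    rw [← Complex.exp_add, ← Complex.exp_add, Complex.ofReal_sin, Complex.sin]
    push_cast
    have e1 : -((t : ℂ) - t') * I = -((t : ℂ) * I) + ((t' : ℂ) * I) := by ring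
    have e2 : ((t : ℂ) - t') * I = (t : ℂ) * I + -((t' : ℂ) * I) := by ring
    rw [e2, e1]
    linear_combination (cexp (-((t : ℂ) * I) + ((t' : ℂ) * I)) - cexp ((t : ℂ) * I + -((t' : ℂ) * I))) * Complex.I_mul_I
  rw [s1, s2]
  simp only [map_add, map_mul, c1, c2, c3, c4, Complex.conj_conj]
  ring

/-- L2. The pointwise identity. -/
theorem Xk_identity {M p : ℝ} {k : ℝ → ℂ} (hk : Ker M k) (v v' : ℝ) :
    ‖Xk k p v * conj (Xk k p v') - Xk k p (-v') * conj (Xk k p (-v)) -
      2 * I * (Real.sin ((cc v * v + cc v' * v') / 2) : ℂ) *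
        (xx k p v * xx k p (-v') - conj (xx k p (-v) * xx k p v'))‖ ≤ 8 * M ^ 2 * |v - v'| := by
  have hM : 0 ≤ M := (norm_nonneg _).trans (hk.bd 0)
  obtain ⟨-, hccneg, -, -, hlip, -⟩ := cc_facts
  have hX : ∀ u : ℝ, Xk k p u = xx k p u * cexp (((cc u * u / 2 : ℝ) : ℂ) * I) +
      conj (xx k p (-u)) * cexp (-(((cc u * u / 2 : ℝ) : ℂ) * I)) := by
    intro u
    unfold Xk xx
    rw [hccneg u, map_mul, ← Complex.exp_conj, mul_assoc, mul_assoc, ← Complex.exp_add,
      ← Complex.exp_add]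
    have e1 : (((cc u * (p + u / 2) : ℝ) : ℂ) * I) =
        (((cc u * p : ℝ) : ℂ) * I) + (((cc u * u / 2 : ℝ) : ℂ) * I) := by push_cast; ring
    have e2 : -(((cc u * (p + u / 2) : ℝ) : ℂ) * I) =
        conj (((cc u * p : ℝ) : ℂ) * I) + -(((cc u * u / 2 : ℝ) : ℂ) * I) := by
      rw [map_mul, Complex.conj_ofReal, Complex.conj_I]; push_cast; ring
    rw [e2, e1]
  have hXn : ∀ u : ℝ, Xk k p (-u) = xx k p (-u) * cexp (-(((cc u * u / 2 : ℝ) : ℂ) * I)) +
      conj (xx k p u) * cexp (((cc u * u / 2 : ℝ) : ℂ) * I) := by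
    intro u
    rw [hX (-u), neg_neg, hccneg u]
    have e1 : (((cc u * -u / 2 : ℝ) : ℂ) * I) = -(((cc u * u / 2 : ℝ) : ℂ) * I) := by
      push_cast; ring
    rw [e1, neg_neg]
  have hs : (cc v * v + cc v' * v') / 2 = cc v * v / 2 + cc v' * v' / 2 := by ring
  rw [hX v, hX v', hXn v', hXn v, hs]
  have key := L2_alg (xx k p v) (xx k p (-v)) (xx k p v') (xx k p (-v')) (cc v * v / 2)
    (cc v' * v' / 2)
  rw [key]
  have hxx : ∀ u : ℝ, ‖xx k p u‖ ≤ M := by
    intro u
    unfold xx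
    rw [norm_mul, Complex.norm_exp_ofReal_mul_I, mul_one]
    exact hk.bd u
  have hsupp : ∀ u : ℝ, xx k p u ≠ 0 → |u| < 3 / 2 := by
    intro u hu
    apply (hk.supp u _).2
    intro h0
    apply hu
    unfold xx
    rw [h0, zero_mul]
  by_cases h0 : xx k p v * conj (xx k p v') = 0 ∧ conj (xx k p (-v)) * xx k p (-v') = 0
  · rw [h0.1, h0.2, sub_zero, mul_zero, norm_zero]
    positivity
  · have hv : |v| < 3 / 2 ∧ |v'| < 3 / 2 := by
      rw [not_and_or] at h0
      rcases h0 with h0 | h0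
      · have h1 := mul_ne_zero_iff.1 h0
        exact ⟨hsupp v h1.1, hsupp v' (fun h => h1.2 (by rw [h, map_zero]))⟩
      · have h1 := mul_ne_zero_iff.1 h0
        have h2 := hsupp (-v) (fun h => h1.1 (by rw [h, map_zero]))
        have h3 := hsupp (-v') h1.2
        rw [abs_neg] at h2 h3
        exact ⟨h2, h3⟩
    have hl := hlip v v' (by linarith [hv.1]) (by linarith [hv.2])
    have hsin : |Real.sin (cc v * v / 2 - cc v' * v' / 2)| ≤ |v - v'| := by
      refine (Real.abs_sin_le_abs).trans ?_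
      have e : cc v * v / 2 - cc v' * v' / 2 = (v * cc v - v' * cc v') / 2 := by ring
      rw [e, abs_div, abs_of_pos (by norm_num : (0 : ℝ) < 2)]
      linarith
    have hnorm : ‖xx k p v * conj (xx k p v') - conj (xx k p (-v)) * xx k p (-v')‖ ≤
        M ^ 2 + M ^ 2 := by
      refine (norm_sub_le _ _).trans (add_le_add ?_ ?_)
      · rw [norm_mul, RCLike.norm_conj, sq]
        exact mul_le_mul (hxx _) (hxx _) (norm_nonneg _) hM
      · rw [norm_mul, RCLike.norm_conj, sq]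
        exact mul_le_mul (hxx _) (hxx _) (norm_nonneg _) hM
    rw [norm_mul, norm_mul, norm_mul, Complex.norm_I, Complex.norm_real, Real.norm_eq_abs]
    norm_num
    calc 2 * |Real.sin (cc v * v / 2 - cc v' * v' / 2)| *
          ‖xx k p v * conj (xx k p v') - conj (xx k p (-v)) * xx k p (-v')‖
        ≤ 2 * |v - v'| * (M ^ 2 + M ^ 2) := by
          apply mul_le_mul _ hnorm (norm_nonneg _) (by positivity)
          linarith
      _ ≤ 8 * M ^ 2 * |v - v'| := by nlinarith [mul_nonneg (sq_nonneg M) (abs_nonneg (v - v'))]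

end Pool.Agent.Helper34.HRV
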