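import Pool.Agent.Helper34.HRV.Defs
import Pool.Agent.Helper34.HRV.St.C1
import Pool.Agent.Helper34.HRV.St.L2

/-! HRV piece L3 (project HRT, MP_2370de_an; hints: `/team-store/HRV_hints.md`). Replace the `sorry`s in place. -/

set_option autoImplicit false

open MeasureTheory Complex Set
open scoped ComplexConjugate Real

namespace Pool.Agent.Helper34.HRV

private theorem l3_sin (x : ℝ) (h1 : 7 / 20 ≤ x) (h2 : x ≤ 33 / 20) : 1 / 5 ≤ Real.sin x := by
  have hp1 := Real.pi_gt_d2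
  have hp2 := Real.pi_lt_d2
  have key : ∀ u : ℝ, 7 / 20 ≤ u → u ≤ π / 2 → 1 / 5 ≤ Real.sin u := by
    intro u hu1 hu2
    refine le_trans ?_ (Real.mul_le_sin (by linarith) hu2)
    rw [div_mul_eq_mul_div, le_div_iff₀ Real.pi_pos]
    linarith
  by_cases h : x ≤ π / 2
  · exact key x h1 h
  · rw [← Real.sin_pi_sub]
    exact key _ (by linarith) (by linarith)

private theorem l3_exp_norm (r : ℝ) : ‖cexp (((r : ℝ) : ℂ) * I)‖ = 1 := Complex.norm_exp_ofReal_mul_I r

private theorem l3_exp_norm' (r : ℝ) : ‖cexp (-(((r : ℝ) : ℂ) * I))‖ = 1 := by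
  rw [← neg_mul, ← Complex.ofReal_neg]; exact Complex.norm_exp_ofReal_mul_I _

private theorem l3_Xk_norm {M p : ℝ} {k : ℝ → ℂ} (hk : Ker M k) (u : ℝ) : ‖Xk k p u‖ ≤ 2 * M := by
  unfold Xk
  refine (norm_add_le _ _).trans ?_
  rw [norm_mul, norm_mul, l3_exp_norm, l3_exp_norm', Complex.norm_conj]
  linarith [hk.bd u, hk.bd (-u)]

private theorem l3_xx_norm {M p : ℝ} {k : ℝ → ℂ} (hk : Ker M k) (u : ℝ) : ‖xx k p u‖ ≤ M := by
  unfold xx
  rw [norm_mul, l3_exp_norm, mul_one]
  exact hk.bd u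

private theorem l3_Xk_supp {M p : ℝ} {k : ℝ → ℂ} (hk : Ker M k) (u : ℝ) (h : Xk k p u ≠ 0) :
    1 / 2 < |u| ∧ |u| < 3 / 2 := by
  by_contra hc
  apply h
  have h1 : k u = 0 := by
    by_contra h2; exact hc (hk.supp u h2)
  have h2 : k (-u) = 0 := by
    by_contra h2
    have := hk.supp (-u) h2
    rw [abs_neg] at this
    exact hc this
  simp [Xk, h1, h2]

private theorem l3_abs (y ρ : ℝ) (hy : |y| < 1 / 20) (h : 1 / 2 < |ρ - y| ∧ |ρ - y| < 3 / 2) :
    9 / 20 < |ρ| ∧ |ρ| < 31 / 20 := by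
  have h1 : |ρ - y| ≤ |ρ| + |y| := abs_sub _ _
  have h2 : |ρ| ≤ |ρ - y| + |y| := by
    have := abs_add_le (ρ - y) y
    rwa [sub_add_cancel] at this
  constructor <;> linarith [h.1, h.2]

private theorem l3_Xk_meas {M p : ℝ} {k : ℝ → ℂ} (hk : Ker M k) : Measurable (Xk k p) := by
  have hc : Measurable cc := cc_facts.2.2.2.2.2.measurable
  have hkm := hk.meas
  have hk2 : Measurable fun u : ℝ => k (-u) := hkm.comp measurable_neg
  unfold Xk
  refine (hkm.mul ?_).add ((Complex.continuous_conj.measurable.comp hk2).mul ?_)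
  · refine Complex.measurable_exp.comp ?_
    refine (Complex.measurable_ofReal.comp ?_).mul measurable_const
    exact hc.mul (measurable_const.add (measurable_id.div_const _))
  · refine Complex.measurable_exp.comp (Measurable.neg ?_)
    refine (Complex.measurable_ofReal.comp ?_).mul measurable_const
    exact hc.mul (measurable_const.add (measurable_id.div_const _))

private theorem l3_wt_meas : Measurable wt := by
  have hc : Measurable cc := cc_facts.2.2.2.2.2.measurable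
  unfold wt
  exact (Real.measurable_sin.comp (measurable_id.mul hc)).div Real.measurable_sin

private theorem l3_Ps {M p : ℝ} {k : ℝ → ℂ} (hk : Ker M k) (y y' : ℝ) (hy : |y| < 1 / 20) :
    IntegrableOn (fun ρ : ℝ => (wt ρ : ℂ) * (xx k p (ρ - y) * xx k p (-(ρ - y'))))
      (Ioo (9 / 20 : ℝ) (31 / 20)) ∧
    Ps k p y y' = ∫ ρ in Ioo (9 / 20 : ℝ) (31 / 20),
      (wt ρ : ℂ) * (xx k p (ρ - y) * xx k p (-(ρ - y'))) := by
  have hc : Measurable cc := cc_facts.2.2.2.2.2.measurable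
  have hkm := hk.meas
  have hxm : Measurable (xx k p) := by
    unfold xx
    refine hkm.mul (Complex.measurable_exp.comp ?_)
    exact (Complex.measurable_ofReal.comp (hc.mul measurable_const)).mul measurable_const
  have hM : 0 ≤ M := (norm_nonneg _).trans (hk.bd 0)
  constructor
  · refine Measure.integrableOn_of_bounded (M := 5 * (M * M)) (by simp) ?_ ?_
    · refine Measurable.aestronglyMeasurable ?_
      refine (Complex.measurable_ofReal.comp l3_wt_meas).mul ?_
      refine (hxm.comp (measurable_id.sub_const _)).mul (hxm.comp ?_)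
      exact (measurable_id.sub_const _).neg
    · rw [ae_restrict_iff' measurableSet_Ioo]
      refine Filter.Eventually.of_forall fun ρ hρ => ?_
      rw [norm_mul, norm_mul]
      have h1 : ‖(wt ρ : ℂ)‖ ≤ 5 := by
        rw [Complex.norm_real, wt, norm_div]
        have h2 := l3_sin ρ (by linarith [hρ.1]) (by linarith [hρ.2])
        rw [Real.norm_eq_abs, Real.norm_eq_abs, abs_of_pos (by linarith : 0 < Real.sin ρ),
          div_le_iff₀ (by linarith)]
        have := Real.abs_sin_le_one (ρ * cc ρ)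
        linarith
      exact mul_le_mul h1 (mul_le_mul (l3_xx_norm hk _) (l3_xx_norm hk _) (norm_nonneg _) hM)
        (by positivity) (by norm_num)
  · unfold Ps
    have e : ∀ ρ : ℝ, (wt ρ : ℂ) * (k (ρ - y) * k (y' - ρ)) * cexp (((th y y' ρ * p : ℝ) : ℂ) * I) =
        (wt ρ : ℂ) * (xx k p (ρ - y) * xx k p (-(ρ - y'))) := by
      intro ρ
      unfold xx th
      rw [neg_sub, show cc (y' - ρ) = cc (ρ - y') by rw [← cc_facts.2.1 (ρ - y'), neg_sub]]
      have : cexp (((((cc (ρ - y) + cc (ρ - y')) * p : ℝ)) : ℂ) * I) =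
          cexp (((cc (ρ - y) * p : ℝ) : ℂ) * I) * cexp (((cc (ρ - y') * p : ℝ) : ℂ) * I) := by
        rw [← Complex.exp_add]; congr 1; push_cast; ring
      rw [this]; ring
    simp_rw [e]
    refine setIntegral_eq_of_subset_of_forall_sdiff_eq_zero (s := Ioo (9 / 20 : ℝ) (31 / 20))
      (t := Ioo (0 : ℝ) 2) measurableSet_Ioo (Ioo_subset_Ioo (by norm_num) (by norm_num)) ?_
    intro ρ hρ
    have hx : xx k p (ρ - y) = 0 := by
      unfold xx
      have : k (ρ - y) = 0 := by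
        by_contra h2
        have h3 := l3_abs y ρ hy (hk.supp _ h2)
        have h4 : |ρ| = ρ := abs_of_pos hρ.1.1
        rw [h4] at h3
        exact hρ.2 ⟨h3.1, h3.2⟩
      rw [this, zero_mul]
    rw [hx, zero_mul, mul_zero]

/-- L3. The kernel for fixed `y, y'`. -/
theorem Phi_near : ∃ C : ℝ, 0 < C ∧ ∀ (M p : ℝ) (k : ℝ → ℂ), Ker M k → ∀ y y' : ℝ,
    |y| < 1 / 20 → |y'| < 1 / 20 →
    ‖(∫ ρ, ((2 * Real.sin ρ)⁻¹ : ℂ) * (Xk k p (ρ - y) * conj (Xk k p (ρ - y')))) -
      I * (Ps k p y y' - conj (Ps k p y' y))‖ ≤ C * M ^ 2 * (|y| + |y'|) := by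
  refine ⟨88, by norm_num, ?_⟩
  intro M p k hk y y' hy hy'
  have hM : 0 ≤ M := (norm_nonneg _).trans (hk.bd 0)
  have hy1 := abs_lt.1 hy
  have hy2 := abs_lt.1 hy'
  set K : Set ℝ := Ioo (9 / 20) (31 / 20) with hK
  set K' : Set ℝ := Ioo (-(31 / 20)) (-(9 / 20)) with hK'
  set h : ℝ → ℂ := fun ρ => ((2 * Real.sin ρ)⁻¹ : ℂ) * (Xk k p (ρ - y) * conj (Xk k p (ρ - y')))
    with hh
  have hXm : Measurable (Xk k p) := l3_Xk_meas hk
  have hhm : Measurable h := by
    have h1 : Measurable fun ρ : ℝ => ((2 * Real.sin ρ)⁻¹ : ℂ) :=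
      ((measurable_const.mul (Complex.measurable_ofReal.comp Real.measurable_sin))).inv
    exact h1.mul ((hXm.comp (measurable_id.sub_const _)).mul
      (Complex.continuous_conj.measurable.comp (hXm.comp (measurable_id.sub_const _))))
  have hsupp : ∀ ρ, h ρ ≠ 0 → (1 / 2 < |ρ - y| ∧ |ρ - y| < 3 / 2) ∧
      (1 / 2 < |ρ - y'| ∧ |ρ - y'| < 3 / 2) := by
    intro ρ hρ
    have h1 : Xk k p (ρ - y) ≠ 0 := by
      intro h2; apply hρ; simp [hh, h2]
    have h2 : Xk k p (ρ - y') ≠ 0 := by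
      intro h2; apply hρ; simp [hh, h2]
    exact ⟨l3_Xk_supp hk _ h1, l3_Xk_supp hk _ h2⟩
  have hsK : ∀ ρ, h ρ ≠ 0 → ρ ∈ K ∪ K' := by
    intro ρ hρ
    obtain ⟨a1, a2⟩ := l3_abs y ρ hy (hsupp ρ hρ).1
    rcases le_total 0 ρ with h0 | h0
    · left; rw [abs_of_nonneg h0] at a1 a2; exact ⟨a1, a2⟩
    · right; rw [abs_of_nonpos h0] at a1 a2; exact ⟨by linarith, by linarith⟩
  have hsin : ∀ ρ : ℝ, 7 / 20 ≤ |ρ| → |ρ| ≤ 33 / 20 → ‖((2 * Real.sin ρ)⁻¹ : ℂ)‖ ≤ 5 / 2 := by
    intro ρ h1 h2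
    have h3 : 1 / 5 ≤ |Real.sin ρ| := by
      rcases le_total 0 ρ with h0 | h0
      · rw [abs_of_nonneg h0] at h1 h2
        exact (l3_sin ρ h1 h2).trans (le_abs_self _)
      · rw [abs_of_nonpos h0] at h1 h2
        have := l3_sin (-ρ) h1 h2
        rw [Real.sin_neg] at this
        exact this.trans (neg_le_abs _)
    rw [norm_inv, norm_mul, Complex.norm_real, Real.norm_eq_abs]
    have : ‖(2 : ℂ)‖ = 2 := by simp
    rw [this]
    rw [inv_le_comm₀ (by positivity) (by norm_num)]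
    linarith
  have hbd : ∀ ρ : ℝ, 7 / 20 ≤ |ρ| → |ρ| ≤ 33 / 20 → ‖h ρ‖ ≤ 5 / 2 * (2 * M * (2 * M)) := by
    intro ρ h1 h2
    simp only [hh]
    rw [norm_mul, norm_mul, Complex.norm_conj]
    exact mul_le_mul (hsin ρ h1 h2) (mul_le_mul (l3_Xk_norm hk _) (l3_Xk_norm hk _)
      (norm_nonneg _) (by positivity)) (by positivity) (by norm_num)
  have hiK : IntegrableOn h K := by
    refine Measure.integrableOn_of_bounded (M := 5 / 2 * (2 * M * (2 * M))) (by simp [hK])
      hhm.aestronglyMeasurable ?_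
    rw [ae_restrict_iff' measurableSet_Ioo]
    refine Filter.Eventually.of_forall fun ρ hρ => ?_
    have : |ρ| = ρ := abs_of_pos (by linarith [hρ.1])
    exact hbd ρ (by rw [this]; linarith [hρ.1]) (by rw [this]; linarith [hρ.2])
  have hiK' : IntegrableOn h K' := by
    refine Measure.integrableOn_of_bounded (M := 5 / 2 * (2 * M * (2 * M))) (by simp [hK'])
      hhm.aestronglyMeasurable ?_
    rw [ae_restrict_iff' measurableSet_Ioo]
    refine Filter.Eventually.of_forall fun ρ hρ => ?_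
    have : |ρ| = -ρ := abs_of_neg (by linarith [hρ.2])
    exact hbd ρ (by rw [this]; linarith [hρ.2]) (by rw [this]; linarith [hρ.1])
  have hiR : IntegrableOn (fun ρ => h (y + y' - ρ)) K := by
    refine Measure.integrableOn_of_bounded (M := 5 / 2 * (2 * M * (2 * M))) (by simp [hK])
      (hhm.comp (measurable_const.sub measurable_id)).aestronglyMeasurable ?_
    rw [ae_restrict_iff' measurableSet_Ioo]
    refine Filter.Eventually.of_forall fun ρ hρ => ?_
    have : |y + y' - ρ| = -(y + y' - ρ) := abs_of_neg (by linarith [hρ.1])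
    exact hbd _ (by rw [this]; linarith [hρ.1]) (by rw [this]; linarith [hρ.2])
  have hdis : Disjoint K K' := by
    rw [Set.disjoint_left]
    intro x h1 h2
    linarith [h1.1, h2.2]
  have hsplit : ∫ ρ, h ρ = ∫ ρ in K, (h ρ + h (y + y' - ρ)) := by
    have s1 : ∫ ρ, h ρ = ∫ ρ in K ∪ K', h ρ := by
      refine (setIntegral_eq_integral_of_forall_compl_eq_zero ?_).symm
      intro ρ hρ
      by_contra h1
      exact hρ (hsK ρ h1)
    rw [s1, setIntegral_union hdis measurableSet_Ioo hiK hiK', integral_add hiK hiR]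
    congr 1
    rw [← integral_indicator measurableSet_Ioo, ← integral_indicator measurableSet_Ioo,
      ← integral_sub_left_eq_self (K'.indicator h) volume (y + y')]
    congr 1
    funext ρ
    by_cases h0 : h (y + y' - ρ) = 0
    · simp only [Set.indicator]
      split_ifs <;> simp [h0]
    · obtain ⟨b1, b2⟩ := hsupp _ h0
      have c1 : y + y' - ρ - y = -(ρ - y') := by ring
      rw [c1, abs_neg] at b1
      have d1 := l3_abs y' ρ hy' b1
      have d2 := l3_abs y' _ hy' b2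
      simp only [Set.indicator]
      by_cases h1 : 0 < ρ
      · have : ρ ∈ K := by
          rw [abs_of_pos h1] at d1
          exact ⟨d1.1, d1.2⟩
        rw [if_pos this, if_pos]
        have hneg : y + y' - ρ < 0 := by linarith [this.1]
        rw [abs_of_neg hneg] at d2
        exact ⟨by linarith, by linarith⟩
      · push Not at h1
        rw [abs_of_nonpos h1] at d1
        rw [if_neg, if_neg]
        · intro h2; linarith [h2.1]
        · intro h2; linarith [h2.2, d1.1]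
  obtain ⟨p1, p2⟩ := l3_Ps (p := p) hk y y' hy
  obtain ⟨q1, q2⟩ := l3_Ps (p := p) hk y' y hy'
  have q3 : conj (Ps k p y' y) = ∫ ρ in K, (wt ρ : ℂ) *
      conj (xx k p (ρ - y') * xx k p (-(ρ - y))) := by
    rw [q2, ← integral_conj]
    congr 1
    funext ρ
    rw [map_mul, Complex.conj_ofReal]
  have q4 : IntegrableOn (fun ρ : ℝ => (wt ρ : ℂ) *
      conj (xx k p (ρ - y') * xx k p (-(ρ - y)))) K := by
    have h1 : IntegrableOn (fun ρ : ℝ => conj ((wt ρ : ℂ) *
      (xx k p (ρ - y') * xx k p (-(ρ - y))))) K := by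
      exact (LinearIsometryEquiv.integrable_comp_iff (RCLike.conjLIE (K := ℂ))).2 q1
    refine h1.congr (Filter.Eventually.of_forall fun ρ => ?_)
    simp only [map_mul, Complex.conj_ofReal]
  have key : (∫ ρ, h ρ) - I * (Ps k p y y' - conj (Ps k p y' y)) =
      ∫ ρ in K, ((h ρ + h (y + y' - ρ)) - I * ((wt ρ : ℂ) * (xx k p (ρ - y) * xx k p (-(ρ - y'))) -
        (wt ρ : ℂ) * conj (xx k p (ρ - y') * xx k p (-(ρ - y))))) := by
    rw [hsplit, p2, q3, ← integral_sub p1 q4, ← integral_const_mul, ← integral_sub]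
    · exact hiK.add hiR
    · exact (p1.sub q4).const_mul _
  rw [key]
  have hpt : ∀ ρ ∈ K, ‖(h ρ + h (y + y' - ρ)) - I * ((wt ρ : ℂ) *
      (xx k p (ρ - y) * xx k p (-(ρ - y'))) -
        (wt ρ : ℂ) * conj (xx k p (ρ - y') * xx k p (-(ρ - y))))‖ ≤
      80 * M ^ 2 * (|y| + |y'|) := by
    intro ρ hρ
    set v := ρ - y with hv
    set v' := ρ - y' with hv'
    set S : ℝ := Real.sin ((cc v * v + cc v' * v') / 2) with hS
    set B : ℂ := xx k p v * xx k p (-v') - conj (xx k p (-v) * xx k p v') with hB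
    set G : ℂ := Xk k p (-v') * conj (Xk k p (-v)) with hG
    set F : ℂ := Xk k p v * conj (Xk k p v') with hF
    have hs1 : 1 / 5 ≤ Real.sin ρ := l3_sin ρ (by linarith [hρ.1]) (by linarith [hρ.2])
    have hs2 : 1 / 5 ≤ Real.sin (ρ - (y + y')) :=
      l3_sin _ (by linarith [hρ.1]) (by linarith [hρ.2])
    have hs1' : (Real.sin ρ : ℂ) ≠ 0 := by
      norm_cast; linarith
    have e1 : h ρ = ((2 * Real.sin ρ)⁻¹ : ℂ) * F := rfl
    have e2 : h (y + y' - ρ) = -((2 * Real.sin (ρ - (y + y')))⁻¹ : ℂ) * G := by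
      simp only [hh, hG]
      have a1 : y + y' - ρ - y = -v' := by rw [hv']; ring
      have a2 : y + y' - ρ - y' = -v := by rw [hv]; ring
      have a3 : y + y' - ρ = -(ρ - (y + y')) := by ring
      rw [a1, a2, a3, Real.sin_neg]
      push_cast
      rw [mul_neg, inv_neg]
    have e3 : (wt ρ : ℂ) * (xx k p v * xx k p (-v')) - (wt ρ : ℂ) *
        conj (xx k p v' * xx k p (-v)) = (wt ρ : ℂ) * B := by
      rw [hB, mul_comm (xx k p v') (xx k p (-v))]; ring
    have e4 : (wt ρ : ℂ) = (Real.sin (ρ * cc ρ) : ℂ) * (Real.sin ρ : ℂ)⁻¹ := by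
      unfold wt; push_cast; rw [div_eq_mul_inv]
    have e5 : (h ρ + h (y + y' - ρ)) - I * ((wt ρ : ℂ) * (xx k p v * xx k p (-v')) -
        (wt ρ : ℂ) * conj (xx k p v' * xx k p (-v))) =
        ((2 * Real.sin ρ)⁻¹ : ℂ) * (F - G - 2 * I * (S : ℂ) * B) +
        (((2 * Real.sin ρ)⁻¹ : ℂ) - ((2 * Real.sin (ρ - (y + y')))⁻¹ : ℂ)) * G +
        I * (Real.sin ρ : ℂ)⁻¹ * ((S : ℂ) - (Real.sin (ρ * cc ρ) : ℂ)) * B := by
      rw [e1, e2, e3, e4, mul_inv]
      ring
    rw [e5]
    have hyy : |y + y'| ≤ |y| + |y'| := abs_add_le _ _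
    have hyy' : |v - v'| ≤ |y| + |y'| := by
      have : v - v' = y' - y := by rw [hv, hv']; ring
      rw [this, add_comm]; exact abs_sub _ _
    have n1 : ‖F - G - 2 * I * (S : ℂ) * B‖ ≤ 8 * M ^ 2 * (|y| + |y'|) := by
      refine (Xk_identity hk v v').trans ?_
      exact mul_le_mul_of_nonneg_left hyy' (by positivity)
    have n2 : ‖((2 * Real.sin ρ)⁻¹ : ℂ)‖ ≤ 5 / 2 := by
      have : |ρ| = ρ := abs_of_pos (by linarith [hρ.1])
      exact hsin ρ (by rw [this]; linarith [hρ.1]) (by rw [this]; linarith [hρ.2])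
    have n3 : ‖((2 * Real.sin ρ)⁻¹ : ℂ) - ((2 * Real.sin (ρ - (y + y')))⁻¹ : ℂ)‖ ≤
        25 / 2 * (|y| + |y'|) := by
      have c1 : ((2 * Real.sin ρ)⁻¹ : ℂ) - ((2 * Real.sin (ρ - (y + y')))⁻¹ : ℂ) =
          (((2 * Real.sin ρ)⁻¹ - (2 * Real.sin (ρ - (y + y')))⁻¹ : ℝ) : ℂ) := by push_cast; ring
      rw [c1, Complex.norm_real, Real.norm_eq_abs]
      have c2 : (2 * Real.sin ρ)⁻¹ - (2 * Real.sin (ρ - (y + y')))⁻¹ =
          (Real.sin (ρ - (y + y')) - Real.sin ρ) *
            ((Real.sin ρ)⁻¹ * (Real.sin (ρ - (y + y')))⁻¹) / 2 := by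
        have d1 : Real.sin ρ ≠ 0 := by linarith
        have d2 : Real.sin (ρ - (y + y')) ≠ 0 := by linarith
        field_simp
      rw [c2, abs_div, abs_mul, abs_two]
      have c3 : |Real.sin (ρ - (y + y')) - Real.sin ρ| ≤ |y| + |y'| := by
        refine (Real.abs_sin_sub_sin_le _ _).trans ?_
        rw [sub_sub_cancel_left, abs_neg]
        exact hyy
      have c4 : |(Real.sin ρ)⁻¹ * (Real.sin (ρ - (y + y')))⁻¹| ≤ 5 * 5 := by
        rw [abs_of_nonneg (by positivity)]
        have f1 : (Real.sin ρ)⁻¹ ≤ 5 := by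
          rw [inv_le_comm₀ (by linarith) (by norm_num)]; linarith
        have f2 : (Real.sin (ρ - (y + y')))⁻¹ ≤ 5 := by
          rw [inv_le_comm₀ (by linarith) (by norm_num)]; linarith
        exact mul_le_mul f1 f2 (by positivity) (by norm_num)
      have c5 := mul_le_mul c3 c4 (abs_nonneg _) (by positivity)
      linarith
    have n4 : ‖G‖ ≤ 2 * M * (2 * M) := by
      rw [hG, norm_mul, Complex.norm_conj]
      exact mul_le_mul (l3_Xk_norm hk _) (l3_Xk_norm hk _) (norm_nonneg _) (by positivity)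
    have n5 : ‖B‖ ≤ 2 * (M * M) := by
      rw [hB]
      refine (norm_sub_le _ _).trans ?_
      rw [Complex.norm_conj, norm_mul, norm_mul]
      have g1 := mul_le_mul (l3_xx_norm (p := p) hk v) (l3_xx_norm (p := p) hk (-v'))
        (norm_nonneg _) hM
      have g2 := mul_le_mul (l3_xx_norm (p := p) hk (-v)) (l3_xx_norm (p := p) hk v')
        (norm_nonneg _) hM
      linarith
    have n6 : ‖(S : ℂ) - (Real.sin (ρ * cc ρ) : ℂ)‖ ≤ |y| + |y'| := by
      rw [← Complex.ofReal_sub, Complex.norm_real, Real.norm_eq_abs]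
      refine (Real.abs_sin_sub_sin_le _ _).trans ?_
      have hlip := cc_facts.2.2.2.2.1
      have r1 : |ρ| ≤ 8 / 5 := by
        rw [abs_of_pos (by linarith [hρ.1])]; linarith [hρ.2]
      have r2 : |v| ≤ 8 / 5 := by
        rw [abs_of_pos (by rw [hv]; linarith [hρ.1])]; rw [hv]; linarith [hρ.2]
      have r3 : |v'| ≤ 8 / 5 := by
        rw [abs_of_pos (by rw [hv']; linarith [hρ.1])]; rw [hv']; linarith [hρ.2]
      have l1 := hlip v ρ r2 r1
      have l2 := hlip v' ρ r3 r1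
      have m1 : |v - ρ| = |y| := by rw [hv, sub_sub_cancel_left, abs_neg]
      have m2 : |v' - ρ| = |y'| := by rw [hv', sub_sub_cancel_left, abs_neg]
      rw [m1] at l1
      rw [m2] at l2
      have : (cc v * v + cc v' * v') / 2 - ρ * cc ρ =
          ((v * cc v - ρ * cc ρ) + (v' * cc v' - ρ * cc ρ)) / 2 := by ring
      rw [this, abs_div, abs_two]
      have l3 := abs_add_le (v * cc v - ρ * cc ρ) (v' * cc v' - ρ * cc ρ)
      linarith
    have n7 : ‖(Real.sin ρ : ℂ)⁻¹‖ ≤ 5 := by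
      rw [norm_inv, Complex.norm_real, Real.norm_eq_abs, abs_of_pos (by linarith),
        inv_le_comm₀ (by linarith) (by norm_num)]
      linarith
    have hy0 : 0 ≤ |y| + |y'| := by positivity
    have t1 : ‖((2 * Real.sin ρ)⁻¹ : ℂ) * (F - G - 2 * I * (S : ℂ) * B)‖ ≤
        5 / 2 * (8 * M ^ 2 * (|y| + |y'|)) := by
      rw [norm_mul]; exact mul_le_mul n2 n1 (norm_nonneg _) (by norm_num)
    have t2 : ‖(((2 * Real.sin ρ)⁻¹ : ℂ) - ((2 * Real.sin (ρ - (y + y')))⁻¹ : ℂ)) * G‖ ≤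
        25 / 2 * (|y| + |y'|) * (2 * M * (2 * M)) := by
      rw [norm_mul]; exact mul_le_mul n3 n4 (norm_nonneg _) (by positivity)
    have t3 : ‖I * (Real.sin ρ : ℂ)⁻¹ * ((S : ℂ) - (Real.sin (ρ * cc ρ) : ℂ)) * B‖ ≤
        5 * (|y| + |y'|) * (2 * (M * M)) := by
      rw [norm_mul, norm_mul, norm_mul, Complex.norm_I, one_mul]
      exact mul_le_mul (mul_le_mul n7 n6 (norm_nonneg _) (by norm_num)) n5 (norm_nonneg _)
        (by positivity)
    refine (norm_add_le _ _).trans ?_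
    refine (add_le_add (norm_add_le _ _) le_rfl).trans ?_
    calc _ ≤ 5 / 2 * (8 * M ^ 2 * (|y| + |y'|)) + 25 / 2 * (|y| + |y'|) * (2 * M * (2 * M)) +
          5 * (|y| + |y'|) * (2 * (M * M)) := add_le_add (add_le_add t1 t2) t3
      _ = _ := by ring
  refine (norm_setIntegral_le_of_norm_le_const (by simp [hK]) hpt).trans (le_of_eq ?_)
  have : volume.real K = 11 / 10 := by
    rw [hK, Real.volume_real_Ioo_of_le (by norm_num)]; norm_num
  rw [this]; ring

end Pool.Agent.Helper34.HRV
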