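import Pool.Agent.Helper34.HRV.Defs
import Pool.Agent.Helper34.HRV.St.C1

/-! HRV piece L4 (project HRT, MP_2370de_an; hints: `/team-store/HRV_hints.md`). Replace the `sorry`s in place. -/

set_option autoImplicit false

open MeasureTheory Complex Set
open scoped ComplexConjugate Real

namespace Pool.Agent.Helper34.HRV

private theorem l4_sin {ρ : ℝ} (h1 : 9 / 20 ≤ |ρ|) (h2 : |ρ| ≤ 31 / 20) :
    |(2 * Real.sin ρ)⁻¹| ≤ 2 := by
  have hpi := Real.pi_gt_d2
  have hpi' := Real.pi_lt_d2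
  have h3 : 2 / π * |ρ| ≤ Real.sin |ρ| := Real.mul_le_sin (abs_nonneg _) (by linarith)
  have h4 : (1 / 4 : ℝ) ≤ 2 / π * |ρ| := by
    rw [div_mul_eq_mul_div, le_div_iff₀ Real.pi_pos]
    linarith
  have h5 : |Real.sin ρ| = Real.sin |ρ| := by
    have h7 : 0 ≤ Real.sin |ρ| := by linarith
    rcases abs_cases ρ with ⟨h, _⟩ | ⟨h, _⟩
    · rw [h] at h7 ⊢
      exact abs_of_nonneg h7
    · rw [h, Real.sin_neg] at h7 ⊢
      exact abs_of_nonpos (by linarith)
  rw [abs_inv, abs_mul, h5]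
  have h6 : (1 / 2 : ℝ) ≤ |2| * Real.sin |ρ| := by
    rw [abs_of_pos (by norm_num : (0 : ℝ) < 2)]
    linarith
  calc (|2| * Real.sin |ρ|)⁻¹ ≤ (1 / 2 : ℝ)⁻¹ := inv_anti₀ (by norm_num) h6
    _ = 2 := by norm_num

private theorem l4_Xk_meas {M p : ℝ} {k : ℝ → ℂ} (hk : Ker M k) : Measurable (Xk k p) := by
  have hc : Continuous cc := cc_facts.2.2.2.2.2
  unfold Xk
  have h1 : Measurable fun u : ℝ => k (-u) := hk.meas.comp measurable_neg
  have h2 : Measurable fun u : ℝ => conj (k (-u)) := Complex.continuous_conj.measurable.comp h1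
  have h3 : Continuous fun u : ℝ => cexp (((cc u * (p + u / 2) : ℝ) : ℂ) * I) := by fun_prop
  have h4 : Continuous fun u : ℝ => cexp (-(((cc u * (p + u / 2) : ℝ) : ℂ) * I)) := by fun_prop
  exact (hk.meas.mul h3.measurable).add (h2.mul h4.measurable)

private theorem l4_Xk_bd {M p : ℝ} {k : ℝ → ℂ} (hk : Ker M k) (u : ℝ) : ‖Xk k p u‖ ≤ 2 * M := by
  unfold Xk
  refine (norm_add_le _ _).trans ?_
  rw [norm_mul, norm_mul, RCLike.norm_conj, Complex.norm_exp_ofReal_mul_I]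
  have : cexp (-(((cc u * (p + u / 2) : ℝ) : ℂ) * I)) =
      cexp (((-(cc u * (p + u / 2)) : ℝ) : ℂ) * I) := by
    congr 1
    push_cast
    ring
  rw [this, Complex.norm_exp_ofReal_mul_I]
  have := hk.bd u
  have := hk.bd (-u)
  linarith

private theorem l4_Xk_supp {M p : ℝ} {k : ℝ → ℂ} (hk : Ker M k) (u : ℝ) (h : Xk k p u ≠ 0) :
    1 / 2 < |u| ∧ |u| < 3 / 2 := by
  by_cases h1 : k u = 0
  · by_cases h2 : k (-u) = 0
    · exfalso
      apply h
      unfold Xk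
      rw [h1, h2]
      simp
    · have := hk.supp _ h2
      rwa [abs_neg] at this
  · exact hk.supp _ h1

/-- the integrand -/
private noncomputable def l4_G (k φ : ℝ → ℂ) (p : ℝ) (q : ℝ × (ℝ × ℝ)) : ℂ :=
  (((2 * Real.sin q.1)⁻¹ : ℝ) : ℂ) * ((Xk k p (q.1 - q.2.1) * φ q.2.1) *
    conj (Xk k p (q.1 - q.2.2) * φ q.2.2))

private theorem l4_G_meas {M p : ℝ} {k φ : ℝ → ℂ} (hk : Ker M k) (hφ : Lin φ) :
    Measurable (l4_G k φ p) := by
  have hX := l4_Xk_meas (p := p) hk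
  unfold l4_G
  have m1 : Measurable fun q : ℝ × (ℝ × ℝ) => (((2 * Real.sin q.1)⁻¹ : ℝ) : ℂ) :=
    Complex.measurable_ofReal.comp (by fun_prop)
  have m2 : Measurable fun q : ℝ × (ℝ × ℝ) => Xk k p (q.1 - q.2.1) := hX.comp (by fun_prop)
  have m3 : Measurable fun q : ℝ × (ℝ × ℝ) => Xk k p (q.1 - q.2.2) := hX.comp (by fun_prop)
  have m4 : Measurable fun q : ℝ × (ℝ × ℝ) => φ q.2.1 := hφ.meas.comp (by fun_prop)
  have m5 : Measurable fun q : ℝ × (ℝ × ℝ) => φ q.2.2 := hφ.meas.comp (by fun_prop)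
  exact m1.mul ((m2.mul m4).mul (Complex.continuous_conj.measurable.comp (m3.mul m5)))

private theorem l4_G_int {M p : ℝ} {k φ : ℝ → ℂ} (hk : Ker M k) (hφ : Lin φ) :
    Integrable (l4_G k φ p) := by
  have hM : 0 ≤ M := (norm_nonneg _).trans (hk.bd 0)
  have i1 : Integrable (fun ρ : ℝ => (Icc (-(31 / 20) : ℝ) (31 / 20)).indicator
      (fun _ => (2 : ℝ)) ρ) := by
    rw [integrable_indicator_iff measurableSet_Icc]
    exact integrableOn_const (by simp)
  have i2 : Integrable (fun z : ℝ × ℝ => (2 * M * ‖φ z.1‖) * (2 * M * ‖φ z.2‖)) :=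
    (hφ.int.norm.const_mul (2 * M)).mul_prod (hφ.int.norm.const_mul (2 * M))
  have i3 := i1.mul_prod i2
  refine i3.mono' (l4_G_meas hk hφ).aestronglyMeasurable (ae_of_all _ ?_)
  rintro ⟨ρ, y, y'⟩
  unfold l4_G
  simp only
  by_cases h1 : Xk k p (ρ - y) * φ y = 0
  · rw [h1, zero_mul, mul_zero, norm_zero]
    have : 0 ≤ (Icc (-(31 / 20) : ℝ) (31 / 20)).indicator (fun _ => (2 : ℝ)) ρ :=
      indicator_nonneg (fun _ _ => by norm_num) _
    positivity
  · have h2 : Xk k p (ρ - y) ≠ 0 := left_ne_zero_of_mul h1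
    have h3 : φ y ≠ 0 := right_ne_zero_of_mul h1
    obtain ⟨a1, a2⟩ := l4_Xk_supp hk _ h2
    have a3 := hφ.supp y h3
    have a4 : 9 / 20 ≤ |ρ| := by
      have : |ρ - y| ≤ |ρ| + |y| := abs_sub _ _
      linarith
    have a5 : |ρ| ≤ 31 / 20 := by
      have : |ρ| ≤ |ρ - y| + |y| := by
        calc |ρ| = |(ρ - y) + y| := by rw [sub_add_cancel]
          _ ≤ _ := abs_add_le _ _
      linarith
    have a6 : ρ ∈ Icc (-(31 / 20) : ℝ) (31 / 20) := abs_le.1 a5
    rw [indicator_of_mem a6, norm_mul, norm_mul, norm_mul, RCLike.norm_conj, norm_mul,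
      Complex.norm_real, Real.norm_eq_abs]
    have b1 := l4_sin a4 a5
    have b2 := l4_Xk_bd (p := p) hk (ρ - y)
    have b3 := l4_Xk_bd (p := p) hk (ρ - y')
    gcongr

/-- L4. Fubini. -/
theorem conv_sq {M p : ℝ} {k φ : ℝ → ℂ} (hk : Ker M k) (hφ : Lin φ) :
    ((∫ ρ, (2 * Real.sin ρ)⁻¹ * ‖∫ y, Xk k p (ρ - y) * φ y‖ ^ 2 : ℝ) : ℂ) =
      ∫ y, ∫ y', φ y * conj (φ y') *
        ∫ ρ, ((2 * Real.sin ρ)⁻¹ : ℂ) * (Xk k p (ρ - y) * conj (Xk k p (ρ - y'))) := by
  have hint := l4_G_int (p := p) hk hφ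
  have hint' : Integrable (l4_G k φ p) ((volume : Measure ℝ).prod (volume : Measure (ℝ × ℝ))) :=
    hint
  have e1 : ((∫ ρ, (2 * Real.sin ρ)⁻¹ * ‖∫ y, Xk k p (ρ - y) * φ y‖ ^ 2 : ℝ) : ℂ) =
      ∫ ρ, ∫ z : ℝ × ℝ, l4_G k φ p (ρ, z) := by
    rw [← integral_complex_ofReal]
    refine integral_congr_ae (ae_of_all _ fun ρ => ?_)
    simp only
    unfold l4_G
    simp only
    rw [integral_const_mul]
    have := integral_prod_mul (μ := (volume : Measure ℝ)) (ν := (volume : Measure ℝ))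
      (fun y => Xk k p (ρ - y) * φ y) (fun y' => conj (Xk k p (ρ - y') * φ y'))
    rw [← Measure.volume_eq_prod] at this
    rw [this, integral_conj, Complex.mul_conj, Complex.normSq_eq_norm_sq]
    push_cast
    ring
  rw [e1, integral_integral_swap (f := fun ρ z => l4_G k φ p (ρ, z)) hint']
  have i1 := hint'.integral_prod_right
  have e2 := integral_prod (μ := (volume : Measure ℝ)) (ν := (volume : Measure ℝ))
    (fun z : ℝ × ℝ => ∫ ρ, l4_G k φ p (ρ, z)) (by rw [← Measure.volume_eq_prod]; exact i1)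
  rw [← Measure.volume_eq_prod] at e2
  rw [e2]
  refine integral_congr_ae (ae_of_all _ fun y => ?_)
  simp only
  refine integral_congr_ae (ae_of_all _ fun y' => ?_)
  simp only
  rw [← integral_const_mul]
  refine integral_congr_ae (ae_of_all _ fun ρ => ?_)
  simp only
  unfold l4_G
  simp only [map_mul]
  push_cast
  ring

end Pool.Agent.Helper34.HRV
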