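import Pool.Agent.Helper34.HRV.Defs
import Pool.Agent.Helper34.HRV.St.C1

/-! HRV piece L5 (project HRT, MP_2370de_an; hints: `/team-store/HRV_hints.md`). Replace the `sorry`s in place. -/

set_option autoImplicit false

open MeasureTheory Complex Set
open scoped ComplexConjugate Real

namespace Pool.Agent.Helper34.HRV

private theorem l5_cc_meas : Measurable cc := by
  unfold cc
  fun_prop

private theorem l5_wt_meas : Measurable wt := by
  unfold wt
  exact (Real.measurable_sin.comp (measurable_id.mul l5_cc_meas)).div Real.measurable_sin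

private theorem l5_wt_le {ρ : ℝ} (h1 : 9 / 20 < ρ) (h2 : ρ < 31 / 20) : |wt ρ| ≤ 4 := by
  have hpi := Real.pi_gt_d2
  have hpi' := Real.pi_lt_d2
  have h3 : 2 / π * ρ ≤ Real.sin ρ := Real.mul_le_sin (by linarith) (by linarith)
  have h4 : 1 / 4 ≤ 2 / π * ρ := by
    have h5 : 2 / π * ρ = 2 * ρ / π := by ring
    rw [h5, div_le_div_iff₀ (by norm_num) Real.pi_pos]
    linarith
  have h5 : 1 / 4 ≤ Real.sin ρ := h4.trans h3
  unfold wt
  rw [abs_div, abs_of_pos (show 0 < Real.sin ρ by linarith), div_le_iff₀ (by linarith)]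
  have := Real.abs_sin_le_one (ρ * cc ρ)
  linarith

/-- L5. `Ps` is bounded and jointly measurable. -/
theorem Ps_facts : ∃ C : ℝ, 0 < C ∧ ∀ (M p : ℝ) (k : ℝ → ℂ), Ker M k →
    (∀ y y' : ℝ, |y| < 1 / 20 → |y'| < 1 / 20 → ‖Ps k p y y'‖ ≤ C * M ^ 2) ∧
    Measurable (fun z : ℝ × ℝ => Ps k p z.1 z.2) := by
  refine ⟨8, by norm_num, fun M p k hk => ⟨fun y y' hy hy' => ?_, ?_⟩⟩
  · have hM : 0 ≤ M := (norm_nonneg _).trans (hk.bd 0)
    unfold Ps
    have hb : ∀ ρ ∈ Ioo (0 : ℝ) 2, ‖(wt ρ : ℂ) * (k (ρ - y) * k (y' - ρ)) *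
        cexp (((th y y' ρ * p : ℝ) : ℂ) * I)‖ ≤ 4 * M ^ 2 := by
      intro ρ hρ
      rw [norm_mul, norm_mul, norm_mul, Complex.norm_real, Real.norm_eq_abs,
        Complex.norm_exp_ofReal_mul_I, mul_one]
      by_cases h0 : k (ρ - y) = 0
      · rw [h0, norm_zero, zero_mul, mul_zero]
        positivity
      · obtain ⟨h1, h2⟩ := hk.supp _ h0
        rw [abs_lt] at hy h2
        have h3 : 1 / 2 < ρ - y := by
          rcases lt_abs.1 h1 with h | h
          · exact h
          · linarith [hρ.1]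
        have h4 := l5_wt_le (ρ := ρ) (by linarith) (by linarith)
        have h5 : ‖k (ρ - y)‖ * ‖k (y' - ρ)‖ ≤ M * M :=
          mul_le_mul (hk.bd _) (hk.bd _) (norm_nonneg _) hM
        calc |wt ρ| * (‖k (ρ - y)‖ * ‖k (y' - ρ)‖) ≤ 4 * (M * M) :=
              mul_le_mul h4 h5 (by positivity) (by norm_num)
          _ = 4 * M ^ 2 := by ring
    have h6 := norm_setIntegral_le_of_norm_le_const (μ := volume) (s := Ioo (0 : ℝ) 2)
      (by simp) hb
    refine h6.trans (le_of_eq ?_)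
    rw [Real.volume_real_Ioo_of_le (by norm_num)]
    ring
  · have hm : Measurable (fun q : (ℝ × ℝ) × ℝ => (wt q.2 : ℂ) * (k (q.2 - q.1.1) *
        k (q.1.2 - q.2)) * cexp (((th q.1.1 q.1.2 q.2 * p : ℝ) : ℂ) * I)) := by
      have m1 : Measurable fun q : (ℝ × ℝ) × ℝ => q.2 - q.1.1 := by fun_prop
      have m2 : Measurable fun q : (ℝ × ℝ) × ℝ => q.1.2 - q.2 := by fun_prop
      have m3 : Measurable fun q : (ℝ × ℝ) × ℝ => q.2 - q.1.2 := by fun_prop
      have m4 : Measurable fun q : (ℝ × ℝ) × ℝ => th q.1.1 q.1.2 q.2 := by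
        unfold th
        exact (l5_cc_meas.comp m1).add (l5_cc_meas.comp m3)
      have m5 : Measurable fun q : (ℝ × ℝ) × ℝ => (wt q.2 : ℂ) :=
        Complex.measurable_ofReal.comp (l5_wt_meas.comp measurable_snd)
      have m6 : Measurable fun q : (ℝ × ℝ) × ℝ =>
          cexp (((th q.1.1 q.1.2 q.2 * p : ℝ) : ℂ) * I) := by
        refine Complex.measurable_exp.comp ?_
        exact (Complex.measurable_ofReal.comp (m4.mul_const p)).mul_const I
      exact (m5.mul ((hk.meas.comp m1).mul (hk.meas.comp m2))).mul m6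
    have hs := hm.stronglyMeasurable.integral_prod_right' (ν := volume.restrict (Ioo (0 : ℝ) 2))
    exact hs.measurable

end Pool.Agent.Helper34.HRV
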