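import Pool.Agent.Helper34.HRV.Defs
import Pool.Agent.Helper34.HRV.St.C1
import Pool.Agent.Helper34.HRV.St.L1
import Pool.Agent.Helper34.HRV.St.L3
import Pool.Agent.Helper34.HRV.St.L4
import Pool.Agent.Helper34.HRV.St.L5

/-! HRV piece L6 (project HRT, MP_2370de_an; hints: `/team-store/HRV_hints.md`). -/

set_option autoImplicit false

open MeasureTheory Complex Set
open scoped ComplexConjugate Real

namespace Pool.Agent.Helper34.HRV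

namespace L6

theorem sin_low {t : ℝ} (h1 : 11 / 25 ≤ |t|) (h2 : |t| ≤ 39 / 25) : 2 / 5 ≤ |Real.sin t| := by
  have key : ∀ t : ℝ, 11 / 25 ≤ t → t ≤ 39 / 25 → 2 / 5 ≤ Real.sin t := by
    intro t h1 h2
    have hpi := Real.pi_gt_d2
    have h3 : Real.sin (11 / 25) ≤ Real.sin t :=
      Real.sin_le_sin_of_le_of_le_pi_div_two (by linarith) (by linarith) h1
    have h4 := Real.sin_gt_sub_cube (x := 11 / 25) (by norm_num)
    norm_num at h4 ⊢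
    linarith
  rcases abs_cases t with ⟨ht, _⟩ | ⟨ht, _⟩
  · rw [ht] at h1 h2
    exact (key t h1 h2).trans (le_abs_self _)
  · rw [ht] at h1 h2
    have := key (-t) h1 h2
    rw [Real.sin_neg] at this
    exact this.trans (neg_le_abs _)

theorem inv_low {t : ℝ} (h1 : 11 / 25 ≤ |t|) (h2 : |t| ≤ 39 / 25) :
    |(2 * Real.sin t)⁻¹| ≤ 5 / 4 := by
  have h := sin_low h1 h2
  rw [abs_inv, abs_mul, abs_two]
  rw [show (5 / 4 : ℝ) = (4 / 5)⁻¹ by norm_num]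
  exact inv_anti₀ (by norm_num) (by linarith)

theorem inv_diff {a b : ℝ} (ha : 2 / 5 ≤ |Real.sin a|) (hb : 2 / 5 ≤ |Real.sin b|) :
    |(2 * Real.sin a)⁻¹ - (2 * Real.sin b)⁻¹| ≤ 25 / 8 * |a - b| := by
  have ha0 : Real.sin a ≠ 0 := by
    intro h
    rw [h, abs_zero] at ha
    linarith
  have hb0 : Real.sin b ≠ 0 := by
    intro h
    rw [h, abs_zero] at hb
    linarith
  have e : (2 * Real.sin a)⁻¹ - (2 * Real.sin b)⁻¹ =
      (Real.sin b - Real.sin a) * (2 * (Real.sin a * Real.sin b))⁻¹ := by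
    field_simp
  have h1 : |Real.sin b - Real.sin a| ≤ |a - b| := by
    have := Real.lipschitzWith_sin.dist_le_mul b a
    rw [Real.dist_eq, Real.dist_eq, NNReal.coe_one, one_mul, abs_sub_comm b a] at this
    exact this
  have h2 : |(2 * (Real.sin a * Real.sin b))⁻¹| ≤ 25 / 8 := by
    rw [abs_inv, abs_mul, abs_mul, abs_two, show (25 / 8 : ℝ) = (8 / 25)⁻¹ by norm_num]
    refine inv_anti₀ (by norm_num) ?_
    nlinarith [mul_le_mul ha hb (by norm_num) (abs_nonneg _)]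
  rw [e, abs_mul]
  calc _ ≤ |a - b| * (25 / 8) := mul_le_mul h1 h2 (abs_nonneg _) (abs_nonneg _)
    _ = _ := by ring

theorem int_bdd {g : ℝ → ℝ} {c : ℝ} (hm : Measurable g) (hc : ∀ ρ, |g ρ| ≤ c)
    (hs : ∀ ρ, g ρ ≠ 0 → |ρ| < 2) : Integrable g ∧ |∫ ρ, g ρ| ≤ c * 4 := by
  have h0 : g = (Ioo (-2 : ℝ) 2).indicator g := by
    funext ρ
    by_cases h : ρ ∈ Ioo (-2 : ℝ) 2
    · rw [indicator_of_mem h]
    · rw [indicator_of_notMem h]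
      by_contra hne
      exact h (abs_lt.1 (hs ρ hne))
  have hfin : (volume : Measure ℝ) (Ioo (-2 : ℝ) 2) ≠ ⊤ := by
    rw [Real.volume_Ioo]
    exact ENNReal.ofReal_ne_top
  have hi : IntegrableOn g (Ioo (-2 : ℝ) 2) :=
    Measure.integrableOn_of_bounded hfin hm.aestronglyMeasurable
      (Filter.Eventually.of_forall fun ρ => by rw [Real.norm_eq_abs]; exact hc ρ)
  refine ⟨?_, ?_⟩
  · rw [h0, integrable_indicator_iff measurableSet_Ioo]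
    exact hi
  · rw [h0, integral_indicator measurableSet_Ioo]
    have := norm_setIntegral_le_of_norm_le_const (μ := volume) (s := Ioo (-2 : ℝ) 2) (f := g)
      (C := c) (lt_top_iff_ne_top.2 hfin) (fun ρ _ => by rw [Real.norm_eq_abs]; exact hc ρ)
    rw [Real.norm_eq_abs] at this
    refine this.trans (le_of_eq ?_)
    congr 1
    rw [Measure.real, Real.volume_Ioo, ENNReal.toReal_ofReal (by norm_num)]
    norm_num

theorem meas_Xk {M p : ℝ} {k : ℝ → ℂ} (hk : Ker M k) : Measurable (Xk k p) := by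
  have hcc : Measurable cc := cc_facts.2.2.2.2.2.measurable
  have hkm := hk.meas
  unfold Xk
  fun_prop

/-- integrability of products -/
theorem int_prod {φ : ℝ → ℂ} (hφ : Lin φ) {H : ℝ × ℝ → ℂ} (hH : Measurable H) {c : ℝ}
    (hc : ∀ z : ℝ × ℝ, |z.1| < 1 / 20 → |z.2| < 1 / 20 → ‖H z‖ ≤ c) :
    Integrable (fun z : ℝ × ℝ => φ z.1 * conj (φ z.2) * H z) (volume.prod volume) := by
  have hm := hφ.meas
  have h1 : Integrable (fun z : ℝ × ℝ => ‖φ z.1‖ * ‖φ z.2‖) (volume.prod volume) :=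
    hφ.int.norm.mul_prod hφ.int.norm
  have h2 := h1.const_mul c
  refine h2.mono' ?_ (Filter.Eventually.of_forall fun z => ?_)
  · refine Measurable.aestronglyMeasurable ?_
    have h3 : Measurable fun z : ℝ × ℝ => conj (φ z.2) :=
      (Complex.continuous_conj.measurable).comp (hm.comp measurable_snd)
    exact ((hm.comp measurable_fst).mul h3).mul hH
  · rw [norm_mul, norm_mul, RCLike.norm_conj]
    by_cases ha : φ z.1 = 0
    · simp [ha]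
    by_cases hb : φ z.2 = 0
    · simp [hb]
    rw [mul_comm]
    exact mul_le_mul_of_nonneg_right (hc z (hφ.supp _ ha) (hφ.supp _ hb)) (by positivity)

theorem step1 {M p δ : ℝ} {k φ : ℝ → ℂ} (hk : Ker M k) (hφ : Lin φ) (hδ : |δ| ≤ 1 / 100) :
    |Tl k p δ φ - -∫ ρ, (2 * Real.sin ρ)⁻¹ * ‖∫ y, Xk k p (ρ - y) * φ y‖ ^ 2| ≤
      50 * |δ| * M ^ 2 * (∫ y, ‖φ y‖) ^ 2 + 40 * M ^ 2 * (∫ y, ‖φ y‖) * ∫ y, |y| * ‖φ y‖ := by
  have hM : 0 ≤ M := (norm_nonneg _).trans (hk.bd 0)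
  obtain ⟨hXm, hXb, hXs, hYb, hYs, hYm, hXY⟩ := Xl_facts (p := p) hk hφ
  generalize hA : (∫ y, ‖φ y‖) = A at hXb hYb ⊢
  generalize hBm : (∫ y, |y| * ‖φ y‖) = Bm at hXY ⊢
  have hA0 : 0 ≤ A := hA ▸ integral_nonneg fun y => norm_nonneg _
  have hB0 : 0 ≤ Bm := hBm ▸ integral_nonneg fun y => by positivity
  set Y : ℝ → ℂ := fun ρ => ∫ y, Xk k p (ρ - y) * φ y with hY
  change |Tl k p δ φ - -∫ ρ, (2 * Real.sin ρ)⁻¹ * ‖Y ρ‖ ^ 2| ≤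
      50 * |δ| * M ^ 2 * A ^ 2 + 40 * M ^ 2 * A * Bm
  have hmsin : Measurable fun ρ : ℝ => (2 * Real.sin (ρ + δ))⁻¹ := by fun_prop
  have hmsin0 : Measurable fun ρ : ℝ => (2 * Real.sin ρ)⁻¹ := by fun_prop
  have hYm' : Measurable Y := hYm
  have m1 : Measurable fun ρ => (2 * Real.sin (ρ + δ))⁻¹ * ‖Xl k p φ ρ‖ ^ 2 :=
    hmsin.mul (hXm.norm.pow_const 2)
  have m2 : Measurable fun ρ => (2 * Real.sin ρ)⁻¹ * ‖Y ρ‖ ^ 2 :=
    hmsin0.mul (hYm'.norm.pow_const 2)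
  have hδ' := abs_le.1 hδ
  have hrange : ∀ ρ : ℝ, 9 / 20 < |ρ| → |ρ| < 31 / 20 →
      (11 / 25 ≤ |ρ + δ| ∧ |ρ + δ| ≤ 39 / 25) ∧ (11 / 25 ≤ |ρ| ∧ |ρ| ≤ 39 / 25) := by
    intro ρ h1 h2
    have a1 : |ρ + δ| ≤ |ρ| + |δ| := abs_add_le _ _
    have a2 : |ρ| ≤ |ρ + δ| + |δ| := by
      have := abs_sub_abs_le_abs_sub (ρ) (-δ)
      rw [abs_neg, sub_neg_eq_add] at this
      linarith
    refine ⟨⟨by linarith, by linarith⟩, ⟨by linarith, by linarith⟩⟩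
  have b1 : ∀ ρ, |(2 * Real.sin (ρ + δ))⁻¹ * ‖Xl k p φ ρ‖ ^ 2| ≤ 5 / 4 * (2 * M * A) ^ 2 := by
    intro ρ
    by_cases h : Xl k p φ ρ = 0
    · rw [h]
      simp only [norm_zero]
      norm_num
      positivity
    · obtain ⟨g1, g2⟩ := hXs ρ h
      obtain ⟨⟨g3, g4⟩, -⟩ := hrange ρ g1 g2
      rw [abs_mul, abs_pow, abs_norm]
      exact mul_le_mul (inv_low g3 g4) (pow_le_pow_left₀ (norm_nonneg _) (hXb ρ) 2)
        (by positivity) (by norm_num)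
  have b2 : ∀ ρ, |(2 * Real.sin ρ)⁻¹ * ‖Y ρ‖ ^ 2| ≤ 5 / 4 * (2 * M * A) ^ 2 := by
    intro ρ
    by_cases h : Y ρ = 0
    · rw [h]
      simp only [norm_zero]
      norm_num
      positivity
    · obtain ⟨g1, g2⟩ := hYs ρ h
      obtain ⟨-, ⟨g3, g4⟩⟩ := hrange ρ g1 g2
      rw [abs_mul, abs_pow, abs_norm]
      exact mul_le_mul (inv_low g3 g4) (pow_le_pow_left₀ (norm_nonneg _) (hYb ρ) 2)
        (by positivity) (by norm_num)
  have s1 : ∀ ρ, (2 * Real.sin (ρ + δ))⁻¹ * ‖Xl k p φ ρ‖ ^ 2 ≠ 0 → |ρ| < 2 := by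
    intro ρ h
    have h' : Xl k p φ ρ ≠ 0 := by
      intro h0
      rw [h0] at h
      simp at h
    linarith [(hXs ρ h').2]
  have s2 : ∀ ρ, (2 * Real.sin ρ)⁻¹ * ‖Y ρ‖ ^ 2 ≠ 0 → |ρ| < 2 := by
    intro ρ h
    have h' : Y ρ ≠ 0 := by
      intro h0
      rw [h0] at h
      simp at h
    linarith [(hYs ρ h').2]
  have i1 := (int_bdd m1 b1 s1).1
  have i2 := (int_bdd m2 b2 s2).1
  have b3 : ∀ ρ, |(2 * Real.sin ρ)⁻¹ * ‖Y ρ‖ ^ 2 -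
      (2 * Real.sin (ρ + δ))⁻¹ * ‖Xl k p φ ρ‖ ^ 2| ≤
      25 / 2 * |δ| * M ^ 2 * A ^ 2 + 10 * M ^ 2 * A * Bm := by
    intro ρ
    have hnn : 0 ≤ 25 / 2 * |δ| * M ^ 2 * A ^ 2 + 10 * M ^ 2 * A * Bm := by positivity
    by_cases hin : 9 / 20 < |ρ| ∧ |ρ| < 31 / 20
    · obtain ⟨⟨g3, g4⟩, ⟨g5, g6⟩⟩ := hrange ρ hin.1 hin.2
      have e : (2 * Real.sin ρ)⁻¹ * ‖Y ρ‖ ^ 2 - (2 * Real.sin (ρ + δ))⁻¹ * ‖Xl k p φ ρ‖ ^ 2 =
          ((2 * Real.sin ρ)⁻¹ - (2 * Real.sin (ρ + δ))⁻¹) * ‖Xl k p φ ρ‖ ^ 2 +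
          (2 * Real.sin ρ)⁻¹ * ((‖Y ρ‖ - ‖Xl k p φ ρ‖) * (‖Y ρ‖ + ‖Xl k p φ ρ‖)) := by ring
      have f1 : |(2 * Real.sin ρ)⁻¹ - (2 * Real.sin (ρ + δ))⁻¹| ≤ 25 / 8 * |δ| := by
        have := inv_diff (sin_low g5 g6) (sin_low g3 g4)
        rwa [sub_add_cancel_left, abs_neg] at this
      have f2 : |‖Y ρ‖ - ‖Xl k p φ ρ‖| ≤ 2 * M * Bm := by
        refine (abs_norm_sub_norm_le _ _).trans ?_
        rw [norm_sub_rev]
        exact hXY ρ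
      have f3 : |‖Y ρ‖ + ‖Xl k p φ ρ‖| ≤ 4 * M * A := by
        rw [abs_of_nonneg (by positivity)]
        have := hXb ρ
        have := hYb ρ
        linarith
      rw [e]
      refine (abs_add_le _ _).trans ?_
      rw [abs_mul, abs_mul, abs_mul, abs_pow, abs_norm]
      have t1 : |(2 * Real.sin ρ)⁻¹ - (2 * Real.sin (ρ + δ))⁻¹| * ‖Xl k p φ ρ‖ ^ 2 ≤
          25 / 8 * |δ| * (2 * M * A) ^ 2 :=
        mul_le_mul f1 (pow_le_pow_left₀ (norm_nonneg _) (hXb ρ) 2) (by positivity)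
          (by positivity)
      have t2 : |(2 * Real.sin ρ)⁻¹| * (|‖Y ρ‖ - ‖Xl k p φ ρ‖| * |‖Y ρ‖ + ‖Xl k p φ ρ‖|) ≤
          5 / 4 * (2 * M * Bm * (4 * M * A)) :=
        mul_le_mul (inv_low g5 g6) (mul_le_mul f2 f3 (abs_nonneg _) (by positivity))
          (by positivity) (by norm_num)
      calc _ ≤ 25 / 8 * |δ| * (2 * M * A) ^ 2 + 5 / 4 * (2 * M * Bm * (4 * M * A)) :=
            add_le_add t1 t2
        _ = _ := by ring
    · have z1 : Xl k p φ ρ = 0 := by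
        by_contra h
        exact hin (hXs ρ h)
      have z2 : Y ρ = 0 := by
        by_contra h
        exact hin (hYs ρ h)
      rw [z1, z2]
      simpa using hnn
  have hfin := (int_bdd (m2.sub m1) b3 (by
    intro ρ h
    by_cases h1 : (2 * Real.sin (ρ + δ))⁻¹ * ‖Xl k p φ ρ‖ ^ 2 = 0
    · refine s2 ρ ?_
      intro h2
      exact h (by simp only [Pi.sub_apply]; rw [h1, h2, sub_zero])
    · exact s1 ρ h1)).2
  have e2 : Tl k p δ φ - -∫ ρ, (2 * Real.sin ρ)⁻¹ * ‖Y ρ‖ ^ 2 =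
      ∫ ρ, ((2 * Real.sin ρ)⁻¹ * ‖Y ρ‖ ^ 2 - (2 * Real.sin (ρ + δ))⁻¹ * ‖Xl k p φ ρ‖ ^ 2) := by
    rw [integral_sub i2 i1]
    unfold Tl
    ring
  rw [e2]
  refine hfin.trans (le_of_eq ?_)
  ring

/-- the kernel of L3 -/
noncomputable def Ph (k : ℝ → ℂ) (p : ℝ) (z : ℝ × ℝ) : ℂ :=
  ∫ ρ, ((2 * Real.sin ρ)⁻¹ : ℂ) * (Xk k p (ρ - z.1) * conj (Xk k p (ρ - z.2)))

/-- its main part -/
noncomputable def Hh (k : ℝ → ℂ) (p : ℝ) (z : ℝ × ℝ) : ℂ :=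
  I * (Ps k p z.1 z.2 - conj (Ps k p z.2 z.1))

theorem meas_Ph {M p : ℝ} {k : ℝ → ℂ} (hk : Ker M k) : Measurable (Ph k p) := by
  have hX := meas_Xk (p := p) hk
  have h : Measurable fun w : (ℝ × ℝ) × ℝ =>
      ((2 * Real.sin w.2)⁻¹ : ℂ) * (Xk k p (w.2 - w.1.1) * conj (Xk k p (w.2 - w.1.2))) := by
    have q1 : Measurable fun w : (ℝ × ℝ) × ℝ => ((2 * Real.sin w.2)⁻¹ : ℂ) := by fun_prop
    have q2 : Measurable fun w : (ℝ × ℝ) × ℝ => Xk k p (w.2 - w.1.1) :=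
      hX.comp (measurable_snd.sub (measurable_fst.comp measurable_fst))
    have q3 : Measurable fun w : (ℝ × ℝ) × ℝ => conj (Xk k p (w.2 - w.1.2)) :=
      Complex.continuous_conj.measurable.comp
        (hX.comp (measurable_snd.sub (measurable_snd.comp measurable_fst)))
    exact q1.mul (q2.mul q3)
  exact (h.stronglyMeasurable.integral_prod_right' (ν := volume)).measurable

theorem meas_aux {F : ℝ × ℝ → ℂ} (hF : Measurable F) :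
    Measurable fun z : ℝ × ℝ => conj (F (z.2, z.1)) := by
  have h1 : Measurable fun z : ℝ × ℝ => F (z.2, z.1) :=
    hF.comp (measurable_snd.prodMk measurable_fst)
  exact Complex.continuous_conj.measurable.comp h1

theorem meas_Ps' {p : ℝ} {k : ℝ → ℂ} (hPsm : Measurable (fun z : ℝ × ℝ => Ps k p z.1 z.2)) :
    Measurable fun z : ℝ × ℝ => conj (Ps k p z.2 z.1) := by
  have h := meas_aux hPsm
  dsimp only at h
  exact h

theorem meas_Hh {p : ℝ} {k : ℝ → ℂ} (hPsm : Measurable (fun z : ℝ × ℝ => Ps k p z.1 z.2)) :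
    Measurable (Hh k p) :=
  (hPsm.sub (meas_Ps' hPsm)).const_mul I

theorem intP {M p C5 : ℝ} {k φ : ℝ → ℂ} (hφ : Lin φ)
    (hPsb : ∀ y y' : ℝ, |y| < 1 / 20 → |y'| < 1 / 20 → ‖Ps k p y y'‖ ≤ C5 * M ^ 2)
    (hPsm : Measurable (fun z : ℝ × ℝ => Ps k p z.1 z.2)) :
    Integrable (fun z : ℝ × ℝ => φ z.1 * conj (φ z.2) * Ps k p z.1 z.2)
      (volume.prod volume) :=
  int_prod hφ (H := fun z => Ps k p z.1 z.2) hPsm (c := C5 * M ^ 2)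
    (fun z h1 h2 => hPsb z.1 z.2 h1 h2)

theorem intP' {M p C5 : ℝ} {k φ : ℝ → ℂ} (hφ : Lin φ)
    (hPsb : ∀ y y' : ℝ, |y| < 1 / 20 → |y'| < 1 / 20 → ‖Ps k p y y'‖ ≤ C5 * M ^ 2)
    (hPsm : Measurable (fun z : ℝ × ℝ => Ps k p z.1 z.2)) :
    Integrable (fun z : ℝ × ℝ => φ z.1 * conj (φ z.2) * conj (Ps k p z.2 z.1))
      (volume.prod volume) :=
  int_prod hφ (H := fun z => conj (Ps k p z.2 z.1)) (meas_Ps' hPsm) (c := C5 * M ^ 2)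
    (fun z h1 h2 => by rw [RCLike.norm_conj]; exact hPsb z.2 z.1 h2 h1)

theorem Hh_bd {M p C5 : ℝ} {k : ℝ → ℂ}
    (hPsb : ∀ y y' : ℝ, |y| < 1 / 20 → |y'| < 1 / 20 → ‖Ps k p y y'‖ ≤ C5 * M ^ 2)
    (z : ℝ × ℝ) (h1 : |z.1| < 1 / 20) (h2 : |z.2| < 1 / 20) :
    ‖Hh k p z‖ ≤ 2 * (C5 * M ^ 2) := by
  unfold Hh
  rw [norm_mul, Complex.norm_I, one_mul]
  refine (norm_sub_le _ _).trans ?_
  rw [RCLike.norm_conj]
  have a1 := hPsb z.1 z.2 h1 h2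
  have a2 := hPsb z.2 z.1 h2 h1
  linarith

theorem Zl_eq {p : ℝ} {k φ : ℝ → ℂ}
    (iP : Integrable (fun z : ℝ × ℝ => φ z.1 * conj (φ z.2) * Ps k p z.1 z.2)
      (volume.prod volume)) :
    Zl k p φ = ∫ z : ℝ × ℝ, φ z.1 * conj (φ z.2) * Ps k p z.1 z.2 ∂(volume.prod volume) := by
  rw [integral_prod _ iP]
  rfl

theorem Zl_conj {p : ℝ} {k φ : ℝ → ℂ}
    (iP : Integrable (fun z : ℝ × ℝ => φ z.1 * conj (φ z.2) * Ps k p z.1 z.2)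
      (volume.prod volume)) :
    conj (Zl k p φ) = ∫ z : ℝ × ℝ, φ z.1 * conj (φ z.2) * conj (Ps k p z.2 z.1)
      ∂(volume.prod volume) := by
  rw [Zl_eq iP, ← integral_conj, ← integral_prod_swap]
  refine integral_congr_ae (Filter.Eventually.of_forall fun z => ?_)
  simp only [Prod.fst_swap, Prod.snd_swap, map_mul, Complex.conj_conj]
  ring

theorem Hh_int {p : ℝ} {k φ : ℝ → ℂ}
    (iP : Integrable (fun z : ℝ × ℝ => φ z.1 * conj (φ z.2) * Ps k p z.1 z.2)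
      (volume.prod volume))
    (iP' : Integrable (fun z : ℝ × ℝ => φ z.1 * conj (φ z.2) * conj (Ps k p z.2 z.1))
      (volume.prod volume)) :
    ∫ z : ℝ × ℝ, φ z.1 * conj (φ z.2) * Hh k p z ∂(volume.prod volume) =
      ((-(2 * (Zl k p φ).im) : ℝ) : ℂ) := by
  have e : (fun z : ℝ × ℝ => φ z.1 * conj (φ z.2) * Hh k p z) = fun z =>
      I * (φ z.1 * conj (φ z.2) * Ps k p z.1 z.2 -
        φ z.1 * conj (φ z.2) * conj (Ps k p z.2 z.1)) := by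
    funext z
    unfold Hh
    ring
  rw [e, integral_const_mul, integral_sub iP iP', ← Zl_eq iP, ← Zl_conj iP, Complex.sub_conj]
  push_cast
  linear_combination (2 * ((Zl k p φ).im : ℂ)) * Complex.I_mul_I

theorem Ph_int {M p : ℝ} {k φ : ℝ → ℂ} (hk : Ker M k) (hφ : Lin φ)
    (iF : Integrable (fun z : ℝ × ℝ => φ z.1 * conj (φ z.2) * Ph k p z)
      (volume.prod volume)) :
    ((∫ ρ, (2 * Real.sin ρ)⁻¹ * ‖∫ y, Xk k p (ρ - y) * φ y‖ ^ 2 : ℝ) : ℂ) =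
      ∫ z : ℝ × ℝ, φ z.1 * conj (φ z.2) * Ph k p z ∂(volume.prod volume) := by
  rw [integral_prod _ iF]
  exact conv_sq hk hφ

theorem diff_int {M p C3 : ℝ} {k φ : ℝ → ℂ} (hφ : Lin φ)
    (hnear : ∀ z : ℝ × ℝ, |z.1| < 1 / 20 → |z.2| < 1 / 20 →
      ‖Ph k p z - Hh k p z‖ ≤ C3 * M ^ 2 * (|z.1| + |z.2|))
    (iF : Integrable (fun z : ℝ × ℝ => φ z.1 * conj (φ z.2) * Ph k p z)
      (volume.prod volume))
    (iG : Integrable (fun z : ℝ × ℝ => φ z.1 * conj (φ z.2) * Hh k p z)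
      (volume.prod volume)) :
    ‖(∫ z : ℝ × ℝ, φ z.1 * conj (φ z.2) * Ph k p z ∂(volume.prod volume)) -
      ∫ z : ℝ × ℝ, φ z.1 * conj (φ z.2) * Hh k p z ∂(volume.prod volume)‖ ≤
      2 * C3 * M ^ 2 * (∫ y, ‖φ y‖) * ∫ y, |y| * ‖φ y‖ := by
  rw [← integral_sub iF iG]
  have iyφ : Integrable fun y : ℝ => |y| * ‖φ y‖ := by
    refine (hφ.int.norm.const_mul (1 / 20)).mono' ?_ (Filter.Eventually.of_forall fun y => ?_)
    · have := hφ.meas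
      exact (measurable_norm.mul this.norm).aestronglyMeasurable
    · rw [Real.norm_eq_abs, abs_mul, abs_abs, abs_norm]
      by_cases h : φ y = 0
      · simp [h]
      · exact mul_le_mul_of_nonneg_right (hφ.supp y h).le (norm_nonneg _)
  have j1 : Integrable (fun z : ℝ × ℝ => |z.1| * ‖φ z.1‖ * ‖φ z.2‖) (volume.prod volume) :=
    iyφ.mul_prod hφ.int.norm
  have j2 : Integrable (fun z : ℝ × ℝ => ‖φ z.1‖ * (|z.2| * ‖φ z.2‖)) (volume.prod volume) :=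
    hφ.int.norm.mul_prod iyφ
  have hle : ∀ z : ℝ × ℝ, ‖φ z.1 * conj (φ z.2) * Ph k p z - φ z.1 * conj (φ z.2) * Hh k p z‖ ≤
      C3 * M ^ 2 * (|z.1| * ‖φ z.1‖ * ‖φ z.2‖ + ‖φ z.1‖ * (|z.2| * ‖φ z.2‖)) := by
    intro z
    rw [← mul_sub, norm_mul, norm_mul, RCLike.norm_conj]
    by_cases ha : φ z.1 = 0
    · simp [ha]
    by_cases hb : φ z.2 = 0
    · simp [hb]
    have := mul_le_mul_of_nonneg_left (hnear z (hφ.supp _ ha) (hφ.supp _ hb))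
      (show 0 ≤ ‖φ z.1‖ * ‖φ z.2‖ by positivity)
    refine this.trans (le_of_eq ?_)
    ring
  refine (norm_integral_le_integral_norm _).trans ?_
  refine (integral_mono (iF.sub iG).norm ((j1.add j2).const_mul (C3 * M ^ 2)) hle).trans ?_
  have r1 : ∫ z : ℝ × ℝ, |z.1| * ‖φ z.1‖ * ‖φ z.2‖ ∂(volume.prod volume) =
      (∫ y, |y| * ‖φ y‖) * ∫ y, ‖φ y‖ :=
    integral_prod_mul (fun y : ℝ => |y| * ‖φ y‖) (fun y : ℝ => ‖φ y‖)
  have r2 : ∫ z : ℝ × ℝ, ‖φ z.1‖ * (|z.2| * ‖φ z.2‖) ∂(volume.prod volume) =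
      (∫ y, ‖φ y‖) * ∫ y, |y| * ‖φ y‖ :=
    integral_prod_mul (fun y : ℝ => ‖φ y‖) (fun y : ℝ => |y| * ‖φ y‖)
  have r3 : ∫ z : ℝ × ℝ, ((fun z : ℝ × ℝ => |z.1| * ‖φ z.1‖ * ‖φ z.2‖) +
      fun z : ℝ × ℝ => ‖φ z.1‖ * (|z.2| * ‖φ z.2‖)) z ∂(volume.prod volume) =
      (∫ y, |y| * ‖φ y‖) * (∫ y, ‖φ y‖) + (∫ y, ‖φ y‖) * ∫ y, |y| * ‖φ y‖ := by
    rw [integral_add' j1 j2, r1, r2]
  rw [integral_const_mul, r3]
  apply le_of_eq
  ring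

theorem step2 {M p C3 C5 : ℝ} {k φ : ℝ → ℂ} (hk : Ker M k) (hφ : Lin φ) (hC3 : 0 < C3)
    (h3 : ∀ y y' : ℝ, |y| < 1 / 20 → |y'| < 1 / 20 →
      ‖(∫ ρ, ((2 * Real.sin ρ)⁻¹ : ℂ) * (Xk k p (ρ - y) * conj (Xk k p (ρ - y')))) -
        I * (Ps k p y y' - conj (Ps k p y' y))‖ ≤ C3 * M ^ 2 * (|y| + |y'|))
    (hPsb : ∀ y y' : ℝ, |y| < 1 / 20 → |y'| < 1 / 20 → ‖Ps k p y y'‖ ≤ C5 * M ^ 2)
    (hPsm : Measurable (fun z : ℝ × ℝ => Ps k p z.1 z.2)) :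
    |(∫ ρ, (2 * Real.sin ρ)⁻¹ * ‖∫ y, Xk k p (ρ - y) * φ y‖ ^ 2) - -(2 * (Zl k p φ).im)| ≤
      2 * C3 * M ^ 2 * (∫ y, ‖φ y‖) * ∫ y, |y| * ‖φ y‖ := by
  have hnear : ∀ z : ℝ × ℝ, |z.1| < 1 / 20 → |z.2| < 1 / 20 →
      ‖Ph k p z - Hh k p z‖ ≤ C3 * M ^ 2 * (|z.1| + |z.2|) :=
    fun z h1 h2 => h3 z.1 z.2 h1 h2
  have hΦb : ∀ z : ℝ × ℝ, |z.1| < 1 / 20 → |z.2| < 1 / 20 →
      ‖Ph k p z‖ ≤ C3 * M ^ 2 * (1 / 10) + 2 * (C5 * M ^ 2) := by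
    intro z h1 h2
    have g1 := hnear z h1 h2
    have g2 := Hh_bd hPsb z h1 h2
    have g3 : ‖Ph k p z‖ ≤ ‖Ph k p z - Hh k p z‖ + ‖Hh k p z‖ := by
      have := norm_add_le (Ph k p z - Hh k p z) (Hh k p z)
      rwa [sub_add_cancel] at this
    have g4 : C3 * M ^ 2 * (|z.1| + |z.2|) ≤ C3 * M ^ 2 * (1 / 10) :=
      mul_le_mul_of_nonneg_left (by linarith) (by positivity)
    linarith
  have iF := int_prod hφ (meas_Ph (p := p) hk) hΦb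
  have iG := int_prod hφ (meas_Hh hPsm) (Hh_bd hPsb)
  have iP := intP hφ hPsb hPsm
  have iP' := intP' hφ hPsb hPsm
  have hdiff := diff_int hφ hnear iF iG
  rw [← Ph_int hk hφ iF, Hh_int iP iP', ← Complex.ofReal_sub, Complex.norm_real,
    Real.norm_eq_abs] at hdiff
  exact hdiff

end L6

open L6

/-- L6. One line, assembled from L1-L5 (the paper's B6). -/
theorem line : ∃ C : ℝ, 0 < C ∧ ∀ (M p δ : ℝ) (k φ : ℝ → ℂ), Ker M k → Lin φ → |δ| ≤ 1 / 100 →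
    |Tl k p δ φ - 2 * (Zl k p φ).im| ≤
      C * M ^ 2 * ((∫ y, |y| * ‖φ y‖) * (∫ y, ‖φ y‖) + |δ| * (∫ y, ‖φ y‖) ^ 2) := by
  obtain ⟨C3, hC3, h3⟩ := Phi_near
  obtain ⟨C5, hC5, h5⟩ := Ps_facts
  refine ⟨100 + 2 * C3, by positivity, ?_⟩
  intro M p δ k φ hk hφ hδ
  have e1 := step1 (p := p) hk hφ hδ
  have e2 := step2 (p := p) hk hφ hC3 (h3 M p k hk) (h5 M p k hk).1 (h5 M p k hk).2
  have hA0 : 0 ≤ ∫ y, ‖φ y‖ := integral_nonneg fun y => norm_nonneg _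
  have hB0 : 0 ≤ ∫ y, |y| * ‖φ y‖ := integral_nonneg fun y => by positivity
  generalize (∫ y, ‖φ y‖) = A at e1 e2 hA0 ⊢
  generalize (∫ y, |y| * ‖φ y‖) = Bm at e1 e2 hB0 ⊢
  generalize (∫ ρ, (2 * Real.sin ρ)⁻¹ * ‖∫ y, Xk k p (ρ - y) * φ y‖ ^ 2) = S at e1 e2
  have hfinal : Tl k p δ φ - 2 * (Zl k p φ).im =
      (Tl k p δ φ - -S) - (S - -(2 * (Zl k p φ).im)) := by ring
  rw [hfinal]
  refine (abs_sub _ _).trans ?_
  refine (add_le_add e1 e2).trans ?_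
  have w1 : 0 ≤ M ^ 2 * (Bm * A) := by positivity
  have w2 : 0 ≤ M ^ 2 * (|δ| * A ^ 2) := by positivity
  nlinarith [mul_nonneg hC3.le w1, mul_nonneg hC3.le w2]

end Pool.Agent.Helper34.HRV
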