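import Pool.Agent.Helper34.HRV.Defs
import Pool.Agent.Helper34.HRV.St.C1
import Pool.Agent.Helper34.HRV.St.C2
import Pool.Agent.Helper34.HRV.St.C3

/-! HRV piece O1 (project HRT, MP_2370de_an; hints: `/team-store/HRV_hints.md`). -/

set_option autoImplicit false

open MeasureTheory Complex Set
open scoped ComplexConjugate Real

namespace Pool.Agent.Helper34.HRV

/-- O1. Oscillation. -/
theorem osc : ∃ h : ℝ, 0 < h ∧ h < 1 ∧ ∀ y y' : ℝ, |y| ≤ 1 / 20 → |y'| ≤ 1 / 20 →
    ∀ j : ℤ, j ≠ 0 → ‖∫ ρ in Dm y y', (wy y y' ρ : ℂ) * cexp ((2 * π * j * th y y' ρ : ℝ) * I)‖ ≤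
      h * Wy y y' := by
  obtain ⟨w0, hw0, hw⟩ := wy_facts
  have hπ3 : (3 : ℝ) < π := Real.pi_gt_three
  have hπi : 1 / π < 1 / 3 := one_div_lt_one_div_of_lt (by norm_num) hπ3
  have hπp : 0 < 1 / π := by positivity
  have hw03 : w0 ≤ 3 := by
    have := hw 0 0 1 (by norm_num) (by norm_num) ⟨by norm_num, by norm_num⟩
    exact this.1.trans this.2.1
  set η : ℝ := 5 * w0 / 6 * (1 / 2 - 1 / π) with hη
  have hη0 : 0 < η := by
    have : 0 < 1 / 2 - 1 / π := by linarith
    positivity
  have hη1 : η < 4 := by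
    have h1 : 5 * w0 / 6 ≤ 5 / 2 := by linarith
    have h2 : 1 / 2 - 1 / π ≤ 1 / 2 := by linarith
    have h3 : 0 ≤ 1 / 2 - 1 / π := by linarith
    calc η ≤ 5 / 2 * (1 / 2) := mul_le_mul h1 h2 h3 (by norm_num)
      _ < 4 := by norm_num
  refine ⟨1 - η / 4, by linarith, by linarith, ?_⟩
  intro y y' hy hy' j hj
  obtain ⟨hth1, hth2⟩ := th_facts y y' hy hy'
  have hwf := fun ρ hρ => hw y y' ρ hy hy' hρ
  unfold Wy Dm
  set a := 1 / 2 + max y y' with ha
  set b := 3 / 2 + min y y' with hb
  have hmm : max y y' - min y y' ≤ 1 / 10 := by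
    rw [max_sub_min_eq_abs]
    have := abs_le.mp hy
    have := abs_le.mp hy'
    rw [abs_le]; constructor <;> linarith
  have hmm' : min y y' ≤ max y y' := min_le_max
  have hab : a ≤ b := by rw [ha, hb]; linarith
  have hba : b - a ≤ 1 := by rw [ha, hb]; linarith
  rw [← integral_Ioc_eq_integral_Ioo, ← integral_Ioc_eq_integral_Ioo,
    ← intervalIntegral.integral_of_le hab, ← intervalIntegral.integral_of_le hab]
  -- continuity
  have hwc : ContinuousOn (wy y y') (Icc a b) := fun ρ hρ =>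
    (hwf ρ hρ).2.2.2.2.2.2.1.continuousWithinAt
  have htc : ContinuousOn (th y y') (Icc a b) := fun ρ hρ => by
    obtain ⟨d, hd, -⟩ := hth2 ρ hρ
    exact hd.continuousAt.continuousWithinAt
  have hwi : IntervalIntegrable (wy y y') volume a b := by
    rw [intervalIntegrable_iff_integrableOn_Icc_of_le hab]
    exact hwc.integrableOn_Icc
  set z := ∫ ρ in a..b, (wy y y' ρ : ℂ) * cexp ((2 * π * j * th y y' ρ : ℝ) * I) with hz
  set ψ := z.arg with hψ
  set al : ℝ → ℝ := fun ρ => 2 * π * j * th y y' ρ - ψ with hal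
  have halc : ContinuousOn al (Icc a b) := by
    exact (continuousOn_const.mul htc).sub continuousOn_const
  have hzi : IntervalIntegrable (fun ρ => (wy y y' ρ : ℂ) *
      cexp ((2 * π * j * th y y' ρ : ℝ) * I)) volume a b := by
    rw [intervalIntegrable_iff_integrableOn_Icc_of_le hab]
    refine ContinuousOn.integrableOn_Icc ?_
    refine (Complex.continuous_ofReal.comp_continuousOn hwc).mul ?_
    refine Complex.continuous_exp.comp_continuousOn ?_
    exact (Complex.continuous_ofReal.comp_continuousOn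
      (continuousOn_const.mul htc)).mul continuousOn_const
  have hzn : ‖z‖ = ∫ ρ in a..b, wy y y' ρ * Real.cos (al ρ) := by
    have h1 : (‖z‖ : ℂ) = z * cexp (-(ψ : ℂ) * I) := by
      conv_rhs => rw [← Complex.norm_mul_exp_arg_mul_I z]
      rw [mul_assoc, ← Complex.exp_add, ← hψ]
      simp
    have h2 : (‖z‖ : ℂ) = ∫ ρ in a..b, ((wy y y' ρ : ℂ) *
      cexp ((2 * π * j * th y y' ρ : ℝ) * I)) * cexp (-(ψ : ℂ) * I) := by
      rw [h1, hz, intervalIntegral.integral_mul_const]
    have h3 : ‖z‖ = (∫ ρ in a..b, ((wy y y' ρ : ℂ) *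
      cexp ((2 * π * j * th y y' ρ : ℝ) * I)) * cexp (-(ψ : ℂ) * I)).re := by
      rw [← h2, Complex.ofReal_re]
    rw [h3]
    have h4 := Complex.reCLM.intervalIntegral_comp_comm (hzi.mul_const (cexp (-(ψ : ℂ) * I)))
    simp only [Complex.reCLM_apply] at h4
    rw [← h4]
    refine intervalIntegral.integral_congr fun ρ _ => ?_
    have h5 : ((wy y y' ρ : ℂ) * cexp ((2 * π * j * th y y' ρ : ℝ) * I)) * cexp (-(ψ : ℂ) * I) =
        (wy y y' ρ : ℂ) * cexp ((al ρ : ℂ) * I) := by
      rw [mul_assoc, ← Complex.exp_add, hal]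
      congr 2
      push_cast
      ring
    rw [h5, Complex.re_ofReal_mul, Complex.exp_ofReal_mul_I_re]
  have hwci : IntervalIntegrable (fun ρ => wy y y' ρ * Real.cos (al ρ)) volume a b := by
    rw [intervalIntegrable_iff_integrableOn_Icc_of_le hab]
    exact (hwc.mul (Real.continuous_cos.comp_continuousOn halc)).integrableOn_Icc
  have hdiff : (∫ ρ in a..b, wy y y' ρ) - ‖z‖ = ∫ ρ in a..b, wy y y' ρ * (1 - Real.cos (al ρ)) := by
    rw [hzn, ← intervalIntegral.integral_sub hwi hwci]
    refine intervalIntegral.integral_congr fun ρ _ => ?_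
    ring
  -- lower bound by `w0 ∫ (1 - cos)`
  have hci : IntervalIntegrable (fun ρ => (1 - Real.cos (al ρ))) volume a b := by
    rw [intervalIntegrable_iff_integrableOn_Icc_of_le hab]
    exact (continuousOn_const.sub (Real.continuous_cos.comp_continuousOn halc)).integrableOn_Icc
  have hlow : w0 * (5 / 6) * (∫ ρ in a..b, 6 / 5 * (1 - Real.cos (al ρ))) ≤
      ∫ ρ in a..b, wy y y' ρ * (1 - Real.cos (al ρ)) := by
    rw [← intervalIntegral.integral_const_mul]
    refine intervalIntegral.integral_mono_on hab ((hci.const_mul _).const_mul _) ?_ ?_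
    · rw [intervalIntegrable_iff_integrableOn_Icc_of_le hab]
      exact (hwc.mul (continuousOn_const.sub
        (Real.continuous_cos.comp_continuousOn halc))).integrableOn_Icc
    · intro ρ hρ
      have h1 := (hwf ρ hρ).1
      have h2 : 0 ≤ 1 - Real.cos (al ρ) := by linarith [Real.cos_le_one (al ρ)]
      nlinarith
  -- FTC
  have hj' : (j : ℝ) ≠ 0 := by exact_mod_cast hj
  set g : ℝ → ℝ := fun ρ => Real.sin (al ρ) / (2 * π * j) - th y y' ρ with hg
  have hftc : g b - g a ≤ ∫ ρ in a..b, 6 / 5 * (1 - Real.cos (al ρ)) := by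
    have hgd : ∀ ρ ∈ Icc a b, ∃ d, HasDerivAt g d ρ ∧ d ≤ 6 / 5 * (1 - Real.cos (al ρ)) := by
      intro ρ hρ
      obtain ⟨d, hd, hd1, hd2⟩ := hth2 ρ hρ
      refine ⟨Real.cos (al ρ) * (2 * π * j * d) / (2 * π * j) - d, ?_, ?_⟩
      · have h1 : HasDerivAt al (2 * π * j * d) ρ := by
          rw [hal]
          exact (hd.const_mul (2 * π * (j : ℝ))).sub_const ψ
        exact ((h1.sin).div_const (2 * π * j)).sub hd
      · have h2 : Real.cos (al ρ) * (2 * π * j * d) / (2 * π * j) - d =
            (-d) * (1 - Real.cos (al ρ)) := by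
          field_simp
          ring
        rw [h2]
        have h3 : 0 ≤ 1 - Real.cos (al ρ) := by linarith [Real.cos_le_one (al ρ)]
        exact mul_le_mul_of_nonneg_right (by linarith) h3
    choose! g' hg' hg'' using hgd
    refine intervalIntegral.sub_le_integral_of_hasDeriv_right_of_le hab (g' := g') ?_ ?_ ?_ ?_
    · intro ρ hρ
      exact (hg' ρ hρ).continuousAt.continuousWithinAt
    · intro ρ hρ
      exact (hg' ρ (Ioo_subset_Icc_self hρ)).hasDerivWithinAt
    · exact (continuousOn_const.mul (continuousOn_const.sub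
        (Real.continuous_cos.comp_continuousOn halc))).integrableOn_Icc
    · intro ρ hρ
      exact hg'' ρ (Ioo_subset_Icc_self hρ)
  have hgab : 1 / 2 - 1 / π ≤ g b - g a := by
    have h1 : g b - g a = (th y y' a - th y y' b) +
        (Real.sin (al b) - Real.sin (al a)) / (2 * π * j) := by
      simp only [hg]
      ring
    have h2 : |(Real.sin (al b) - Real.sin (al a)) / (2 * π * j)| ≤ 1 / π := by
      rw [abs_div]
      have h3 : |Real.sin (al b) - Real.sin (al a)| ≤ 2 := by
        rw [abs_le]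
        constructor <;> linarith [Real.sin_le_one (al b), Real.neg_one_le_sin (al b),
          Real.sin_le_one (al a), Real.neg_one_le_sin (al a)]
      have h4 : 2 * π ≤ |2 * π * (j : ℝ)| := by
        rw [abs_mul, abs_of_pos (by positivity : 0 < 2 * π)]
        have : (1 : ℝ) ≤ |(j : ℝ)| := by
          exact_mod_cast Int.one_le_abs hj
        nlinarith
      rw [div_le_div_iff₀ (by linarith) (by positivity)]
      nlinarith
    have h5 := (abs_le.mp h2).1
    rw [h1]
    linarith
  -- total weight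
  have hW : (∫ ρ in a..b, wy y y' ρ) ≤ 4 := by
    have h1 : (∫ ρ in a..b, wy y y' ρ) ≤ ∫ ρ in a..b, (3 : ℝ) := by
      refine intervalIntegral.integral_mono_on hab hwi (by simp) ?_
      intro ρ hρ
      exact (hwf ρ hρ).2.1
    rw [intervalIntegral.integral_const, smul_eq_mul] at h1
    linarith
  have hfin : η ≤ (∫ ρ in a..b, wy y y' ρ) - ‖z‖ := by
    rw [hdiff]
    refine le_trans ?_ hlow
    have h1 : 1 / 2 - 1 / π ≤ ∫ ρ in a..b, 6 / 5 * (1 - Real.cos (al ρ)) := hgab.trans hftc
    have h2 : 0 ≤ w0 * (5 / 6) := by positivity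
    have h3 := mul_le_mul_of_nonneg_left h1 h2
    rw [hη]
    linarith
  nlinarith

end Pool.Agent.Helper34.HRV
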