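import Pool.Agent.Helper34.HRV.Defs

/-! HRV piece O2 (project HRT, MP_2370de_an; hints: `/team-store/HRV_hints.md`). -/

set_option autoImplicit false

open MeasureTheory Complex Set
open scoped ComplexConjugate Real

namespace Pool.Agent.Helper34.HRV

/-- The character `e_k`. -/
noncomputable def o2e {Ω : Type} (θ : Ω → ℝ) (k : ℤ) (x : Ω) : ℂ :=
  cexp ((2 * π * k * θ x : ℝ) * I)

theorem o2e_norm {Ω : Type} (θ : Ω → ℝ) (k : ℤ) (x : Ω) : ‖o2e θ k x‖ = 1 := by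
  unfold o2e; exact Complex.norm_exp_ofReal_mul_I _

theorem o2e_meas {Ω : Type} [MeasurableSpace Ω] {θ : Ω → ℝ} (hθ : Measurable θ) (k : ℤ) :
    Measurable (o2e θ k) := by
  unfold o2e
  fun_prop

theorem o2e_mul {Ω : Type} (θ : Ω → ℝ) (k l : ℤ) (x : Ω) :
    o2e θ k x * conj (o2e θ l x) = o2e θ (k - l) x := by
  unfold o2e
  rw [← Complex.exp_conj, ← Complex.exp_add]
  congr 1
  rw [map_mul, Complex.conj_ofReal, Complex.conj_I]
  push_cast
  ring

/-- O2. Abstract averaging. -/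
theorem avg {Ω : Type} [MeasurableSpace Ω] (μ : Measure Ω) (w : Ω → ℝ) (θ : Ω → ℝ) (h N : ℝ)
    (hw0 : ∀ᵐ x ∂μ, 0 ≤ w x) (hwi : Integrable w μ) (hθ : Measurable θ) (h0 : 0 ≤ h) (h1 : h ≤ 1)
    (hosc : ∀ j : ℤ, j ≠ 0 → ‖∫ x, (w x : ℂ) * cexp ((2 * π * j * θ x : ℝ) * I) ∂μ‖ ≤
      h * ∫ x, w x ∂μ)
    (c : ℤ → ℂ) (hN : 0 < N) (hs : Summable fun k => ‖c k‖) (hle : ∑' k, ‖c k‖ ≤ N) :
    ∫ x, w x * ‖∑' k : ℤ, c k * cexp ((2 * π * k * θ x : ℝ) * I)‖ ∂μ ≤
      (∫ x, w x ∂μ) * (N - (1 - h) / 2 * (N - (∑' k, ‖c k‖ ^ 2) / N)) := by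
  set W := ∫ x, w x ∂μ with hW
  have hW0 : 0 ≤ W := integral_nonneg_of_ae hw0
  set F : Ω → ℂ := fun x => ∑' k : ℤ, c k * o2e θ k x with hF
  have hgoal : ∀ x, ‖∑' k : ℤ, c k * cexp ((2 * π * k * θ x : ℝ) * I)‖ = ‖F x‖ := fun x => rfl
  simp only [hgoal]
  have hsm : ∀ x, Summable fun k : ℤ => ‖c k * o2e θ k x‖ := by
    intro x
    simpa [o2e_norm] using hs
  have hsm' : ∀ x, Summable fun k : ℤ => ‖conj (c k * o2e θ k x)‖ := by
    intro x
    simpa only [RCLike.norm_conj] using hsm x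
  set G : ℤ × ℤ → Ω → ℂ := fun p x =>
    (w x : ℂ) * ((c p.1 * o2e θ p.1 x) * conj (c p.2 * o2e θ p.2 x)) with hG
  have hGn : ∀ p x, ‖G p x‖ = |w x| * (‖c p.1‖ * ‖c p.2‖) := by
    intro p x
    simp [hG, o2e_norm]
  have hGe : ∀ p x, G p x = (c p.1 * conj (c p.2)) * ((w x : ℂ) * o2e θ (p.1 - p.2) x) := by
    intro p x
    simp only [hG]
    rw [← o2e_mul θ p.1 p.2 x, map_mul]
    ring
  have hwe : ∀ k, Integrable (fun x => (w x : ℂ) * o2e θ k x) μ := by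
    intro k
    refine Integrable.mono (g := fun x => (w x : ℂ)) hwi.ofReal ?_ ?_
    · exact hwi.ofReal.aestronglyMeasurable.mul (o2e_meas hθ k).aestronglyMeasurable
    · exact Filter.Eventually.of_forall fun x => by simp [o2e_norm]
  have hGi : ∀ p, Integrable (G p) μ := by
    intro p
    have : G p = fun x => (c p.1 * conj (c p.2)) * ((w x : ℂ) * o2e θ (p.1 - p.2) x) :=
      funext (hGe p)
    rw [this]
    exact (hwe _).const_mul _
  have hprod : Summable fun p : ℤ × ℤ => ‖c p.1‖ * ‖c p.2‖ :=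
    Summable.mul_of_nonneg hs hs (fun _ => norm_nonneg _) (fun _ => norm_nonneg _)
  have hGs : Summable fun p => ∫ x, ‖G p x‖ ∂μ := by
    have : (fun p => ∫ x, ‖G p x‖ ∂μ) = fun p : ℤ × ℤ =>
        (∫ x, |w x| ∂μ) * (‖c p.1‖ * ‖c p.2‖) := by
      funext p
      simp only [hGn]
      rw [integral_mul_const]
    rw [this]
    exact hprod.mul_left _
  have hts : ∀ x, ∑' p, G p x = ((w x * ‖F x‖ ^ 2 : ℝ) : ℂ) := by
    intro x
    simp only [hG]
    rw [tsum_mul_left, ← tsum_mul_tsum_of_summable_norm (hsm x) (hsm' x),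
      ← Complex.conj_tsum]
    have : (∑' k : ℤ, c k * o2e θ k x) = F x := rfl
    rw [this, Complex.mul_conj, Complex.normSq_eq_norm_sq]
    push_cast
    ring
  have hsum := hasSum_integral_of_summable_integral_norm hGi hGs
  simp only [hts] at hsum
  rw [integral_complex_ofReal] at hsum
  have hFb : ∀ x, ‖F x‖ ≤ N := by
    intro x
    refine (norm_tsum_le_tsum_norm (hsm x)).trans ?_
    simpa [o2e_norm] using hle
  have hFm : Measurable F := by
    refine measurable_of_tendsto_metrizable' (f := fun (s : Finset ℤ) x => ∑ k ∈ s, c k * o2e θ k x)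
      Filter.atTop (fun s => ?_) ?_
    · exact Finset.measurable_sum _ fun k _ => (o2e_meas hθ k).const_mul _
    · rw [tendsto_pi_nhds]
      intro x
      exact (hsm x).of_norm.hasSum
  have hwF : Integrable (fun x => w x * ‖F x‖ ^ 2) μ := by
    refine Integrable.mono' (g := fun x => |w x| * N ^ 2) (hwi.abs.mul_const _)
      (hwi.aestronglyMeasurable.mul (hFm.norm.pow_const 2).aestronglyMeasurable) ?_
    refine Filter.Eventually.of_forall fun x => ?_
    rw [Real.norm_eq_abs, abs_mul, abs_pow, abs_norm]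
    have := hFb x
    have h0 : ‖F x‖ ^ 2 ≤ N ^ 2 := by nlinarith [norm_nonneg (F x)]
    exact mul_le_mul_of_nonneg_left h0 (abs_nonneg _)
  -- the main bound
  have hmain : ∫ x, w x * ‖F x‖ ^ 2 ∂μ ≤ W * ((1 - h) * (∑' k, ‖c k‖ ^ 2) + h * N ^ 2) := by
    have hb : ∀ p, ‖∫ x, G p x ∂μ‖ ≤ h * W * (‖c p.1‖ * ‖c p.2‖) +
        (1 - h) * W * (if p.2 = p.1 then ‖c p.1‖ * ‖c p.2‖ else 0) := by
      intro p
      have : ∫ x, G p x ∂μ = (c p.1 * conj (c p.2)) * ∫ x, (w x : ℂ) * o2e θ (p.1 - p.2) x ∂μ := by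
        rw [← integral_const_mul]
        exact integral_congr_ae (Filter.Eventually.of_forall fun x => hGe p x)
      rw [this, norm_mul, norm_mul, RCLike.norm_conj]
      have hnn : 0 ≤ ‖c p.1‖ * ‖c p.2‖ := by positivity
      by_cases hp : p.2 = p.1
      · rw [if_pos hp]
        have h2 : ∫ x, (w x : ℂ) * o2e θ (p.1 - p.2) x ∂μ = (W : ℂ) := by
          rw [hp, sub_self, hW, ← integral_complex_ofReal]
          refine integral_congr_ae (Filter.Eventually.of_forall fun x => ?_)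
          simp [o2e]
        rw [h2, Complex.norm_real, Real.norm_of_nonneg hW0]
        nlinarith
      · rw [if_neg hp, mul_zero, add_zero]
        have h2 := hosc (p.1 - p.2) (by
          intro h3; exact hp (by linarith [sub_eq_zero.mp h3]))
        have h3 : ‖∫ x, (w x : ℂ) * o2e θ (p.1 - p.2) x ∂μ‖ ≤ h * W := h2
        nlinarith [mul_le_mul_of_nonneg_left h3 hnn]
    have hd : Summable fun p : ℤ × ℤ => if p.2 = p.1 then ‖c p.1‖ * ‖c p.2‖ else 0 := by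
      refine Summable.of_nonneg_of_le (fun p => ?_) (fun p => ?_) hprod
      · split_ifs <;> positivity
      · split_ifs
        · exact le_rfl
        · positivity
    have hd2 : ∑' p : ℤ × ℤ, (if p.2 = p.1 then ‖c p.1‖ * ‖c p.2‖ else 0) = ∑' k, ‖c k‖ ^ 2 := by
      rw [hd.tsum_prod]
      refine tsum_congr fun k => ?_
      rw [tsum_ite_eq]
      ring
    have hprod2 : ∑' p : ℤ × ℤ, ‖c p.1‖ * ‖c p.2‖ = (∑' k, ‖c k‖) ^ 2 := by
      rw [sq, Summable.tsum_mul_tsum hs hs hprod]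
    have hsR : Summable fun p : ℤ × ℤ => h * W * (‖c p.1‖ * ‖c p.2‖) +
        (1 - h) * W * (if p.2 = p.1 then ‖c p.1‖ * ‖c p.2‖ else 0) :=
      (hprod.mul_left _).add (hd.mul_left _)
    have h4 : ‖((∫ x, w x * ‖F x‖ ^ 2 ∂μ : ℝ) : ℂ)‖ ≤
        ∑' p : ℤ × ℤ, (h * W * (‖c p.1‖ * ‖c p.2‖) +
        (1 - h) * W * (if p.2 = p.1 then ‖c p.1‖ * ‖c p.2‖ else 0)) := by
      rw [← hsum.tsum_eq]
      have hsn : Summable fun p => ‖∫ x, G p x ∂μ‖ :=
        Summable.of_nonneg_of_le (fun _ => norm_nonneg _) hb hsR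
      exact (norm_tsum_le_tsum_norm hsn).trans (hsn.tsum_le_tsum hb hsR)
    rw [Summable.tsum_add (hprod.mul_left _) (hd.mul_left _), tsum_mul_left, tsum_mul_left, hd2,
      hprod2, Complex.norm_real] at h4
    have h5 := (Real.le_norm_self _).trans h4
    have h6 : (∑' k, ‖c k‖) ^ 2 ≤ N ^ 2 := by
      have : 0 ≤ ∑' k, ‖c k‖ := tsum_nonneg fun _ => norm_nonneg _
      nlinarith
    have h7 : 0 ≤ h * W := mul_nonneg h0 hW0
    nlinarith [mul_le_mul_of_nonneg_left h6 h7]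
  have hptw : ∀ᵐ x ∂μ, w x * ‖F x‖ ≤ (1 / (2 * N)) * (w x * ‖F x‖ ^ 2) + N / 2 * w x := by
    filter_upwards [hw0] with x hx
    have : ‖F x‖ ≤ (1 / (2 * N)) * ‖F x‖ ^ 2 + N / 2 := by
      have h8 : 0 ≤ (‖F x‖ - N) ^ 2 / (2 * N) := by positivity
      have h9 : (‖F x‖ - N) ^ 2 / (2 * N) = (1 / (2 * N)) * ‖F x‖ ^ 2 + N / 2 - ‖F x‖ := by
        field_simp
        ring
      linarith
    nlinarith [mul_le_mul_of_nonneg_left this hx]
  have hRi : Integrable (fun x => (1 / (2 * N)) * (w x * ‖F x‖ ^ 2) + N / 2 * w x) μ :=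
    (hwF.const_mul _).add (hwi.const_mul _)
  have hLle : ∫ x, w x * ‖F x‖ ∂μ ≤ ∫ x, (1 / (2 * N)) * (w x * ‖F x‖ ^ 2) + N / 2 * w x ∂μ := by
    refine integral_mono_of_nonneg ?_ hRi hptw
    filter_upwards [hw0] with x hx
    exact mul_nonneg hx (norm_nonneg _)
  rw [integral_add (hwF.const_mul _) (hwi.const_mul _), integral_const_mul,
    integral_const_mul] at hLle
  refine hLle.trans ?_
  have h10 : 1 / (2 * N) * ∫ x, w x * ‖F x‖ ^ 2 ∂μ ≤
      1 / (2 * N) * (W * ((1 - h) * (∑' k, ‖c k‖ ^ 2) + h * N ^ 2)) :=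
    mul_le_mul_of_nonneg_left hmain (by positivity)
  have h11 : 1 / (2 * N) * (W * ((1 - h) * (∑' k, ‖c k‖ ^ 2) + h * N ^ 2)) + N / 2 * W =
      W * (N - (1 - h) / 2 * (N - (∑' k, ‖c k‖ ^ 2) / N)) := by
    field_simp
    ring
  linarith

end Pool.Agent.Helper34.HRV
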