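import Pool.Agent.Helper34.HRV.Defs
import Pool.Agent.Helper34.HRV.St.C1
import Pool.Agent.Helper34.HRV.St.C2

/-! HRV piece O3 (project HRT, MP_2370de_an; hints: `/team-store/HRV_hints.md`). Replace the `sorry`s in place. -/

set_option autoImplicit false

open MeasureTheory Complex Set
open scoped ComplexConjugate Real

namespace Pool.Agent.Helper34.HRV

private theorem o3_int {y y' : ℝ} (hy : |y| ≤ 1 / 20) (hy' : |y'| ≤ 1 / 20) :
    IntegrableOn (wy y y') (Dm y y') := by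
  obtain ⟨w0, _, hw⟩ := wy_facts
  have h1 : ContinuousOn (wy y y') (Icc (1 / 2 + max y y') (3 / 2 + min y y')) := fun ρ hρ =>
    (hw y y' ρ hy hy' hρ).2.2.2.2.2.2.1.continuousWithinAt
  exact (h1.integrableOn_Icc).mono_set Ioo_subset_Icc_self

private theorem o3_diff {y y' ρ : ℝ} (hy : |y| ≤ 1 / 20) (hy' : |y'| ≤ 1 / 20)
    (h0 : ρ ∈ Icc (1 / 2 : ℝ) (3 / 2)) : |wy y y' ρ - wy 0 0 ρ| ≤ 5 * (|y| + |y'|) := by
  obtain ⟨w0, _, hw⟩ := wy_facts
  have h1 := hw 0 0 ρ (by norm_num) (by norm_num) (by simpa using h0)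
  have hwt0 := h1.2.2.1
  have hwt3 := h1.2.2.2.1
  have hc := cc_facts.2.2.2.1
  have a1 := abs_le.1 hy
  have a2 := abs_le.1 hy'
  have b0 : |ρ| ≤ 8 / 5 := abs_le.2 ⟨by linarith [h0.1], by linarith [h0.2]⟩
  have b1 : |ρ - y| ≤ 8 / 5 := abs_le.2 ⟨by linarith [h0.1], by linarith [h0.2]⟩
  have b2 : |ρ - y'| ≤ 8 / 5 := abs_le.2 ⟨by linarith [h0.1], by linarith [h0.2]⟩
  have c1 : |cc (ρ - y) - cc ρ| ≤ |y| := by
    have := hc _ _ b1 b0
    rwa [show ρ - y - ρ = -y by ring, abs_neg] at this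
  have c2 : |cc (ρ - y') - cc ρ| ≤ |y'| := by
    have := hc _ _ b2 b0
    rwa [show ρ - y' - ρ = -y' by ring, abs_neg] at this
  have c3 : |th y y' ρ - th 0 0 ρ| ≤ |y| + |y'| := by
    unfold th
    rw [sub_zero]
    have : cc (ρ - y) + cc (ρ - y') - (cc ρ + cc ρ) =
        (cc (ρ - y) - cc ρ) + (cc (ρ - y') - cc ρ) := by ring
    rw [this]
    exact (abs_add_le _ _).trans (add_le_add c1 c2)
  have c4 : |Real.sin (π * th y y' ρ / 2) - Real.sin (π * th 0 0 ρ / 2)| ≤
      π / 2 * (|y| + |y'|) := by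
    have h := Real.abs_sin_sub_sin_le (π * th y y' ρ / 2) (π * th 0 0 ρ / 2)
    refine h.trans ?_
    rw [show π * th y y' ρ / 2 - π * th 0 0 ρ / 2 = π / 2 * (th y y' ρ - th 0 0 ρ) by ring,
      abs_mul, abs_of_pos (by positivity)]
    gcongr
  unfold wy
  rw [← mul_sub, abs_mul, abs_of_nonneg hwt0]
  have hpi := Real.pi_lt_d2
  have hs : 0 ≤ |y| + |y'| := by positivity
  calc wt ρ * |Real.sin (π * th y y' ρ / 2) - Real.sin (π * th 0 0 ρ / 2)|
      ≤ 3 * (π / 2 * (|y| + |y'|)) := by gcongr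
    _ = (3 * π / 2) * (|y| + |y'|) := by ring
    _ ≤ 5 * (|y| + |y'|) := by
        gcongr
        linarith

private theorem o3_bd {y y' : ℝ} (hy : |y| ≤ 1 / 20) (hy' : |y'| ≤ 1 / 20) (ρ : ℝ) :
    ‖(Dm y y').indicator (wy y y') ρ - (Dm 0 0).indicator (wy 0 0) ρ‖ ≤
      (Icc (1 / 2 : ℝ) (3 / 2)).indicator (fun _ => 5 * (|y| + |y'|)) ρ +
      ((Icc (1 / 2 - (|y| + |y'|)) (1 / 2 + (|y| + |y'|))).indicator (fun _ => 3) ρ +
      (Icc (3 / 2 - (|y| + |y'|)) (3 / 2 + (|y| + |y'|))).indicator (fun _ => 3) ρ) := by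
  obtain ⟨w0, hw0, hw⟩ := wy_facts
  have hs : 0 ≤ |y| + |y'| := by positivity
  have n1 : 0 ≤ (Icc (1 / 2 : ℝ) (3 / 2)).indicator (fun _ => 5 * (|y| + |y'|)) ρ :=
    indicator_nonneg (fun _ _ => by positivity) _
  have n2 : 0 ≤ (Icc (1 / 2 - (|y| + |y'|)) (1 / 2 + (|y| + |y'|))).indicator
      (fun _ => (3 : ℝ)) ρ := indicator_nonneg (fun _ _ => by norm_num) _
  have n3 : 0 ≤ (Icc (3 / 2 - (|y| + |y'|)) (3 / 2 + (|y| + |y'|))).indicator
      (fun _ => (3 : ℝ)) ρ := indicator_nonneg (fun _ _ => by norm_num) _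
  have m1 : max y y' ≤ |y| + |y'| := max_le (by linarith [le_abs_self y, abs_nonneg y'])
    (by linarith [le_abs_self y', abs_nonneg y])
  have m2 : -(|y| + |y'|) ≤ min y y' := le_min (by linarith [neg_abs_le y, abs_nonneg y'])
    (by linarith [neg_abs_le y', abs_nonneg y])
  have m3 : -(|y| + |y'|) ≤ max y y' := m2.trans (min_le_left _ _ |>.trans (le_max_left _ _))
  have m4 : min y y' ≤ |y| + |y'| := (min_le_left _ _).trans ((le_max_left _ _).trans m1)
  by_cases h1 : ρ ∈ Dm y y'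
  · have f1 := hw y y' ρ hy hy' ⟨h1.1.le, h1.2.le⟩
    by_cases h2 : ρ ∈ Dm 0 0
    · rw [indicator_of_mem h1, indicator_of_mem h2]
      have h2' : ρ ∈ Icc (1 / 2 : ℝ) (3 / 2) := by
        have a := h2.1
        have b := h2.2
        simp only [max_self, min_self, add_zero] at a b
        exact ⟨a.le, b.le⟩
      rw [indicator_of_mem h2']
      have := o3_diff hy hy' h2'
      rw [Real.norm_eq_abs]
      linarith
    · rw [indicator_of_mem h1, indicator_of_notMem h2, sub_zero, Real.norm_eq_abs,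
        abs_of_nonneg (by linarith)]
      have h3 : ρ ≤ 1 / 2 ∨ 3 / 2 ≤ ρ := by
        by_contra hcon
        push Not at hcon
        exact h2 ⟨by simpa using hcon.1, by simpa using hcon.2⟩
      rcases h3 with h3 | h3
      · have h4 : ρ ∈ Icc (1 / 2 - (|y| + |y'|)) (1 / 2 + (|y| + |y'|)) :=
          ⟨by linarith [h1.1], by linarith⟩
        rw [indicator_of_mem h4]
        linarith
      · have h4 : ρ ∈ Icc (3 / 2 - (|y| + |y'|)) (3 / 2 + (|y| + |y'|)) :=
          ⟨by linarith, by linarith [h1.2]⟩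
        rw [indicator_of_mem h4]
        linarith
  · rw [indicator_of_notMem h1, zero_sub, norm_neg]
    by_cases h2 : ρ ∈ Dm 0 0
    · have h2' : 1 / 2 < ρ ∧ ρ < 3 / 2 := by
        have a := h2.1
        have b := h2.2
        simp only [max_self, min_self, add_zero] at a b
        exact ⟨a, b⟩
      have f1 := hw 0 0 ρ (by norm_num) (by norm_num) ⟨h2.1.le, h2.2.le⟩
      rw [indicator_of_mem h2, Real.norm_eq_abs, abs_of_nonneg (by linarith)]
      have h3 : ρ ≤ 1 / 2 + max y y' ∨ 3 / 2 + min y y' ≤ ρ := by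
        by_contra hcon
        push Not at hcon
        exact h1 ⟨hcon.1, hcon.2⟩
      rcases h3 with h3 | h3
      · have h4 : ρ ∈ Icc (1 / 2 - (|y| + |y'|)) (1 / 2 + (|y| + |y'|)) :=
          ⟨by linarith [h2'.1], by linarith⟩
        rw [indicator_of_mem h4]
        linarith
      · have h4 : ρ ∈ Icc (3 / 2 - (|y| + |y'|)) (3 / 2 + (|y| + |y'|)) :=
          ⟨by linarith, by linarith [h2'.2]⟩
        rw [indicator_of_mem h4]
        linarith
    · rw [indicator_of_notMem h2, norm_zero]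
      linarith

private theorem o3_Icc_int (a b c : ℝ) : Integrable ((Icc a b).indicator fun _ : ℝ => c) := by
  rw [integrable_indicator_iff measurableSet_Icc]
  exact integrableOn_const (by simp)

private theorem o3_Icc_val (a b c : ℝ) (h : a ≤ b) :
    ∫ x, (Icc a b).indicator (fun _ : ℝ => c) x = (b - a) * c := by
  rw [integral_indicator measurableSet_Icc, setIntegral_const, smul_eq_mul, Real.volume_real_Icc,
    max_eq_left (by linarith)]

/-- O3. -/
theorem Wy_near : 0 < W0 ∧ ∃ C : ℝ, 0 < C ∧ ∀ y y' : ℝ, |y| ≤ 1 / 20 → |y'| ≤ 1 / 20 →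
    |Wy y y' - W0| ≤ C * (|y| + |y'|) := by
  constructor
  · obtain ⟨w0, hw0, hw⟩ := wy_facts
    have h1 : w0 ≤ W0 := by
      unfold W0 Wy
      have hd : Dm 0 0 = Ioo (1 / 2 : ℝ) (3 / 2) := by
        unfold Dm
        simp
      have h2 : ∫ ρ in Dm 0 0, w0 = w0 := by
        rw [hd, setIntegral_const, Real.volume_real_Ioo, smul_eq_mul]
        norm_num
      rw [← h2]
      refine setIntegral_mono_on ?_ (o3_int (by norm_num) (by norm_num)) ?_ ?_
      · rw [hd]
        exact integrableOn_const (by simp)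
      · rw [hd]
        exact measurableSet_Ioo
      · intro ρ hρ
        exact (hw 0 0 ρ (by norm_num) (by norm_num) ⟨hρ.1.le, hρ.2.le⟩).1
    linarith
  · refine ⟨17, by norm_num, fun y y' hy hy' => ?_⟩
    have hs : 0 ≤ |y| + |y'| := by positivity
    have m1 : MeasurableSet (Dm y y') := measurableSet_Ioo
    have m0 : MeasurableSet (Dm 0 0) := measurableSet_Ioo
    have i1 : Integrable ((Dm y y').indicator (wy y y')) :=
      (integrable_indicator_iff m1).2 (o3_int hy hy')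
    have i0 : Integrable ((Dm 0 0).indicator (wy 0 0)) :=
      (integrable_indicator_iff m0).2 (o3_int (by norm_num) (by norm_num))
    have e : Wy y y' - W0 =
        ∫ ρ, ((Dm y y').indicator (wy y y') ρ - (Dm 0 0).indicator (wy 0 0) ρ) := by
      rw [integral_sub i1 i0, integral_indicator m1, integral_indicator m0]
      rfl
    rw [e, ← Real.norm_eq_abs]
    have g1 := o3_Icc_int (1 / 2 : ℝ) (3 / 2) (5 * (|y| + |y'|))
    have g2 := o3_Icc_int (1 / 2 - (|y| + |y'|)) (1 / 2 + (|y| + |y'|)) 3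
    have g3 := o3_Icc_int (3 / 2 - (|y| + |y'|)) (3 / 2 + (|y| + |y'|)) 3
    refine (norm_integral_le_of_norm_le (g1.add (g2.add g3))
      (ae_of_all _ (o3_bd hy hy'))).trans (le_of_eq ?_)
    rw [integral_add' g1 (g2.add g3), integral_add' g2 g3, o3_Icc_val _ _ _ (by norm_num),
      o3_Icc_val _ _ _ (by linarith), o3_Icc_val _ _ _ (by linarith)]
    ring

end Pool.Agent.Helper34.HRV
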