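import Pool.Agent.Helper34.HRV.Defs

/-! HRV piece O4 (project HRT, MP_2370de_an; hints: `/team-store/HRV_hints.md`). Replace the `sorry`s in place. -/

set_option autoImplicit false

open MeasureTheory Complex Set
open scoped ComplexConjugate Real

namespace Pool.Agent.Helper34.HRV

private theorem o4_sqrt {x x' : ℝ} (hx : |x| ≤ 1) (hx' : |x'| ≤ 1) :
    |Real.sqrt ((1 - x) / 2) * Real.sqrt ((1 - x') / 2) - 1 / 2| ≤ |x| + |x'| := by
  have h1 := abs_le.1 hx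
  have h2 := abs_le.1 hx'
  set s := Real.sqrt ((1 - x) / 2) * Real.sqrt ((1 - x') / 2) with hs
  have hs0 : 0 ≤ s := by positivity
  have hs2 : s * s = (1 - x) / 2 * ((1 - x') / 2) := by
    rw [hs, mul_mul_mul_comm, Real.mul_self_sqrt (by linarith), Real.mul_self_sqrt (by linarith)]
  have h3 : |s - 1 / 2| * (s + 1 / 2) = |(-x - x' + x * x') / 4| := by
    rw [← abs_of_nonneg (show 0 ≤ s + 1 / 2 by linarith), ← abs_mul]
    congr 1
    nlinarith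
  have h4 : |(-x - x' + x * x') / 4| ≤ (2 * |x| + |x'|) / 4 := by
    rw [abs_div, abs_of_pos (show (0 : ℝ) < 4 by norm_num)]
    refine div_le_div_of_nonneg_right ?_ (by norm_num)
    have h5 : |x * x'| ≤ |x| := by
      rw [abs_mul]
      have := mul_le_mul_of_nonneg_left hx' (abs_nonneg x)
      linarith
    have h6 : |-x - x' + x * x'| ≤ |-x - x'| + |x * x'| := abs_add_le _ _
    have h7 : |-x - x'| ≤ |x| + |x'| := by
      have := abs_sub (-x) x'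
      rwa [abs_neg] at this
    linarith
  have h5 : |s - 1 / 2| * (1 / 2) ≤ |s - 1 / 2| * (s + 1 / 2) :=
    mul_le_mul_of_nonneg_left (by linarith) (abs_nonneg _)
  have h6 := abs_nonneg x'
  linarith

/-- O4. -/
theorem bracket (δ θ x x' : ℝ) (hx : |x| ≤ 1) (hx' : |x'| ≤ 1) (hθ : |θ| ≤ 2) :
    ‖br δ θ x x' - I * cexp (-(((π * θ / 2 : ℝ) : ℂ) * I)) * (Real.sin (π * θ / 2) : ℂ)‖ ≤
      2 * (|x| + |x'|) + 2 * |δ| := by
  have hA := o4_sqrt hx hx'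
  have hB := o4_sqrt (x := -x) (x' := -x') (by rwa [abs_neg]) (by rwa [abs_neg])
  rw [sub_neg_eq_add, sub_neg_eq_add, abs_neg, abs_neg] at hB
  set A : ℝ := Real.sqrt ((1 - x) / 2) * Real.sqrt ((1 - x') / 2) with hAdef
  set B : ℝ := Real.sqrt ((1 + x) / 2) * Real.sqrt ((1 + x') / 2) with hBdef
  have hsin : I * cexp (-(((π * θ / 2 : ℝ) : ℂ) * I)) * (Real.sin (π * θ / 2) : ℂ) =
      1 / 2 - cexp (-(((θ * π : ℝ) : ℂ) * I)) / 2 := by
    have e1 : cexp (-(((θ * π : ℝ) : ℂ) * I)) =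
        cexp (-(((π * θ / 2 : ℝ) : ℂ) * I)) * cexp (-(((π * θ / 2 : ℝ) : ℂ) * I)) := by
      rw [← Complex.exp_add]
      congr 1
      push_cast
      ring
    have e2 : cexp (-(((π * θ / 2 : ℝ) : ℂ) * I)) * cexp (((π * θ / 2 : ℝ) : ℂ) * I) = 1 := by
      rw [← Complex.exp_add, neg_add_cancel, Complex.exp_zero]
    rw [e1, Complex.ofReal_sin, Complex.sin]
    have e3 : -((π * θ / 2 : ℝ) : ℂ) * I = -(((π * θ / 2 : ℝ) : ℂ) * I) := by ring
    rw [e3]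
    linear_combination (1 / 2 : ℂ) * e2 + (cexp (-(((π * θ / 2 : ℝ) : ℂ) * I)) *
      (cexp (-(((π * θ / 2 : ℝ) : ℂ) * I)) - cexp (((π * θ / 2 : ℝ) : ℂ) * I)) / 2) *
        Complex.I_mul_I
  have hn : ∀ t : ℝ, ‖cexp (-(((t : ℝ) : ℂ) * I))‖ = 1 := by
    intro t
    have : -(((t : ℝ) : ℂ) * I) = ((-t : ℝ) : ℂ) * I := by
      push_cast
      ring
    rw [this, Complex.norm_exp_ofReal_mul_I]
  have hd : ‖cexp (-(((θ * (π - δ) : ℝ) : ℂ) * I)) - cexp (-(((θ * π : ℝ) : ℂ) * I))‖ ≤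
      2 * |δ| := by
    have e1 : cexp (-(((θ * (π - δ) : ℝ) : ℂ) * I)) =
        cexp (-(((θ * π : ℝ) : ℂ) * I)) * cexp (I * ((θ * δ : ℝ) : ℂ)) := by
      rw [← Complex.exp_add]
      congr 1
      push_cast
      ring
    have e2 : cexp (-(((θ * (π - δ) : ℝ) : ℂ) * I)) - cexp (-(((θ * π : ℝ) : ℂ) * I)) =
        cexp (-(((θ * π : ℝ) : ℂ) * I)) * (cexp (I * ((θ * δ : ℝ) : ℂ)) - 1) := by
      rw [e1]
      ring
    rw [e2, norm_mul, hn, one_mul]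
    refine Real.norm_exp_I_mul_ofReal_sub_one_le.trans ?_
    rw [Real.norm_eq_abs, abs_mul]
    exact mul_le_mul_of_nonneg_right hθ (abs_nonneg _)
  have hbr : br δ θ x x' - I * cexp (-(((π * θ / 2 : ℝ) : ℂ) * I)) * (Real.sin (π * θ / 2) : ℂ) =
      ((A - 1 / 2 : ℝ) : ℂ) - cexp (-(((θ * (π - δ) : ℝ) : ℂ) * I)) * ((B - 1 / 2 : ℝ) : ℂ) -
        (cexp (-(((θ * (π - δ) : ℝ) : ℂ) * I)) - cexp (-(((θ * π : ℝ) : ℂ) * I))) *
          (1 / 2 : ℂ) := by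
    rw [hsin]
    unfold br
    rw [← hAdef, ← hBdef]
    rw [Complex.ofReal_sub A, Complex.ofReal_sub B, Complex.ofReal_div, Complex.ofReal_one]
    push_cast
    ring
  rw [hbr]
  refine (norm_sub_le _ _).trans ?_
  have h1 : ‖((A - 1 / 2 : ℝ) : ℂ) - cexp (-(((θ * (π - δ) : ℝ) : ℂ) * I)) *
      ((B - 1 / 2 : ℝ) : ℂ)‖ ≤ 2 * (|x| + |x'|) := by
    refine (norm_sub_le _ _).trans ?_
    rw [norm_mul, hn, one_mul, Complex.norm_real, Complex.norm_real, Real.norm_eq_abs,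
      Real.norm_eq_abs]
    linarith
  have h2 : ‖(cexp (-(((θ * (π - δ) : ℝ) : ℂ) * I)) - cexp (-(((θ * π : ℝ) : ℂ) * I))) *
      (1 / 2 : ℂ)‖ ≤ 2 * |δ| := by
    rw [norm_mul]
    have h3 : ‖(1 / 2 : ℂ)‖ = 1 / 2 := by norm_num
    rw [h3]
    have := abs_nonneg δ
    linarith
  linarith

end Pool.Agent.Helper34.HRV
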