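import Pool.Agent.Helper34.HRV.Defs
import Pool.Agent.Helper34.HRV.St.C1
import Pool.Agent.Helper34.HRV.St.L5
import Pool.Agent.Helper34.HRV.St.S1

/-! HRV piece S2 (project HRT, MP_2370de_an; hints: `/team-store/HRV_hints.md`). Replace the `sorry`s in place. -/

set_option autoImplicit false

open MeasureTheory Complex Set
open scoped ComplexConjugate Real

namespace Pool.Agent.Helper34.HRV

lemma S2_wt_bd {ρ : ℝ} (h1 : 9 / 20 < ρ) (h2 : ρ < 31 / 20) : |wt ρ| ≤ 4 := by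
  have hpi1 := Real.pi_gt_d2
  have hpi2 := Real.pi_lt_d2
  have hs : 1 / 4 ≤ Real.sin ρ := by
    have := Real.mul_le_sin (x := ρ) (by linarith) (by linarith)
    refine le_trans ?_ this
    rw [div_mul_eq_mul_div, le_div_iff₀ Real.pi_pos]
    linarith
  unfold wt
  rw [abs_div, abs_of_pos (by linarith : 0 < Real.sin ρ), div_le_iff₀ (by linarith)]
  have := Real.abs_sin_le_one (ρ * cc ρ)
  linarith

lemma S2_meas_integrand {M p y y' : ℝ} {k : ℝ → ℂ} (hk : Ker M k) :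
    Measurable fun ρ : ℝ => (wt ρ : ℂ) * (k (ρ - y) * k (y' - ρ)) *
      cexp (((th y y' ρ * p : ℝ) : ℂ) * I) := by
  have hcc : Measurable cc := (cc_facts.2.2.2.2.2).measurable
  have hwt : Measurable wt := by
    unfold wt
    exact (Real.measurable_sin.comp (measurable_id.mul hcc)).div Real.measurable_sin
  have hth : Measurable (fun ρ : ℝ => th y y' ρ) := by
    unfold th
    exact (hcc.comp (measurable_id.sub_const y)).add (hcc.comp (measurable_id.sub_const y'))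
  have hk1 : Measurable fun ρ : ℝ => k (ρ - y) := hk.meas.comp (measurable_id.sub_const y)
  have hk2 : Measurable fun ρ : ℝ => k (y' - ρ) := hk.meas.comp (measurable_const.sub measurable_id)
  exact ((Complex.measurable_ofReal.comp hwt).mul (hk1.mul hk2)).mul
    (Complex.measurable_exp.comp ((Complex.measurable_ofReal.comp (hth.mul_const p)).mul_const I))

lemma S2_int_integrand {M p y y' : ℝ} {k : ℝ → ℂ} (hk : Ker M k) (hy : |y| < 1 / 20) :
    IntegrableOn (fun ρ : ℝ => (wt ρ : ℂ) * (k (ρ - y) * k (y' - ρ)) *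
      cexp (((th y y' ρ * p : ℝ) : ℂ) * I)) (Ioo (0 : ℝ) 2) := by
  have hM : 0 ≤ M := (norm_nonneg _).trans (hk.bd 0)
  have hfin : IsFiniteMeasure (volume.restrict (Ioo (0 : ℝ) 2)) :=
    ⟨by rw [Measure.restrict_apply_univ, Real.volume_Ioo]; exact ENNReal.ofReal_lt_top⟩
  apply Integrable.mono' (g := fun _ => 4 * (M * M)) (integrable_const _)
    (S2_meas_integrand hk).aestronglyMeasurable
  refine (ae_restrict_iff' measurableSet_Ioo).2 (Filter.Eventually.of_forall fun ρ hρ => ?_)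
  rw [norm_mul, norm_mul, norm_mul, Complex.norm_exp_ofReal_mul_I, mul_one, Complex.norm_real,
    Real.norm_eq_abs]
  by_cases h0 : k (ρ - y) = 0
  · rw [h0, norm_zero, zero_mul, mul_zero]
    positivity
  · have h1 := hk.supp _ h0
    rw [abs_lt] at hy
    have hρ1 : 9 / 20 < ρ ∧ ρ < 31 / 20 := by
      obtain ⟨h2, h3⟩ := h1
      rw [abs_lt] at h3
      rw [lt_abs] at h2
      rcases h2 with h2 | h2
      · exact ⟨by linarith, by linarith⟩
      · exfalso; linarith [hρ.1]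
    have hw := S2_wt_bd hρ1.1 hρ1.2
    exact mul_le_mul hw (mul_le_mul (hk.bd _) (hk.bd _) (norm_nonneg _) hM)
      (mul_nonneg (norm_nonneg _) (norm_nonneg _)) (by norm_num)

lemma S2_Zint {M p : ℝ} {k φ : ℝ → ℂ} (hk : Ker M k) (hφ : Lin φ) :
    (∀ y, Integrable fun y' => φ y * conj (φ y') * Ps k p y y') ∧
    Integrable fun y => ∫ y', φ y * conj (φ y') * Ps k p y y' := by
  obtain ⟨C, hC, hPs⟩ := Ps_facts
  obtain ⟨hbd, hmeas⟩ := hPs M p k hk
  have hM : 0 ≤ C * M ^ 2 := by positivity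
  have hmeas2 : Measurable fun z : ℝ × ℝ => φ z.1 * conj (φ z.2) * Ps k p z.1 z.2 :=
    ((hφ.meas.comp measurable_fst).mul
      (Complex.continuous_conj.measurable.comp (hφ.meas.comp measurable_snd))).mul hmeas
  have hpt : ∀ y y', ‖φ y * conj (φ y') * Ps k p y y'‖ ≤ ‖φ y‖ * (C * M ^ 2) * ‖φ y'‖ := by
    intro y y'
    by_cases h1 : φ y = 0
    · rw [h1]; simp
    by_cases h2 : φ y' = 0
    · rw [h2]; simp
    rw [norm_mul, norm_mul, RCLike.norm_conj]
    have := hbd y y' (hφ.supp y h1) (hφ.supp y' h2)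
    calc ‖φ y‖ * ‖φ y'‖ * ‖Ps k p y y'‖ ≤ ‖φ y‖ * ‖φ y'‖ * (C * M ^ 2) :=
          mul_le_mul_of_nonneg_left this (by positivity)
      _ = _ := by ring
  have h1 : ∀ y, Integrable fun y' => φ y * conj (φ y') * Ps k p y y' := by
    intro y
    apply Integrable.mono' (hφ.int.norm.const_mul (‖φ y‖ * (C * M ^ 2)))
    · exact (hmeas2.comp (measurable_const.prodMk measurable_id)).aestronglyMeasurable
    · exact Filter.Eventually.of_forall fun y' => hpt y y'
  refine ⟨h1, ?_⟩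
  have hsm : StronglyMeasurable fun y => ∫ y', φ y * conj (φ y') * Ps k p y y' :=
    (hmeas2.stronglyMeasurable).integral_prod_right'
  apply Integrable.mono' (hφ.int.norm.const_mul ((C * M ^ 2) * ∫ y', ‖φ y'‖))
    hsm.aestronglyMeasurable
  refine Filter.Eventually.of_forall fun y => ?_
  refine (norm_integral_le_integral_norm _).trans ?_
  calc ∫ y', ‖φ y * conj (φ y') * Ps k p y y'‖ ≤ ∫ y', ‖φ y‖ * (C * M ^ 2) * ‖φ y'‖ :=
        integral_mono (h1 y).norm (hφ.int.norm.const_mul _) (hpt y)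
    _ = (C * M ^ 2 * ∫ y', ‖φ y'‖) * ‖φ y‖ := by rw [integral_const_mul]; ring

/-- S2. The two lines of a dimer together. -/
theorem pair {M δ : ℝ} {k : ℝ → ℂ} {cf : ℝ → ℝ} {ζ : ℤ → ℂ} {a : ℤ → ℝ → ℂ} (hk : Ker M k)
    (ha : Fib cf ζ a) (j : ℤ) :
    Zl k (Pt δ (2 * j)) (fl cf ζ a (2 * j)) - Zl k (Pt δ (2 * j - 1)) (fl cf ζ a (2 * j - 1)) =
      ∫ y, ∫ y', ∫ ρ in Ioo (0 : ℝ) 2, (wt ρ : ℂ) * (k (ρ - y) * k (y' - ρ)) *
        br δ (th y y' ρ) (cf y) (cf y') * cexp ((((π / 2) * th y y' ρ : ℝ) : ℂ) * I) *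
        (a j y * conj (a j y') * cexp ((2 * π * j * th y y' ρ : ℝ) * I)) := by
  have hL := (fib_facts ha).2.2.2.2.2.2.2.2.2.2
  have hev : Even (2 * j) := even_two_mul j
  have hodd : ¬ Even (2 * j - 1) := by
    rw [Int.not_even_iff_odd]
    exact ⟨j - 1, by ring⟩
  have e1 : ∀ y, fl cf ζ a (2 * j) y = ζ j * (Real.sqrt ((1 - cf y) / 2) : ℂ) * a j y := by
    intro y
    unfold fl
    rw [if_pos hev]
    have : 2 * j / 2 = j := by omega
    rw [this]
  have e2 : ∀ y, fl cf ζ a (2 * j - 1) y = (Real.sqrt ((1 + cf y) / 2) : ℂ) * a j y := by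
    intro y
    unfold fl
    rw [if_neg hodd]
    have : (2 * j - 1 + 1) / 2 = j := by omega
    rw [this]
  have p1 : Pt δ (2 * j) = π / 2 + 2 * π * j := by
    unfold Pt dl
    rw [if_pos hev]
    push_cast; ring
  have p2 : Pt δ (2 * j - 1) = π / 2 + 2 * π * j - (π - δ) := by
    unfold Pt dl
    rw [if_neg hodd]
    push_cast; ring
  obtain ⟨i1, i2⟩ := S2_Zint (p := Pt δ (2 * j)) hk (hL (2 * j))
  obtain ⟨i3, i4⟩ := S2_Zint (p := Pt δ (2 * j - 1)) hk (hL (2 * j - 1))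
  unfold Zl
  rw [← integral_sub i2 i4]
  congr 1
  funext y
  rw [← integral_sub (i1 y) (i3 y)]
  congr 1
  funext y'
  by_cases hy : a j y = 0
  · rw [e1, e2, hy]
    simp
  by_cases hy' : a j y' = 0
  · rw [e1, e1, e2, e2, hy']
    simp
  have hys := ha.a_supp j y hy
  unfold Ps
  rw [← integral_const_mul, ← integral_const_mul, ← integral_sub
    ((S2_int_integrand hk hys).const_mul _) ((S2_int_integrand hk hys).const_mul _)]
  congr 1
  funext ρ
  rw [e1, e1, e2, e2, p1, p2]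
  have hζ : ζ j * conj (ζ j) = 1 := by
    rw [Complex.mul_conj, Complex.normSq_eq_norm_sq, ha.ζ_one j]
    norm_num
  have x1 : cexp (((th y y' ρ * (π / 2 + 2 * π * j) : ℝ) : ℂ) * I) =
      cexp ((((π / 2) * th y y' ρ : ℝ) : ℂ) * I) * cexp ((2 * π * j * th y y' ρ : ℝ) * I) := by
    rw [← Complex.exp_add]; congr 1; push_cast; ring
  have x2 : cexp (((th y y' ρ * (π / 2 + 2 * π * j - (π - δ)) : ℝ) : ℂ) * I) =
      cexp ((((π / 2) * th y y' ρ : ℝ) : ℂ) * I) * cexp ((2 * π * j * th y y' ρ : ℝ) * I) *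
      cexp (-(((th y y' ρ * (π - δ) : ℝ) : ℂ) * I)) := by
    rw [← Complex.exp_add, ← Complex.exp_add]; congr 1; push_cast; ring
  rw [x1, x2]
  unfold br
  generalize cexp ((((π / 2) * th y y' ρ : ℝ) : ℂ) * I) = E1
  generalize cexp ((2 * π * j * th y y' ρ : ℝ) * I) = E2
  generalize cexp (-(((th y y' ρ * (π - δ) : ℝ) : ℂ) * I)) = E3
  simp only [map_mul, Complex.conj_ofReal, Complex.ofReal_mul]
  linear_combination (a j y * conj (a j y') * (Real.sqrt ((1 - cf y) / 2) : ℂ) *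
    (Real.sqrt ((1 - cf y') / 2) : ℂ) * ((wt ρ : ℂ) * (k (ρ - y) * k (y' - ρ)) *
    (E1 * E2))) * hζ

end Pool.Agent.Helper34.HRV
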