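import Pool.Agent.Helper34.HRV.Defs
import Pool.Agent.Helper34.HRV.St.C1
import Pool.Agent.Helper34.HRV.St.C2
import Pool.Agent.Helper34.HRV.St.O1
import Pool.Agent.Helper34.HRV.St.O2
import Pool.Agent.Helper34.HRV.St.O3
import Pool.Agent.Helper34.HRV.St.O4
import Pool.Agent.Helper34.HRV.St.S1

/-! HRV piece S3 (project HRT, MP_2370de_an; hints: `/team-store/HRV_hints.md`). Replace the `sorry`s in place. -/

set_option autoImplicit false

open MeasureTheory Complex Set
open scoped ComplexConjugate Real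

namespace Pool.Agent.Helper34.HRV

namespace S3

lemma norm_e (x : ℝ) : ‖cexp ((x : ℂ) * I)‖ = 1 := Complex.norm_exp_ofReal_mul_I x

lemma norm_em (x : ℝ) : ‖cexp (-((x : ℂ) * I))‖ = 1 := by
  have : (-((x : ℂ) * I)) = ((-x : ℝ) : ℂ) * I := by push_cast; ring
  rw [this]; exact norm_e _

lemma th_cont (y y' : ℝ) : Continuous (th y y') := by
  have hc : Continuous cc := cc_facts.2.2.2.2.2
  unfold th
  exact (hc.comp (continuous_id.sub continuous_const)).add
    (hc.comp (continuous_id.sub continuous_const))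

lemma th_bd (y y' ρ : ℝ) : |th y y' ρ| ≤ 2 := by
  have h1 := cc_facts.2.2.1 (ρ - y)
  have h2 := cc_facts.2.2.1 (ρ - y')
  unfold th
  rw [abs_of_nonneg (by linarith [h1.1, h2.1])]
  linarith [h1.2, h2.2]

lemma F_cont (c : ℤ → ℂ) (hs : Summable fun k => ‖c k‖) (y y' : ℝ) :
    Continuous fun ρ => ‖∑' j : ℤ, c j * cexp ((2 * π * j * th y y' ρ : ℝ) * I)‖ := by
  refine Continuous.norm ?_
  refine continuous_tsum (u := fun j => ‖c j‖) ?_ hs ?_
  · intro j
    refine continuous_const.mul (Complex.continuous_exp.comp ?_)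
    refine (Complex.continuous_ofReal.comp ?_).mul continuous_const
    exact continuous_const.mul (th_cont y y')
  · intro j ρ
    rw [norm_mul, norm_e, mul_one]

lemma F_le (c : ℤ → ℂ) (hs : Summable fun k => ‖c k‖) (N : ℝ) (hN : ∑' k, ‖c k‖ ≤ N)
    (y y' ρ : ℝ) :
    ‖∑' j : ℤ, c j * cexp ((2 * π * j * th y y' ρ : ℝ) * I)‖ ≤ N := by
  refine le_trans (norm_tsum_le_tsum_norm ?_) ?_
  · refine hs.congr ?_
    intro j
    rw [norm_mul, norm_e, mul_one]
  · refine le_trans (le_of_eq ?_) hN
    refine tsum_congr ?_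
    intro j
    rw [norm_mul, norm_e, mul_one]

lemma Dm_sub (y y' : ℝ) : Dm y y' ⊆ Icc (1 / 2 + max y y') (3 / 2 + min y y') := by
  unfold Dm; exact Ioo_subset_Icc_self

lemma wy_int (y y' : ℝ) (hy : |y| ≤ 1 / 20) (hy' : |y'| ≤ 1 / 20) (F : ℝ → ℝ)
    (hF : Continuous F) :
    IntegrableOn (fun ρ => wy y y' ρ * F ρ) (Dm y y') := by
  obtain ⟨w0, hw0, hw⟩ := wy_facts
  refine IntegrableOn.mono_set ?_ (Dm_sub y y')
  refine ContinuousOn.integrableOn_compact isCompact_Icc ?_
  refine ContinuousOn.mul ?_ hF.continuousOn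
  intro ρ hρ
  exact (hw y y' ρ hy hy' hρ).2.2.2.2.2.2.1.continuousWithinAt

end S3

/-- S3. Sum over the dimers: bound of the main term for fixed `y, y'`. -/
theorem inner_bound : ∃ h C : ℝ, 0 < h ∧ h < 1 ∧ 0 < C ∧ ∀ (M δ : ℝ) (k : ℝ → ℂ) (cf : ℝ → ℝ)
    (ζ : ℤ → ℂ) (a : ℤ → ℝ → ℂ), Ker M k → |δ| ≤ 1 / 100 → Fib cf ζ a → ∀ y y' : ℝ,
    |y| < 1 / 20 → |y'| < 1 / 20 →
    ∫ ρ in Ioo (0 : ℝ) 2, ‖(wt ρ : ℂ) * (k (ρ - y) * k (y' - ρ)) *
        br δ (th y y' ρ) (cf y) (cf y')‖ *
        ‖∑' j : ℤ, a j y * conj (a j y') * cexp ((2 * π * j * th y y' ρ : ℝ) * I)‖ ≤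
      M ^ 2 * (W0 * (An a y * An a y' - (1 - h) / 2 * (An a y * An a y' -
        ∑' j, ‖a j y‖ ^ 2 / An a y * (‖a j y'‖ ^ 2 / An a y'))) +
        C * (|cf y| + |cf y'| + |y| + |y'| + |δ|) * (An a y * An a y')) := by
  obtain ⟨h, hh0, hh1, hosc⟩ := osc
  obtain ⟨hW0, C0, hC0, hWn⟩ := Wy_near
  obtain ⟨w0, hw0, hwy⟩ := wy_facts
  refine ⟨h, C0 + 6, hh0, hh1, by linarith, ?_⟩
  intro M δ k cf ζ a hk hδ ha y y' hy hy'
  obtain ⟨-, -, -, hle, -, hsum, hsumle, -, -, -, -⟩ := fib_facts ha
  have hAn0 : ∀ z, 0 ≤ An a z := fun z => Real.sqrt_nonneg _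
  have hM : 0 ≤ M := le_trans (norm_nonneg _) (hk.bd 0)
  set c : ℤ → ℂ := fun j => a j y * conj (a j y') with hc
  have hcn : ∀ j, ‖c j‖ = ‖a j y‖ * ‖a j y'‖ := by
    intro j; simp [hc]
  have hcs : Summable fun j => ‖c j‖ := by
    simp_rw [hcn]; exact hsum y y'
  have hcN : ∑' j, ‖c j‖ ≤ An a y * An a y' := by
    simp_rw [hcn]; exact hsumle y y'
  by_cases hN : An a y * An a y' = 0
  · have hz : ∀ j, c j = 0 := by
      intro j
      have h1 := hle j y
      have h2 := hle j y'
      rcases mul_eq_zero.mp hN with h3 | h3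
      · have : a j y = 0 := by
          rw [h3] at h1; exact norm_le_zero_iff.mp h1
        simp [hc, this]
      · have : a j y' = 0 := by
          rw [h3] at h2; exact norm_le_zero_iff.mp h2
        simp [hc, this]
    have hS : ∑' j, ‖a j y‖ ^ 2 / An a y * (‖a j y'‖ ^ 2 / An a y') = 0 := by
      have : ∀ j, ‖a j y‖ ^ 2 / An a y * (‖a j y'‖ ^ 2 / An a y') = 0 := by
        intro j
        rw [div_mul_div_comm, hN, div_zero]
      simp [this]
    rw [hN, hS]
    have hI : (fun ρ => ‖(wt ρ : ℂ) * (k (ρ - y) * k (y' - ρ)) *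
        br δ (th y y' ρ) (cf y) (cf y')‖ *
        ‖∑' j : ℤ, a j y * conj (a j y') * cexp ((2 * π * j * th y y' ρ : ℝ) * I)‖) =
        fun _ => 0 := by
      funext ρ
      have : ∀ j : ℤ, a j y * conj (a j y') * cexp ((2 * π * j * th y y' ρ : ℝ) * I) = 0 := by
        intro j
        have := hz j
        simp only [hc] at this
        rw [this, zero_mul]
      rw [tsum_congr this, tsum_zero, norm_zero, mul_zero]
    rw [hI]
    simp
  · have hNpos : 0 < An a y * An a y' :=
      lt_of_le_of_ne (mul_nonneg (hAn0 y) (hAn0 y')) (Ne.symm hN)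
    set N : ℝ := An a y * An a y' with hNdef
    set F : ℝ → ℝ := fun ρ => ‖∑' j : ℤ, c j * cexp ((2 * π * j * th y y' ρ : ℝ) * I)‖ with hF
    have hFc : Continuous F := S3.F_cont c hcs y y'
    have hFle : ∀ ρ, F ρ ≤ N := fun ρ => S3.F_le c hcs N hcN y y' ρ
    have hF0 : ∀ ρ, 0 ≤ F ρ := fun ρ => norm_nonneg _
    have hS : ∑' j, ‖a j y‖ ^ 2 / An a y * (‖a j y'‖ ^ 2 / An a y') = (∑' j, ‖c j‖ ^ 2) / N := by
      rw [← tsum_div_const]
      refine tsum_congr ?_
      intro j
      rw [hcn, div_mul_div_comm, mul_pow]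
    rw [hS]
    set S : ℝ := (∑' j, ‖c j‖ ^ 2) / N with hSdef
    have hS0 : 0 ≤ S := div_nonneg (tsum_nonneg fun j => sq_nonneg _) hNpos.le
    set E : ℝ := 2 * (|cf y| + |cf y'|) + 2 * |δ| with hE
    have hE0 : 0 ≤ E := by positivity
    have havg : ∫ ρ in Dm y y', wy y y' ρ * F ρ ≤
        (Wy y y') * (N - (1 - h) / 2 * (N - S)) := by
      refine avg (volume.restrict (Dm y y')) (wy y y') (th y y') h N ?_ ?_
        (S3.th_cont y y').measurable hh0.le hh1.le ?_ c hNpos hcs hcN
      · refine ae_restrict_of_forall_mem measurableSet_Ioo ?_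
        intro ρ hρ
        exact hw0.le.trans (hwy y y' ρ hy.le hy'.le (S3.Dm_sub y y' hρ)).1
      · have := S3.wy_int y y' hy.le hy'.le (fun _ => 1) continuous_const
        simpa [IntegrableOn] using this
      · intro j hj
        exact hosc y y' hy.le hy'.le j hj
    -- length of the domain
    have hlen : volume.real (Dm y y') ≤ 1 := by
      unfold Dm
      rw [Real.volume_real_Ioo]
      refine max_le ?_ zero_le_one
      have : min y y' ≤ max y y' := min_le_max
      linarith
    have hDfin : volume (Dm y y') ≠ ⊤ := by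
      unfold Dm; rw [Real.volume_Ioo]; exact ENNReal.ofReal_ne_top
    have hgi : IntegrableOn (fun ρ => M ^ 2 * (wy y y' ρ * F ρ) + M ^ 2 * (3 * E * N)) (Dm y y') := by
      refine Integrable.add ?_ ?_
      · exact (S3.wy_int y y' hy.le hy'.le F hFc).const_mul _
      · exact integrableOn_const hDfin
    have hDm : MeasurableSet (Dm y y') := measurableSet_Ioo
    have hmain : ∫ ρ in Ioo (0 : ℝ) 2, ‖(wt ρ : ℂ) * (k (ρ - y) * k (y' - ρ)) *
        br δ (th y y' ρ) (cf y) (cf y')‖ *
        ‖∑' j : ℤ, a j y * conj (a j y') * cexp ((2 * π * j * th y y' ρ : ℝ) * I)‖ ≤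
        ∫ ρ in Ioo (0 : ℝ) 2, (Dm y y').indicator
          (fun ρ => M ^ 2 * (wy y y' ρ * F ρ) + M ^ 2 * (3 * E * N)) ρ := by
      refine integral_mono_of_nonneg ?_ ?_ ?_
      · exact Filter.Eventually.of_forall fun ρ => mul_nonneg (norm_nonneg _) (norm_nonneg _)
      · exact ((integrable_indicator_iff hDm).mpr hgi).integrableOn
      · refine ae_restrict_of_forall_mem measurableSet_Ioo ?_
        intro ρ hρ
        by_cases hD : ρ ∈ Dm y y'
        · rw [indicator_of_mem hD]
          obtain ⟨-, -, hwt0, hwt3, -, hsin, -, -⟩ := hwy y y' ρ hy.le hy'.le (S3.Dm_sub y y' hD)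
          have hbr : ‖br δ (th y y' ρ) (cf y) (cf y')‖ ≤ Real.sin (π * th y y' ρ / 2) + E := by
            have hb := bracket δ (th y y' ρ) (cf y) (cf y') (ha.cf_le y) (ha.cf_le y')
              (S3.th_bd y y' ρ)
            have h1 : ‖I * cexp (-(((π * th y y' ρ / 2 : ℝ) : ℂ) * I)) *
                (Real.sin (π * th y y' ρ / 2) : ℂ)‖ = Real.sin (π * th y y' ρ / 2) := by
              rw [norm_mul, norm_mul, Complex.norm_I, S3.norm_em, Complex.norm_real,
                Real.norm_eq_abs, abs_of_nonneg hsin]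
              ring
            calc ‖br δ (th y y' ρ) (cf y) (cf y')‖
                = ‖(I * cexp (-(((π * th y y' ρ / 2 : ℝ) : ℂ) * I)) *
                (Real.sin (π * th y y' ρ / 2) : ℂ)) + (br δ (th y y' ρ) (cf y) (cf y') -
                  I * cexp (-(((π * th y y' ρ / 2 : ℝ) : ℂ) * I)) *
                (Real.sin (π * th y y' ρ / 2) : ℂ))‖ := by congr 1; ring
              _ ≤ _ := norm_add_le _ _
              _ ≤ Real.sin (π * th y y' ρ / 2) + E := by rw [h1]; linarith
          have hk1 : ‖(wt ρ : ℂ) * (k (ρ - y) * k (y' - ρ))‖ ≤ wt ρ * M ^ 2 := by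
            rw [norm_mul, norm_mul, Complex.norm_real, Real.norm_eq_abs, abs_of_nonneg hwt0]
            have := mul_le_mul (hk.bd (ρ - y)) (hk.bd (y' - ρ)) (norm_nonneg _) hM
            calc wt ρ * (‖k (ρ - y)‖ * ‖k (y' - ρ)‖) ≤ wt ρ * (M * M) :=
                  mul_le_mul_of_nonneg_left this hwt0
              _ = _ := by ring
          have hkb : ‖(wt ρ : ℂ) * (k (ρ - y) * k (y' - ρ)) *
              br δ (th y y' ρ) (cf y) (cf y')‖ ≤
              wt ρ * M ^ 2 * (Real.sin (π * th y y' ρ / 2) + E) := by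
            rw [norm_mul]
            exact mul_le_mul hk1 hbr (norm_nonneg _) (by positivity)
          have hFF : ‖∑' j : ℤ, a j y * conj (a j y') *
              cexp ((2 * π * j * th y y' ρ : ℝ) * I)‖ = F ρ := rfl
          show ‖(wt ρ : ℂ) * (k (ρ - y) * k (y' - ρ)) *
              br δ (th y y' ρ) (cf y) (cf y')‖ * ‖∑' j : ℤ, a j y * conj (a j y') *
              cexp ((2 * π * j * th y y' ρ : ℝ) * I)‖ ≤ _
          rw [hFF]
          calc ‖(wt ρ : ℂ) * (k (ρ - y) * k (y' - ρ)) *
              br δ (th y y' ρ) (cf y) (cf y')‖ * F ρ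
              ≤ (wt ρ * M ^ 2 * (Real.sin (π * th y y' ρ / 2) + E)) * F ρ :=
                mul_le_mul_of_nonneg_right hkb (hF0 ρ)
            _ = M ^ 2 * (wy y y' ρ * F ρ) + M ^ 2 * (wt ρ * E * F ρ) := by
                unfold wy; ring
            _ ≤ M ^ 2 * (wy y y' ρ * F ρ) + M ^ 2 * (3 * E * N) := by
                have h2 : wt ρ * E * F ρ ≤ 3 * E * N :=
                  mul_le_mul (mul_le_mul_of_nonneg_right hwt3 hE0) (hFle ρ) (hF0 ρ)
                    (by positivity)
                have h3 := mul_le_mul_of_nonneg_left h2 (sq_nonneg M)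
                linarith
        · rw [indicator_of_notMem hD]
          have hzero : k (ρ - y) * k (y' - ρ) = 0 := by
            by_contra hne
            have hk1 : k (ρ - y) ≠ 0 := left_ne_zero_of_mul hne
            have hk2 : k (y' - ρ) ≠ 0 := right_ne_zero_of_mul hne
            have h1 := hk.supp _ hk1
            have h2 := hk.supp _ hk2
            apply hD
            have hy2 := abs_lt.mp hy
            have hy2' := abs_lt.mp hy'
            have h3 : 1 / 2 < ρ - y := by
              rcases le_or_gt 0 (ρ - y) with h | h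
              · rw [abs_of_nonneg h] at h1; exact h1.1
              · rw [abs_of_neg h] at h1; linarith [h1.1, hρ.1]
            have h4 : ρ - y < 3 / 2 := (le_abs_self _).trans_lt h1.2
            have h5 : 1 / 2 < ρ - y' := by
              rcases le_or_gt 0 (ρ - y') with h | h
              · have : |y' - ρ| = ρ - y' := by rw [abs_sub_comm, abs_of_nonneg h]
                rw [this] at h2; exact h2.1
              · have : |y' - ρ| = y' - ρ := abs_of_pos (by linarith)
                rw [this] at h2; linarith [h2.1, hρ.1]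
            have h6 : ρ - y' < 3 / 2 := by
              have := (neg_le_abs (y' - ρ)).trans_lt h2.2
              linarith
            constructor
            · rcases max_choice y y' with h | h <;> rw [h] <;> linarith
            · rcases min_choice y y' with h | h <;> rw [h] <;> linarith
          simp [hzero]
    have hind : ∫ ρ in Ioo (0 : ℝ) 2, (Dm y y').indicator
          (fun ρ => M ^ 2 * (wy y y' ρ * F ρ) + M ^ 2 * (3 * E * N)) ρ =
        ∫ ρ in Dm y y', (M ^ 2 * (wy y y' ρ * F ρ) + M ^ 2 * (3 * E * N)) := by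
      rw [setIntegral_indicator hDm]
      congr 2
      refine inter_eq_right.mpr ?_
      intro ρ hρ
      have hy2 := abs_lt.mp hy
      have hy2' := abs_lt.mp hy'
      constructor
      · have := hρ.1
        have := le_max_left y y'
        linarith
      · have := hρ.2
        have := min_le_left y y'
        linarith
    have hval : ∫ ρ in Dm y y', (M ^ 2 * (wy y y' ρ * F ρ) + M ^ 2 * (3 * E * N)) ≤
        M ^ 2 * ((Wy y y') * (N - (1 - h) / 2 * (N - S))) + M ^ 2 * (3 * E * N) := by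
      rw [integral_add ((S3.wy_int y y' hy.le hy'.le F hFc).const_mul _) (integrableOn_const hDfin),
        integral_const_mul, setIntegral_const, smul_eq_mul]
      refine add_le_add (mul_le_mul_of_nonneg_left havg (sq_nonneg M)) ?_
      have : 0 ≤ M ^ 2 * (3 * E * N) := by positivity
      nlinarith
    have hNS : S ≤ N := by
      rw [hSdef, div_le_iff₀ hNpos]
      have h1 : ∀ j, ‖c j‖ ^ 2 ≤ ‖c j‖ * N := by
        intro j
        rw [sq]
        refine mul_le_mul_of_nonneg_left ?_ (norm_nonneg _)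
        exact (hcs.le_tsum j (fun i _ => norm_nonneg _)).trans hcN
      have hs2 : Summable fun j => ‖c j‖ ^ 2 :=
        Summable.of_nonneg_of_le (fun j => sq_nonneg _) h1 (hcs.mul_right N)
      calc ∑' j, ‖c j‖ ^ 2 ≤ ∑' j, ‖c j‖ * N := hs2.tsum_le_tsum h1 (hcs.mul_right N)
        _ = (∑' j, ‖c j‖) * N := tsum_mul_right
        _ ≤ N * N := mul_le_mul_of_nonneg_right hcN hNpos.le
    have hB0 : 0 ≤ N - (1 - h) / 2 * (N - S) := by
      nlinarith
    have hBN : N - (1 - h) / 2 * (N - S) ≤ N := by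
      nlinarith
    have hW : Wy y y' ≤ W0 + C0 * (|y| + |y'|) := by
      have := (abs_le.mp (hWn y y' hy.le hy'.le)).2
      linarith
    have hfin : (Wy y y') * (N - (1 - h) / 2 * (N - S)) ≤
        W0 * (N - (1 - h) / 2 * (N - S)) + C0 * (|y| + |y'|) * N := by
      have h1 := mul_le_mul_of_nonneg_right hW hB0
      have h2 : C0 * (|y| + |y'|) * (N - (1 - h) / 2 * (N - S)) ≤ C0 * (|y| + |y'|) * N :=
        mul_le_mul_of_nonneg_left hBN (by positivity)
      linarith
    refine hmain.trans ?_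
    rw [hind]
    refine hval.trans ?_
    rw [← mul_add]
    refine mul_le_mul_of_nonneg_left ?_ (sq_nonneg M)
    have h3 : 3 * E * N ≤ 6 * (|cf y| + |cf y'| + |y| + |y'| + |δ|) * N := by
      refine mul_le_mul_of_nonneg_right ?_ hNpos.le
      have := abs_nonneg y
      have := abs_nonneg y'
      rw [hE]; linarith
    have h4 : C0 * (|y| + |y'|) * N ≤ C0 * (|cf y| + |cf y'| + |y| + |y'| + |δ|) * N := by
      refine mul_le_mul_of_nonneg_right ?_ hNpos.le
      refine mul_le_mul_of_nonneg_left ?_ hC0.le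
      have := abs_nonneg (cf y)
      have := abs_nonneg (cf y')
      have := abs_nonneg δ
      linarith
    linarith

end Pool.Agent.Helper34.HRV
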