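import Pool.Agent.Helper34.HRV.St.C1
import Pool.Agent.Helper34.HRV.St.C2
import Pool.Agent.Helper34.HRV.St.L5
import Pool.Agent.Helper34.HRV.St.L6
import Pool.Agent.Helper34.HRV.St.S1
import Pool.Agent.Helper34.HRV.St.S1b
import Pool.Agent.Helper34.HRV.St.S2
import Pool.Agent.Helper34.HRV.St.S3

set_option autoImplicit false

open MeasureTheory Complex Set
open scoped ComplexConjugate Real

namespace Pool.Agent.Helper34.HRV

theorem hasSum_parity {f : ℤ → ℝ} {A B : ℝ} (h1 : HasSum (fun j : ℤ => f (2 * j)) A)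
    (h2 : HasSum (fun j : ℤ => f (2 * j - 1)) B) : HasSum f (A + B) := by
  have e1 : Function.Injective (fun j : ℤ => 2 * j) := fun a b h => by simpa using h
  have e2 : Function.Injective (fun j : ℤ => 2 * j - 1) := fun a b h => by simpa using h
  have h1' : HasSum (fun n : ℤ => if Even n then f n else 0) A := by
    rw [← e1.hasSum_iff]
    · convert h1 using 2 with j
      simp
    · intro n hn
      have : ¬ Even n := by
        rintro ⟨m, hm⟩
        exact hn ⟨m, by simp; omega⟩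
      simp [this]
  have h2' : HasSum (fun n : ℤ => if Even n then 0 else f n) B := by
    rw [← e2.hasSum_iff]
    · convert h2 using 2 with j
      have : ¬ Even (2 * j - 1) := by
        rintro ⟨m, hm⟩
        omega
      simp [this]
    · intro n hn
      have : Even n := by
        by_contra hne
        rw [Int.not_even_iff_odd] at hne
        obtain ⟨m, hm⟩ := hne
        exact hn ⟨m + 1, by simp; omega⟩
      simp [this]
  convert h1'.add h2' using 2 with n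
  by_cases hn : Even n <;> simp [hn]

theorem even_two (j : ℤ) : Even (2 * j) := even_two_mul j

theorem not_even_two (j : ℤ) : ¬ Even (2 * j - 1) := by
  rintro ⟨m, hm⟩
  omega

theorem fl_even (cf : ℝ → ℝ) (ζ : ℤ → ℂ) (a : ℤ → ℝ → ℂ) (j : ℤ) (y : ℝ) :
    fl cf ζ a (2 * j) y = ζ j * (Real.sqrt ((1 - cf y) / 2) : ℂ) * a j y := by
  have h : 2 * j / 2 = j := by omega
  simp [fl, even_two j, h]

theorem fl_odd (cf : ℝ → ℝ) (ζ : ℤ → ℂ) (a : ℤ → ℝ → ℂ) (j : ℤ) (y : ℝ) :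
    fl cf ζ a (2 * j - 1) y = (Real.sqrt ((1 + cf y) / 2) : ℂ) * a j y := by
  have h : (2 * j - 1 + 1) / 2 = j := by omega
  simp only [fl, not_even_two j, if_false, h]

theorem sqrt_half_le {x : ℝ} (hx : |x| ≤ 1) : Real.sqrt ((1 - x) / 2) ≤ 1 ∧
    Real.sqrt ((1 + x) / 2) ≤ 1 := by
  rw [abs_le] at hx
  constructor
  · exact Real.sqrt_le_iff.2 ⟨zero_le_one, by linarith [hx.1]⟩
  · exact Real.sqrt_le_iff.2 ⟨zero_le_one, by linarith [hx.2]⟩

variable {cf : ℝ → ℝ} {ζ : ℤ → ℂ} {a : ℤ → ℝ → ℂ}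

theorem norm_fl_even (ha : Fib cf ζ a) (j : ℤ) (y : ℝ) : ‖fl cf ζ a (2 * j) y‖ ≤ ‖a j y‖ := by
  rw [fl_even, norm_mul, norm_mul, ha.ζ_one, one_mul, Complex.norm_real, Real.norm_eq_abs,
    abs_of_nonneg (Real.sqrt_nonneg _)]
  exact mul_le_of_le_one_left (norm_nonneg _) (sqrt_half_le (ha.cf_le y)).1

theorem norm_fl_odd (ha : Fib cf ζ a) (j : ℤ) (y : ℝ) : ‖fl cf ζ a (2 * j - 1) y‖ ≤ ‖a j y‖ := by
  rw [fl_odd, norm_mul, Complex.norm_real, Real.norm_eq_abs,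
    abs_of_nonneg (Real.sqrt_nonneg _)]
  exact mul_le_of_le_one_left (norm_nonneg _) (sqrt_half_le (ha.cf_le y)).2

theorem norm_br_le (δ θ : ℝ) {x x' : ℝ} (hx : |x| ≤ 1) (hx' : |x'| ≤ 1) : ‖br δ θ x x'‖ ≤ 2 := by
  unfold br
  refine (norm_sub_le _ _).trans ?_
  have h1 : ‖cexp (-(((θ * (π - δ) : ℝ) : ℂ) * I))‖ = 1 := by
    rw [← neg_mul, ← Complex.ofReal_neg, Complex.norm_exp_ofReal_mul_I]
  rw [norm_mul, h1, one_mul, Complex.norm_real, Complex.norm_real, Real.norm_eq_abs,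
    Real.norm_eq_abs, abs_of_nonneg (by positivity), abs_of_nonneg (by positivity)]
  have a1 := (sqrt_half_le hx).1
  have a2 := (sqrt_half_le hx').1
  have a3 := (sqrt_half_le hx).2
  have a4 := (sqrt_half_le hx').2
  have b1 : Real.sqrt ((1 - x) / 2) * Real.sqrt ((1 - x') / 2) ≤ 1 :=
    mul_le_one₀ a1 (Real.sqrt_nonneg _) a2
  have b2 : Real.sqrt ((1 + x) / 2) * Real.sqrt ((1 + x') / 2) ≤ 1 :=
    mul_le_one₀ a3 (Real.sqrt_nonneg _) a4
  linarith

/-- effective support in `ρ` -/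
theorem wt_supp {M : ℝ} {k : ℝ → ℂ} (hk : Ker M k) {y y' ρ : ℝ} (hy : |y| < 1 / 20)
    (hy' : |y'| < 1 / 20) (hρ : ρ ∈ Ioo (0 : ℝ) 2) (h1 : k (ρ - y) ≠ 0) (h2 : k (y' - ρ) ≠ 0) :
    ρ ∈ Dm y y' := by
  have s1 := hk.supp _ h1
  have s2 := hk.supp _ h2
  rw [abs_lt] at hy hy'
  rw [lt_abs, abs_lt] at s1 s2
  obtain ⟨hρ0, hρ2⟩ := hρ
  constructor
  · have : max y y' < ρ - 1 / 2 := by
      rw [max_lt_iff]
      constructor
      · rcases s1.1 with h | h <;> linarith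
      · rcases s2.1 with h | h <;> linarith
    linarith
  · have : ρ - 3 / 2 < min y y' := by
      rw [lt_min_iff]
      constructor <;> linarith [s1.2.2, s2.2.1]
    linarith



@[fun_prop]
theorem measurable_cc : Measurable cc := cc_facts.2.2.2.2.2.measurable

@[fun_prop]
theorem measurable_wt : Measurable wt := by
  unfold wt
  fun_prop

/-- the scalar kernel of the main term -/
noncomputable def KK (k : ℝ → ℂ) (δ : ℝ) (cf : ℝ → ℝ) (z : ℝ × ℝ × ℝ) : ℂ :=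
  (wt z.2.2 : ℂ) * (k (z.2.2 - z.1) * k (z.2.1 - z.2.2)) *
    br δ (th z.1 z.2.1 z.2.2) (cf z.1) (cf z.2.1)

theorem measurable_KK {k : ℝ → ℂ} {δ : ℝ} {cf : ℝ → ℝ} (hk : Measurable k) (hcf : Measurable cf) :
    Measurable (KK k δ cf) := by
  unfold KK br th
  fun_prop

/-- the `j`-th term -/
noncomputable def FF (k : ℝ → ℂ) (δ : ℝ) (cf : ℝ → ℝ) (a : ℤ → ℝ → ℂ) (j : ℤ) (z : ℝ × ℝ × ℝ) : ℂ :=
  KK k δ cf z * cexp ((((π / 2) * th z.1 z.2.1 z.2.2 : ℝ) : ℂ) * I) *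
    (a j z.1 * conj (a j z.2.1) * cexp ((2 * π * j * th z.1 z.2.1 z.2.2 : ℝ) * I))

theorem measurable_FF {k : ℝ → ℂ} {δ : ℝ} {cf : ℝ → ℝ} {a : ℤ → ℝ → ℂ} (hk : Measurable k)
    (hcf : Measurable cf) (ha : ∀ j, Measurable (a j)) (j : ℤ) : Measurable (FF k δ cf a j) := by
  have := measurable_KK (δ := δ) hk hcf
  have h2 := ha j
  unfold FF th
  have h3 : Measurable fun z : ℝ × ℝ × ℝ => conj (a j z.2.1) := by
    exact Complex.continuous_conj.measurable.comp (by fun_prop)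
  fun_prop



/-- the product measure -/
noncomputable def mu3 : Measure (ℝ × ℝ × ℝ) :=
  (volume : Measure ℝ).prod ((volume : Measure ℝ).prod (volume.restrict (Ioo (0 : ℝ) 2)))

theorem norm_KK_le {M δ : ℝ} {k : ℝ → ℂ} {cf : ℝ → ℝ} (hk : Ker M k) (hcf : ∀ y, |cf y| ≤ 1)
    {y y' ρ : ℝ} (hy : |y| < 1 / 20) (hy' : |y'| < 1 / 20) (hρ : ρ ∈ Ioo (0 : ℝ) 2) :
    ‖KK k δ cf (y, y', ρ)‖ ≤ 6 * M ^ 2 := by
  have hM : 0 ≤ M := (norm_nonneg _).trans (hk.bd 0)
  simp only [KK]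
  by_cases h1 : k (ρ - y) = 0
  · simp [h1]; positivity
  by_cases h2 : k (y' - ρ) = 0
  · simp [h2]; positivity
  have hD := wt_supp hk hy hy' hρ h1 h2
  obtain ⟨w0, _, hw⟩ := wy_facts
  have h := hw y y' ρ hy.le hy'.le ⟨hD.1.le, hD.2.le⟩
  rw [norm_mul, norm_mul, norm_mul, Complex.norm_real, Real.norm_eq_abs, abs_of_nonneg h.2.2.1]
  have b1 := hk.bd (ρ - y)
  have b2 := hk.bd (y' - ρ)
  have b3 := norm_br_le δ (th y y' ρ) (hcf y) (hcf y')
  have b4 := h.2.2.2.1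
  calc wt ρ * (‖k (ρ - y)‖ * ‖k (y' - ρ)‖) * ‖br δ (th y y' ρ) (cf y) (cf y')‖
      ≤ 3 * (M * M) * 2 := by
        have := h.2.2.1
        gcongr
    _ = 6 * M ^ 2 := by ring

theorem norm_e (x : ℝ) : ‖cexp ((x : ℂ) * I)‖ = 1 := Complex.norm_exp_ofReal_mul_I x

theorem norm_FF {k : ℝ → ℂ} {δ : ℝ} {cf : ℝ → ℝ} {a : ℤ → ℝ → ℂ} (j : ℤ) (z : ℝ × ℝ × ℝ) :
    ‖FF k δ cf a j z‖ = ‖KK k δ cf z‖ * (‖a j z.1‖ * ‖a j z.2.1‖) := by
  simp only [FF]
  rw [norm_mul, norm_mul, norm_e, norm_mul, norm_e, norm_mul, RCLike.norm_conj]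
  ring

theorem norm_FF_le {M δ : ℝ} {k : ℝ → ℂ} (hk : Ker M k) (ha : Fib cf ζ a) (j : ℤ)
    {z : ℝ × ℝ × ℝ} (hρ : z.2.2 ∈ Ioo (0 : ℝ) 2) :
    ‖FF k δ cf a j z‖ ≤ 6 * M ^ 2 * (‖a j z.1‖ * ‖a j z.2.1‖) := by
  rw [norm_FF]
  by_cases h1 : a j z.1 = 0
  · simp [h1]
  by_cases h2 : a j z.2.1 = 0
  · simp [h2]
  have := norm_KK_le (δ := δ) hk ha.cf_le (ha.a_supp j _ h1) (ha.a_supp j _ h2) hρ
  gcongr

theorem ae_mu3 : ∀ᵐ z ∂mu3, z.2.2 ∈ Ioo (0 : ℝ) 2 := by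
  have h1 : ∀ᵐ ρ ∂((volume : Measure ℝ).restrict (Ioo (0 : ℝ) 2)), ρ ∈ Ioo (0 : ℝ) 2 :=
    ae_restrict_mem measurableSet_Ioo
  have h2 : ∀ᵐ z ∂((volume : Measure ℝ).prod ((volume : Measure ℝ).restrict (Ioo (0 : ℝ) 2))),
      z.2 ∈ Ioo (0 : ℝ) 2 := Measure.quasiMeasurePreserving_snd.ae h1
  exact Measure.quasiMeasurePreserving_snd.ae h2

theorem integrable_FF {M δ : ℝ} {k : ℝ → ℂ} (hk : Ker M k) (ha : Fib cf ζ a) (j : ℤ) :
    Integrable (FF k δ cf a j) mu3 := by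
  have hi := (fib_facts ha).2.2.2.2.1 j
  have hb : Integrable (fun z : ℝ × ℝ × ℝ => 6 * M ^ 2 * (‖a j z.1‖ * ‖a j z.2.1‖)) mu3 := by
    have h1 : Integrable (fun z : ℝ × ℝ => ‖a j z.1‖ * (1 : ℝ))
        ((volume : Measure ℝ).prod (volume.restrict (Ioo (0 : ℝ) 2))) :=
      Integrable.mul_prod (f := fun y => ‖a j y‖) (g := fun _ : ℝ => (1 : ℝ)) hi.norm
        (integrable_const _)
    have h2 := Integrable.mul_prod (f := fun y => ‖a j y‖) hi.norm h1
    refine (h2.const_mul (6 * M ^ 2)).congr (ae_of_all _ fun z => ?_)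
    simp
  refine hb.mono' (measurable_FF hk.meas ha.cf_meas ha.a_meas j).aestronglyMeasurable ?_
  filter_upwards [ae_mu3] with z hz
  exact norm_FF_le hk ha j hz

theorem integral_FF {M δ : ℝ} {k : ℝ → ℂ} (hk : Ker M k) (ha : Fib cf ζ a) (j : ℤ) :
    Zl k (Pt δ (2 * j)) (fl cf ζ a (2 * j)) - Zl k (Pt δ (2 * j - 1)) (fl cf ζ a (2 * j - 1)) =
      ∫ z, FF k δ cf a j z ∂mu3 := by
  rw [pair hk ha j, mu3, integral_prod _ (integrable_FF hk ha j)]
  have h := (integrable_FF (δ := δ) hk ha j).prod_right_ae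
  refine integral_congr_ae ?_
  filter_upwards [h] with y hy
  rw [integral_prod _ hy]
  rfl

theorem integral_norm_FF_le {M δ : ℝ} {k : ℝ → ℂ} (hk : Ker M k) (ha : Fib cf ζ a) (j : ℤ) :
    ∫ z, ‖FF k δ cf a j z‖ ∂mu3 ≤ 12 * M ^ 2 * (∫ y, ‖a j y‖) ^ 2 := by
  have hi := (fib_facts ha).2.2.2.2.1 j
  have h1 : Integrable (fun z : ℝ × ℝ => ‖a j z.1‖ * (1 : ℝ))
      ((volume : Measure ℝ).prod (volume.restrict (Ioo (0 : ℝ) 2))) :=
    Integrable.mul_prod (f := fun y => ‖a j y‖) (g := fun _ : ℝ => (1 : ℝ)) hi.norm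
      (integrable_const _)
  have h2 := Integrable.mul_prod (f := fun y => ‖a j y‖) hi.norm h1
  have hb : ∫ z, 6 * M ^ 2 * (‖a j z.1‖ * (‖a j z.2.1‖ * 1)) ∂mu3 = 12 * M ^ 2 * (∫ y, ‖a j y‖) ^ 2 := by
    rw [integral_const_mul, mu3]
    have e1 := integral_prod_mul (μ := (volume : Measure ℝ))
      (ν := (volume : Measure ℝ).prod (volume.restrict (Ioo (0 : ℝ) 2))) (fun y => ‖a j y‖)
      (fun z : ℝ × ℝ => ‖a j z.1‖ * (1 : ℝ))
    have e2 := integral_prod_mul (μ := (volume : Measure ℝ))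
      (ν := (volume.restrict (Ioo (0 : ℝ) 2))) (fun y => ‖a j y‖) (fun _ : ℝ => (1 : ℝ))
    rw [e1, e2]
    simp
    ring
  rw [← hb]
  refine integral_mono_ae (integrable_FF hk ha j).norm (h2.const_mul _) ?_
  filter_upwards [ae_mu3] with z hz
  simpa using norm_FF_le hk ha j hz

theorem hasSum_FF {M δ : ℝ} {k : ℝ → ℂ} (hk : Ker M k) (ha : Fib cf ζ a) :
    HasSum (fun j => ∫ z, FF k δ cf a j z ∂mu3) (∫ z, ∑' j, FF k δ cf a j z ∂mu3) := by
  refine hasSum_integral_of_summable_integral_norm (fun j => integrable_FF hk ha j) ?_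
  refine Summable.of_nonneg_of_le (fun j => integral_nonneg fun _ => norm_nonneg _)
    (fun j => integral_norm_FF_le hk ha j) ?_
  exact (fib_sums ha).2.2.2.1.mul_left _


/-- the sum over the dimers -/
noncomputable def SS (a : ℤ → ℝ → ℂ) (z : ℝ × ℝ × ℝ) : ℂ :=
  ∑' j : ℤ, a j z.1 * conj (a j z.2.1) * cexp ((2 * π * j * th z.1 z.2.1 z.2.2 : ℝ) * I)

theorem norm_tsum_FF {k : ℝ → ℂ} {δ : ℝ} (z : ℝ × ℝ × ℝ) :
    ‖∑' j, FF k δ cf a j z‖ = ‖KK k δ cf z‖ * ‖SS a z‖ := by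
  simp only [FF, SS]
  rw [tsum_mul_left, norm_mul, norm_mul, norm_e, mul_one]

theorem summable_SS (ha : Fib cf ζ a) (z : ℝ × ℝ × ℝ) : Summable fun j : ℤ =>
    a j z.1 * conj (a j z.2.1) * cexp ((2 * π * j * th z.1 z.2.1 z.2.2 : ℝ) * I) := by
  refine Summable.of_norm ?_
  have := (fib_facts ha).2.2.2.2.2.1 z.1 z.2.1
  refine this.congr fun j => ?_
  rw [norm_mul, norm_e, norm_mul, RCLike.norm_conj, mul_one]

theorem norm_SS_le (ha : Fib cf ζ a) (z : ℝ × ℝ × ℝ) : ‖SS a z‖ ≤ An a z.1 * An a z.2.1 := by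
  have h := fib_facts ha
  have h1 := h.2.2.2.2.2.1 z.1 z.2.1
  have h2 := h.2.2.2.2.2.2.1 z.1 z.2.1
  refine le_trans ?_ h2
  have h3 : (fun j : ℤ => ‖a j z.1 * conj (a j z.2.1) *
      cexp ((2 * π * j * th z.1 z.2.1 z.2.2 : ℝ) * I)‖) = fun j => ‖a j z.1‖ * ‖a j z.2.1‖ := by
    funext j
    rw [norm_mul, norm_e, norm_mul, RCLike.norm_conj, mul_one]
  have h4 := norm_tsum_le_tsum_norm (f := fun j : ℤ => a j z.1 * conj (a j z.2.1) *
      cexp ((2 * π * j * th z.1 z.2.1 z.2.2 : ℝ) * I)) (by rw [h3]; exact h1)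
  rw [h3] at h4
  exact h4

theorem measurable_SS (ha : Fib cf ζ a) : Measurable (SS a) := by
  have h1 : ∀ j : ℤ, Measurable fun z : ℝ × ℝ × ℝ =>
      a j z.1 * conj (a j z.2.1) * cexp ((2 * π * j * th z.1 z.2.1 z.2.2 : ℝ) * I) := by
    intro j
    have h2 := ha.a_meas j
    have h3 : Measurable fun z : ℝ × ℝ × ℝ => conj (a j z.2.1) :=
      Complex.continuous_conj.measurable.comp (by fun_prop)
    unfold th
    fun_prop
  refine measurable_of_tendsto_metrizable' (Filter.atTop : Filter (Finset ℤ))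
    (f := fun s z => ∑ j ∈ s, a j z.1 * conj (a j z.2.1) *
      cexp ((2 * π * j * th z.1 z.2.1 z.2.2 : ℝ) * I)) (fun s => ?_) ?_
  · exact Finset.measurable_sum s fun j _ => h1 j
  · rw [tendsto_pi_nhds]
    intro z
    exact (summable_SS ha z).hasSum

theorem integrable_prod2 {f g : ℝ → ℝ} (hf : Integrable f) (hg : Integrable g) :
    Integrable (fun z : ℝ × ℝ × ℝ => f z.1 * g z.2.1) mu3 := by
  have h1 : Integrable (fun z : ℝ × ℝ => g z.1 * (1 : ℝ))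
      ((volume : Measure ℝ).prod (volume.restrict (Ioo (0 : ℝ) 2))) :=
    Integrable.mul_prod (f := g) (g := fun _ : ℝ => (1 : ℝ)) hg (integrable_const _)
  have h2 := Integrable.mul_prod (f := f) hf h1
  refine h2.congr (ae_of_all _ fun z => ?_)
  simp

theorem integrable_GG {M δ : ℝ} {k : ℝ → ℂ} (hk : Ker M k) (ha : Fib cf ζ a) :
    Integrable (fun z => ‖KK k δ cf z‖ * ‖SS a z‖) mu3 := by
  have hA := (fib_facts ha).2.1
  refine ((integrable_prod2 hA hA).const_mul (6 * M ^ 2)).mono'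
    ((measurable_KK hk.meas ha.cf_meas).norm.mul (measurable_SS ha).norm).aestronglyMeasurable ?_
  filter_upwards [ae_mu3] with z hz
  rw [norm_mul, norm_norm, norm_norm]
  have hA0 : ∀ y, 0 ≤ An a y := fun y => Real.sqrt_nonneg _
  have h1 := norm_SS_le ha z
  by_cases h3 : An a z.1 = 0
  · rw [h3, zero_mul] at h1
    have : ‖SS a z‖ = 0 := le_antisymm h1 (norm_nonneg _)
    rw [this, h3]
    simp
  by_cases h4 : An a z.2.1 = 0
  · rw [h4, mul_zero] at h1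
    have : ‖SS a z‖ = 0 := le_antisymm h1 (norm_nonneg _)
    rw [this, h4]
    simp
  have hs := (fib_facts ha).2.2.1
  have := norm_KK_le (δ := δ) hk ha.cf_le (hs _ h3) (hs _ h4) hz
  calc ‖KK k δ cf z‖ * ‖SS a z‖ ≤ 6 * M ^ 2 * (An a z.1 * An a z.2.1) :=
    mul_le_mul this h1 (norm_nonneg _) (by positivity)

/-- the bound for fixed `y, y'` -/
noncomputable def BB (h C M δ : ℝ) (cf : ℝ → ℝ) (a : ℤ → ℝ → ℂ) (y y' : ℝ) : ℝ :=
  M ^ 2 * (W0 * (An a y * An a y' - (1 - h) / 2 * (An a y * An a y' -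
        ∑' j, ‖a j y‖ ^ 2 / An a y * (‖a j y'‖ ^ 2 / An a y'))) +
        C * (|cf y| + |cf y'| + |y| + |y'| + |δ|) * (An a y * An a y'))

/-- the cross sum -/
noncomputable def RR (a : ℤ → ℝ → ℂ) (z : ℝ × ℝ) : ℝ :=
  ∑' j, ‖a j z.1‖ ^ 2 / An a z.1 * (‖a j z.2‖ ^ 2 / An a z.2)

theorem qq_facts (ha : Fib cf ζ a) (y y' : ℝ) :
    (Summable fun j => ‖a j y‖ ^ 2 / An a y * (‖a j y'‖ ^ 2 / An a y')) ∧
    0 ≤ ∑' j, ‖a j y‖ ^ 2 / An a y * (‖a j y'‖ ^ 2 / An a y') ∧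
    ∑' j, ‖a j y‖ ^ 2 / An a y * (‖a j y'‖ ^ 2 / An a y') ≤ An a y * An a y' := by
  have hA0 : ∀ y, 0 ≤ An a y := fun y => Real.sqrt_nonneg _
  have hq := (fib_facts ha).2.2.2.2.2.2.2.2.2.1
  have h0 : ∀ j y, 0 ≤ ‖a j y‖ ^ 2 / An a y := fun j y => div_nonneg (by positivity) (hA0 y)
  have hle : ∀ j, ‖a j y'‖ ^ 2 / An a y' ≤ An a y' := fun j =>
    le_hasSum (hq y') j fun i _ => h0 i y'
  have hs : Summable fun j => ‖a j y‖ ^ 2 / An a y * An a y' := ((hq y).mul_right _).summable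
  have hs1 : Summable fun j => ‖a j y‖ ^ 2 / An a y * (‖a j y'‖ ^ 2 / An a y') :=
    Summable.of_nonneg_of_le (fun j => mul_nonneg (h0 j y) (h0 j y'))
      (fun j => mul_le_mul_of_nonneg_left (hle j) (h0 j y)) hs
  refine ⟨hs1, tsum_nonneg fun j => mul_nonneg (h0 j y) (h0 j y'), ?_⟩
  calc ∑' j, ‖a j y‖ ^ 2 / An a y * (‖a j y'‖ ^ 2 / An a y')
      ≤ ∑' j, ‖a j y‖ ^ 2 / An a y * An a y' :=
        hs1.tsum_le_tsum (fun j => mul_le_mul_of_nonneg_left (hle j) (h0 j y)) hs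
    _ = An a y * An a y' := ((hq y).mul_right _).tsum_eq

theorem RR_facts (ha : Fib cf ζ a) : Integrable (RR a) ((volume : Measure ℝ).prod volume) ∧
    ∫ z, RR a z ∂((volume : Measure ℝ).prod volume) = ∑' j, Qi a j ^ 2 := by
  have hA0 : ∀ y, 0 ≤ An a y := fun y => Real.sqrt_nonneg _
  have hf := fib_facts ha
  have hmA := hf.1
  have h0 : ∀ j y, 0 ≤ ‖a j y‖ ^ 2 / An a y := fun j y => div_nonneg (by positivity) (hA0 y)
  have hm : ∀ j, Measurable fun z : ℝ × ℝ => ‖a j z.1‖ ^ 2 / An a z.1 * (‖a j z.2‖ ^ 2 / An a z.2) := by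
    intro j
    have := ha.a_meas j
    fun_prop
  have hmR : Measurable (RR a) := by
    refine measurable_of_tendsto_metrizable' (Filter.atTop : Filter (Finset ℤ))
      (f := fun s z => ∑ j ∈ s, ‖a j z.1‖ ^ 2 / An a z.1 * (‖a j z.2‖ ^ 2 / An a z.2))
      (fun s => Finset.measurable_sum s fun j _ => hm j) ?_
    rw [tendsto_pi_nhds]
    intro z
    exact (qq_facts ha z.1 z.2).1.hasSum
  have hi : Integrable (RR a) ((volume : Measure ℝ).prod volume) := by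
    refine (Integrable.mul_prod (f := An a) (g := An a) hf.2.1 hf.2.1).mono'
      hmR.aestronglyMeasurable (ae_of_all _ fun z => ?_)
    have := qq_facts ha z.1 z.2
    rw [Real.norm_eq_abs, RR, abs_of_nonneg this.2.1]
    exact this.2.2
  refine ⟨hi, ?_⟩
  have hj : ∀ j, ∫ z : ℝ × ℝ, ‖a j z.1‖ ^ 2 / An a z.1 * (‖a j z.2‖ ^ 2 / An a z.2)
      ∂((volume : Measure ℝ).prod volume) = Qi a j ^ 2 := by
    intro j
    rw [integral_prod_mul (fun y => ‖a j y‖ ^ 2 / An a y) (fun y => ‖a j y‖ ^ 2 / An a y), sq]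
    rfl
  have hs := hasSum_integral_of_summable_integral_norm
    (μ := (volume : Measure ℝ).prod (volume : Measure ℝ))
    (F := fun j z => ‖a j z.1‖ ^ 2 / An a z.1 * (‖a j z.2‖ ^ 2 / An a z.2))
    (fun j => Integrable.mul_prod (f := fun y => ‖a j y‖ ^ 2 / An a y)
      (g := fun y => ‖a j y‖ ^ 2 / An a y) (hf.2.2.2.2.2.2.2.1 j) (hf.2.2.2.2.2.2.2.1 j)) ?_
  · exact hs.tsum_eq.symm.trans (tsum_congr hj)
  · have : (fun j => ∫ z : ℝ × ℝ, ‖‖a j z.1‖ ^ 2 / An a z.1 * (‖a j z.2‖ ^ 2 / An a z.2)‖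
      ∂((volume : Measure ℝ).prod volume)) = fun j => Qi a j ^ 2 := by
      funext j
      rw [← hj j]
      refine integral_congr_ae (ae_of_all _ fun z => ?_)
      exact Real.norm_of_nonneg (mul_nonneg (h0 j _) (h0 j _))
    rw [this]
    exact (fib_sums ha).2.1


theorem BB_facts {h C M δ : ℝ} (ha : Fib cf ζ a) :
    Integrable (fun z : ℝ × ℝ => BB h C M δ cf a z.1 z.2) ((volume : Measure ℝ).prod volume) ∧
    ∫ z : ℝ × ℝ, BB h C M δ cf a z.1 z.2 ∂((volume : Measure ℝ).prod volume) =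
      M ^ 2 * (W0 * (a1 a ^ 2 - (1 - h) / 2 * (a1 a ^ 2 - ∑' j, Qi a j ^ 2)) +
        C * (2 * (a1 a * ∫ y, (|cf y| + |y|) * An a y) + |δ| * a1 a ^ 2)) := by
  have hf := fib_facts ha
  have hA := hf.2.1
  have hmA := hf.1
  have hA0 : ∀ y, 0 ≤ An a y := fun y => Real.sqrt_nonneg _
  have hR := RR_facts ha
  have hw : Integrable fun y => (|cf y| + |y|) * An a y := by
    refine (hA.const_mul 2).mono' ?_ (ae_of_all _ fun y => ?_)
    · have := ha.cf_meas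
      have : Measurable fun y => (|cf y| + |y|) * An a y := by fun_prop
      exact this.aestronglyMeasurable
    · rw [norm_mul, Real.norm_of_nonneg (by positivity), Real.norm_of_nonneg (hA0 y)]
      by_cases h0 : An a y = 0
      · simp [h0]
      have h1 := hf.2.2.1 y h0
      have h2 := ha.cf_le y
      have h3 := hA0 y
      exact mul_le_mul_of_nonneg_right (by linarith) h3
  have i1 : Integrable (fun z : ℝ × ℝ => An a z.1 * An a z.2) ((volume : Measure ℝ).prod volume) :=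
    Integrable.mul_prod (f := An a) (g := An a) hA hA
  have i2 : Integrable (fun z : ℝ × ℝ => ((|cf z.1| + |z.1|) * An a z.1) * An a z.2)
      ((volume : Measure ℝ).prod volume) :=
    Integrable.mul_prod (f := fun y => (|cf y| + |y|) * An a y) (g := An a) hw hA
  have i3 : Integrable (fun z : ℝ × ℝ => An a z.1 * ((|cf z.2| + |z.2|) * An a z.2))
      ((volume : Measure ℝ).prod volume) :=
    Integrable.mul_prod (f := An a) (g := fun y => (|cf y| + |y|) * An a y) hA hw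
  have e1 : ∫ z : ℝ × ℝ, An a z.1 * An a z.2 ∂((volume : Measure ℝ).prod volume) = a1 a ^ 2 := by
    rw [integral_prod_mul (An a) (An a), sq]
    rfl
  have e2 : ∫ z : ℝ × ℝ, ((|cf z.1| + |z.1|) * An a z.1) * An a z.2
      ∂((volume : Measure ℝ).prod volume) = a1 a * ∫ y, (|cf y| + |y|) * An a y := by
    rw [integral_prod_mul (fun y => (|cf y| + |y|) * An a y) (An a), mul_comm]
    rfl
  have e3 : ∫ z : ℝ × ℝ, An a z.1 * ((|cf z.2| + |z.2|) * An a z.2)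
      ∂((volume : Measure ℝ).prod volume) = a1 a * ∫ y, (|cf y| + |y|) * An a y := by
    rw [integral_prod_mul (An a) (fun y => (|cf y| + |y|) * An a y)]
    rfl
  have key : (fun z : ℝ × ℝ => BB h C M δ cf a z.1 z.2) = fun z : ℝ × ℝ =>
      (M ^ 2 * (W0 * (1 - (1 - h) / 2) + C * |δ|)) * (An a z.1 * An a z.2) +
      (M ^ 2 * W0 * ((1 - h) / 2)) * RR a z +
      (M ^ 2 * C) * (((|cf z.1| + |z.1|) * An a z.1) * An a z.2) +
      (M ^ 2 * C) * (An a z.1 * ((|cf z.2| + |z.2|) * An a z.2)) := by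
    funext z
    simp only [BB, RR]
    ring
  rw [key]
  have j1 := i1.const_mul (M ^ 2 * (W0 * (1 - (1 - h) / 2) + C * |δ|))
  have j2 := hR.1.const_mul (M ^ 2 * W0 * ((1 - h) / 2))
  have j3 := i2.const_mul (M ^ 2 * C)
  have j4 := i3.const_mul (M ^ 2 * C)
  have j12 : Integrable (fun z : ℝ × ℝ =>
      (M ^ 2 * (W0 * (1 - (1 - h) / 2) + C * |δ|)) * (An a z.1 * An a z.2) +
      (M ^ 2 * W0 * ((1 - h) / 2)) * RR a z) ((volume : Measure ℝ).prod volume) := j1.add j2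
  have j123 : Integrable (fun z : ℝ × ℝ =>
      (M ^ 2 * (W0 * (1 - (1 - h) / 2) + C * |δ|)) * (An a z.1 * An a z.2) +
      (M ^ 2 * W0 * ((1 - h) / 2)) * RR a z +
      (M ^ 2 * C) * (((|cf z.1| + |z.1|) * An a z.1) * An a z.2))
      ((volume : Measure ℝ).prod volume) := j12.add j3
  refine ⟨j123.add j4, ?_⟩
  rw [integral_add j123 j4, integral_add j12 j3, integral_add j1 j2,
    integral_const_mul, integral_const_mul, integral_const_mul, integral_const_mul, e1, e2, e3, hR.2]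
  ring

theorem main_bound {h C : ℝ} {M δ : ℝ} {k : ℝ → ℂ} (hk : Ker M k) (ha : Fib cf ζ a)
    (hb : ∀ y y' : ℝ, |y| < 1 / 20 → |y'| < 1 / 20 →
      ∫ ρ in Ioo (0 : ℝ) 2, ‖KK k δ cf (y, y', ρ)‖ * ‖SS a (y, y', ρ)‖ ≤ BB h C M δ cf a y y') :
    ‖∫ z, ∑' j, FF k δ cf a j z ∂mu3‖ ≤
      M ^ 2 * (W0 * (a1 a ^ 2 - (1 - h) / 2 * (a1 a ^ 2 - ∑' j, Qi a j ^ 2)) +
        C * (2 * (a1 a * ∫ y, (|cf y| + |y|) * An a y) + |δ| * a1 a ^ 2)) := by
  have hB := BB_facts (h := h) (C := C) (M := M) (δ := δ) ha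
  have hG := integrable_GG (δ := δ) hk ha
  have hs := (fib_facts ha).2.2.1
  have hA0 : ∀ y, |y| < 1 / 20 ∨ An a y = 0 := by
    intro y
    by_cases h0 : An a y = 0
    · exact Or.inr h0
    · exact Or.inl (hs y h0)
  have hb' : ∀ y y' : ℝ, ∫ ρ in Ioo (0 : ℝ) 2, ‖KK k δ cf (y, y', ρ)‖ * ‖SS a (y, y', ρ)‖ ≤
      BB h C M δ cf a y y' := by
    intro y y'
    have hz : An a y = 0 ∨ An a y' = 0 → ∫ ρ in Ioo (0 : ℝ) 2,
        ‖KK k δ cf (y, y', ρ)‖ * ‖SS a (y, y', ρ)‖ ≤ BB h C M δ cf a y y' := by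
      intro h0
      have h1 : ∀ ρ, ‖SS a (y, y', ρ)‖ = 0 := by
        intro ρ
        have := norm_SS_le ha (y, y', ρ)
        simp only at this
        refine le_antisymm (this.trans ?_) (norm_nonneg _)
        rcases h0 with h0 | h0 <;> simp [h0]
      have h2 : BB h C M δ cf a y y' = 0 := by
        simp only [BB]
        rcases h0 with h0 | h0 <;> simp [h0]
      rw [h2]
      simp [h1]
    rcases hA0 y with h1 | h1
    · rcases hA0 y' with h2 | h2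
      · exact hb y y' h1 h2
      · exact hz (Or.inr h2)
    · exact hz (Or.inl h1)
  calc ‖∫ z, ∑' j, FF k δ cf a j z ∂mu3‖ ≤ ∫ z, ‖∑' j, FF k δ cf a j z‖ ∂mu3 :=
        norm_integral_le_integral_norm _
    _ = ∫ z, ‖KK k δ cf z‖ * ‖SS a z‖ ∂mu3 := by
        refine integral_congr_ae (ae_of_all _ fun z => ?_)
        exact norm_tsum_FF z
    _ = ∫ y, ∫ y', ∫ ρ in Ioo (0 : ℝ) 2, ‖KK k δ cf (y, y', ρ)‖ * ‖SS a (y, y', ρ)‖ := by
        rw [mu3, integral_prod _ hG]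
        refine integral_congr_ae ?_
        filter_upwards [hG.prod_right_ae] with y hy
        rw [integral_prod _ hy]
    _ ≤ ∫ y, ∫ y', BB h C M δ cf a y y' := by
        have h1 := hG.integral_prod_left
        have h2 := hB.1.integral_prod_left
        have h3 : Integrable fun y => ∫ y', ∫ ρ in Ioo (0 : ℝ) 2,
            ‖KK k δ cf (y, y', ρ)‖ * ‖SS a (y, y', ρ)‖ := by
          refine h1.congr ?_
          filter_upwards [hG.prod_right_ae] with y hy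
          rw [integral_prod _ hy]
        refine integral_mono_ae h3 h2 ?_
        filter_upwards [hG.prod_right_ae, hB.1.prod_right_ae] with y hy hy2
        exact integral_mono hy.integral_prod_left hy2 fun y' => hb' y y'
    _ = _ := by
        rw [← integral_prod _ hB.1, hB.2]


theorem norm_Zl_le {C M p : ℝ} {k φ : ℝ → ℂ} (hφ : Lin φ)
    (hP : ∀ y y' : ℝ, |y| < 1 / 20 → |y'| < 1 / 20 → ‖Ps k p y y'‖ ≤ C * M ^ 2) :
    ‖Zl k p φ‖ ≤ C * M ^ 2 * (∫ y, ‖φ y‖) ^ 2 := by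
  unfold Zl
  have h1 : ∀ y, ‖∫ y', φ y * conj (φ y') * Ps k p y y'‖ ≤
      ‖φ y‖ * (C * M ^ 2 * ∫ y', ‖φ y'‖) := by
    intro y
    refine (norm_integral_le_integral_norm _).trans ?_
    have h2 : ∀ y', ‖φ y * conj (φ y') * Ps k p y y'‖ ≤ ‖φ y‖ * (C * M ^ 2) * ‖φ y'‖ := by
      intro y'
      rw [norm_mul, norm_mul, RCLike.norm_conj]
      by_cases h3 : φ y = 0
      · simp [h3]
      by_cases h4 : φ y' = 0
      · simp [h4]
      have := hP y y' (hφ.supp y h3) (hφ.supp y' h4)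
      calc ‖φ y‖ * ‖φ y'‖ * ‖Ps k p y y'‖ ≤ ‖φ y‖ * ‖φ y'‖ * (C * M ^ 2) := by gcongr
        _ = _ := by ring
    calc ∫ y', ‖φ y * conj (φ y') * Ps k p y y'‖ ≤ ∫ y', ‖φ y‖ * (C * M ^ 2) * ‖φ y'‖ :=
          integral_mono_of_nonneg (ae_of_all _ fun _ => norm_nonneg _) (hφ.int.norm.const_mul _)
            (ae_of_all _ h2)
      _ = _ := by rw [integral_const_mul]; ring
  refine (norm_integral_le_integral_norm _).trans ?_
  calc ∫ y, ‖∫ y', φ y * conj (φ y') * Ps k p y y'‖ ≤ ∫ y, ‖φ y‖ * (C * M ^ 2 * ∫ y', ‖φ y'‖) :=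
        integral_mono_of_nonneg (ae_of_all _ fun _ => norm_nonneg _) (hφ.int.norm.mul_const _)
          (ae_of_all _ h1)
    _ = _ := by rw [integral_mul_const]; ring

theorem fl_int_le (ha : Fib cf ζ a) (j : ℤ) :
    (∫ y, ‖fl cf ζ a (2 * j) y‖ ≤ ∫ y, ‖a j y‖) ∧ (∫ y, ‖fl cf ζ a (2 * j - 1) y‖ ≤ ∫ y, ‖a j y‖) ∧
    (∫ y, |y| * ‖fl cf ζ a (2 * j) y‖ ≤ ∫ y, |y| * ‖a j y‖) ∧
    (∫ y, |y| * ‖fl cf ζ a (2 * j - 1) y‖ ≤ ∫ y, |y| * ‖a j y‖) := by
  have hi := (fib_facts ha).2.2.2.2.1 j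
  have hw : Integrable fun y => |y| * ‖a j y‖ := by
    refine hi.norm.mono' ?_ (ae_of_all _ fun y => ?_)
    · have := ha.a_meas j
      have : Measurable fun y => |y| * ‖a j y‖ := by fun_prop
      exact this.aestronglyMeasurable
    · rw [norm_mul, norm_norm, Real.norm_eq_abs, abs_abs]
      by_cases h0 : a j y = 0
      · simp [h0]
      have := ha.a_supp j y h0
      exact mul_le_of_le_one_left (norm_nonneg _) (by linarith)
  refine ⟨?_, ?_, ?_, ?_⟩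
  · exact integral_mono_of_nonneg (ae_of_all _ fun _ => norm_nonneg _) hi.norm
      (ae_of_all _ fun y => norm_fl_even ha j y)
  · exact integral_mono_of_nonneg (ae_of_all _ fun _ => norm_nonneg _) hi.norm
      (ae_of_all _ fun y => norm_fl_odd ha j y)
  · exact integral_mono_of_nonneg (ae_of_all _ fun _ => by positivity) hw
      (ae_of_all _ fun y => mul_le_mul_of_nonneg_left (norm_fl_even ha j y) (abs_nonneg _))
  · exact integral_mono_of_nonneg (ae_of_all _ fun _ => by positivity) hw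
      (ae_of_all _ fun y => mul_le_mul_of_nonneg_left (norm_fl_odd ha j y) (abs_nonneg _))


theorem sg_even (j : ℤ) : sg (2 * j) = 1 := by simp [sg, even_two j]

theorem sg_odd (j : ℤ) : sg (2 * j - 1) = -1 := by
  simp only [sg, not_even_two j, if_false]

theorem abs_sg (n : ℤ) : |sg n| = 1 := by
  unfold sg
  split_ifs <;> simp

theorem abs_dl_le (δ : ℝ) (n : ℤ) : |dl δ n| ≤ |δ| := by
  unfold dl
  split_ifs
  · simp
  · exact le_rfl

theorem summable_parity {f : ℤ → ℝ} (h1 : Summable (fun j : ℤ => f (2 * j)))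
    (h2 : Summable (fun j : ℤ => f (2 * j - 1))) :
    Summable f ∧ ∑' n, f n = ∑' j : ℤ, f (2 * j) + ∑' j : ℤ, f (2 * j - 1) := by
  have := hasSum_parity h1.hasSum h2.hasSum
  exact ⟨this.summable, this.tsum_eq⟩

/-- S4. The upper bound B7. -/
theorem B7up : ∃ h C : ℝ, 0 < h ∧ h < 1 ∧ 0 < C ∧ ∀ (M δ : ℝ) (k : ℝ → ℂ) (cf : ℝ → ℝ)
    (ζ : ℤ → ℂ) (a : ℤ → ℝ → ℂ), Ker M k → |δ| ≤ 1 / 100 → Fib cf ζ a →
    (Summable fun n => sg n * Tl k (Pt δ n) (dl δ n) (fl cf ζ a n)) ∧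
    ∑' n, sg n * Tl k (Pt δ n) (dl δ n) (fl cf ζ a n) ≤
      2 * M ^ 2 * W0 * (a1 a ^ 2 - (1 - h) / 2 * (a1 a ^ 2 - ∑' j, Qi a j ^ 2)) +
        C * M ^ 2 * a1 a * (∫ y, (|cf y| + |y|) * An a y) + C * M ^ 2 * |δ| * a1 a ^ 2 := by
  obtain ⟨CL, hCL, hline⟩ := line
  obtain ⟨CP, hCP, hPs⟩ := Ps_facts
  obtain ⟨h, C3, hh0, hh1, hC3, hin⟩ := inner_bound
  refine ⟨h, 4 * C3 + 2 * CL, hh0, hh1, by positivity, ?_⟩
  intro M δ k cf ζ a hk hδ ha
  have hf := fib_facts ha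
  have hsum := fib_sums ha
  have hLin : ∀ n, Lin (fl cf ζ a n) := hf.2.2.2.2.2.2.2.2.2.2
  have hA0 : ∀ y, 0 ≤ An a y := fun y => Real.sqrt_nonneg _
  have ha1 : 0 ≤ a1 a := integral_nonneg hA0
  have hX0 : ∀ n, 0 ≤ ∫ y, |y| * ‖fl cf ζ a n y‖ := fun n =>
    integral_nonneg fun y => by positivity
  have hY0 : ∀ n, 0 ≤ ∫ y, ‖fl cf ζ a n y‖ := fun n => integral_nonneg fun y => norm_nonneg _
  have haj0 : ∀ j, 0 ≤ ∫ y, ‖a j y‖ := fun n => integral_nonneg fun y => norm_nonneg _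
  have haj1 : ∀ j, 0 ≤ ∫ y, |y| * ‖a j y‖ := fun n => integral_nonneg fun y => by positivity
  -- the sequences
  set X : ℤ → ℝ := fun n => (∫ y, |y| * ‖fl cf ζ a n y‖) * ∫ y, ‖fl cf ζ a n y‖ with hX
  set Y : ℤ → ℝ := fun n => (∫ y, ‖fl cf ζ a n y‖) ^ 2 with hY
  have hXe : ∀ j, X (2 * j) ≤ (∫ y, |y| * ‖a j y‖) * ∫ y, ‖a j y‖ := fun j =>
    mul_le_mul (fl_int_le ha j).2.2.1 (fl_int_le ha j).1 (hY0 _) (haj1 _)
  have hXo : ∀ j, X (2 * j - 1) ≤ (∫ y, |y| * ‖a j y‖) * ∫ y, ‖a j y‖ := fun j =>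
    mul_le_mul (fl_int_le ha j).2.2.2 (fl_int_le ha j).2.1 (hY0 _) (haj1 _)
  have hYe : ∀ j, Y (2 * j) ≤ (∫ y, ‖a j y‖) ^ 2 := fun j =>
    pow_le_pow_left₀ (hY0 _) (fl_int_le ha j).1 2
  have hYo : ∀ j, Y (2 * j - 1) ≤ (∫ y, ‖a j y‖) ^ 2 := fun j =>
    pow_le_pow_left₀ (hY0 _) (fl_int_le ha j).2.1 2
  have hXn : ∀ n, 0 ≤ X n := fun n => mul_nonneg (hX0 n) (hY0 n)
  have hYn : ∀ n, 0 ≤ Y n := fun n => sq_nonneg _
  have sX := hsum.2.2.2.2.2.1
  have sY := hsum.2.2.2.1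
  have sXe : Summable fun j => X (2 * j) := Summable.of_nonneg_of_le (fun j => hXn _) hXe sX
  have sXo : Summable fun j => X (2 * j - 1) := Summable.of_nonneg_of_le (fun j => hXn _) hXo sX
  have sYe : Summable fun j => Y (2 * j) := Summable.of_nonneg_of_le (fun j => hYn _) hYe sY
  have sYo : Summable fun j => Y (2 * j - 1) := Summable.of_nonneg_of_le (fun j => hYn _) hYo sY
  have pX := summable_parity sXe sXo
  have pY := summable_parity sYe sYo
  have bX : ∑' n, X n ≤ 2 * ((∫ y, |y| * An a y) * a1 a) := by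
    rw [pX.2]
    have h1 := sXe.tsum_le_tsum hXe sX
    have h2 := sXo.tsum_le_tsum hXo sX
    have h3 := hsum.2.2.2.2.2.2
    linarith
  have bY : ∑' n, Y n ≤ 2 * a1 a ^ 2 := by
    rw [pY.2]
    have h1 := sYe.tsum_le_tsum hYe sY
    have h2 := sYo.tsum_le_tsum hYo sY
    have h3 := hsum.2.2.2.2.1
    linarith
  -- error terms
  set e : ℤ → ℝ := fun n => CL * M ^ 2 * (X n + |δ| * Y n) with he
  have se : Summable e := (pX.1.add (pY.1.mul_left _)).mul_left _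
  have be : ∑' n, e n ≤ CL * M ^ 2 * (2 * ((∫ y, |y| * An a y) * a1 a) + |δ| * (2 * a1 a ^ 2)) := by
    rw [he, tsum_mul_left, pX.1.tsum_add (pY.1.mul_left _), tsum_mul_left]
    gcongr
  set u : ℤ → ℝ := fun n => sg n * Tl k (Pt δ n) (dl δ n) (fl cf ζ a n) with hu
  set v : ℤ → ℝ := fun n => sg n * (2 * (Zl k (Pt δ n) (fl cf ζ a n)).im) with hv
  have huv : ∀ n, ‖u n - v n‖ ≤ e n := by
    intro n
    have h1 := hline M (Pt δ n) (dl δ n) k (fl cf ζ a n) hk (hLin n) ((abs_dl_le δ n).trans hδ)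
    have h2 : u n - v n = sg n * (Tl k (Pt δ n) (dl δ n) (fl cf ζ a n) -
        2 * (Zl k (Pt δ n) (fl cf ζ a n)).im) := by
      simp only [hu, hv]; ring
    rw [h2, Real.norm_eq_abs, abs_mul, abs_sg, one_mul]
    refine h1.trans ?_
    simp only [he, hX, hY]
    have := abs_dl_le δ n
    gcongr
  have hvb : ∀ n, ‖v n‖ ≤ 2 * (CP * M ^ 2) * Y n := by
    intro n
    have h1 := norm_Zl_le (p := Pt δ n) (hLin n) (hPs M (Pt δ n) k hk).1
    rw [Real.norm_eq_abs, hv, abs_mul, abs_sg, one_mul, abs_mul, abs_two]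
    have h2 := abs_im_le_norm (Zl k (Pt δ n) (fl cf ζ a n))
    calc 2 * |(Zl k (Pt δ n) (fl cf ζ a n)).im| ≤ 2 * (CP * M ^ 2 * (∫ y, ‖fl cf ζ a n y‖) ^ 2) := by
          linarith
      _ = _ := by simp only [hY]; ring
  have sv : Summable v := Summable.of_norm_bounded (pY.1.mul_left _) hvb
  have suv : Summable fun n => u n - v n := Summable.of_norm_bounded se huv
  have su : Summable u := by
    refine (suv.add sv).congr fun n => ?_
    ring
  refine ⟨su, ?_⟩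
  have e1 : ∑' n, u n = ∑' n, (u n - v n) + ∑' n, v n := by
    rw [← suv.tsum_add sv]
    exact tsum_congr fun n => by ring
  have e2 : ∑' n, (u n - v n) ≤ ∑' n, e n :=
    suv.tsum_le_tsum (fun n => (le_abs_self _).trans (huv n)) se
  -- the main term
  have sve : Summable fun j : ℤ => v (2 * j) :=
    sv.comp_injective (i := fun j : ℤ => 2 * j) fun a b h => by simpa using h
  have svo : Summable fun j : ℤ => v (2 * j - 1) :=
    sv.comp_injective (i := fun j : ℤ => 2 * j - 1) fun a b h => by simpa using h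
  have hFF := hasSum_FF (δ := δ) hk ha
  have him : HasSum (fun j => 2 * (∫ z, FF k δ cf a j z ∂mu3).im)
      (2 * (∫ z, ∑' j, FF k δ cf a j z ∂mu3).im) := by
    refine HasSum.mul_left 2 ?_
    exact (Complex.hasSum_iff _ _).1 hFF |>.2
  have e3 : ∑' n, v n = 2 * (∫ z, ∑' j, FF k δ cf a j z ∂mu3).im := by
    rw [(summable_parity sve svo).2, ← sve.tsum_add svo, ← him.tsum_eq]
    refine tsum_congr fun j => ?_
    rw [← integral_FF hk ha j, Complex.sub_im]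
    simp only [hv, sg_even, sg_odd]
    ring
  have hmain := main_bound (h := h) (C := C3) (δ := δ) hk ha (fun y y' hy hy' => by
    have := hin M δ k cf ζ a hk hδ ha y y' hy hy'
    simpa only [KK, SS, BB] using this)
  have e4 : ∑' n, v n ≤ 2 * ‖∫ z, ∑' j, FF k δ cf a j z ∂mu3‖ := by
    rw [e3]
    have := (le_abs_self _).trans (abs_im_le_norm (∫ z, ∑' j, FF k δ cf a j z ∂mu3))
    linarith
  have hwI : Integrable fun y => |y| * An a y := by
    refine hf.2.1.mono' ?_ (ae_of_all _ fun y => ?_)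
    · have := hf.1
      have : Measurable fun y => |y| * An a y := by fun_prop
      exact this.aestronglyMeasurable
    · rw [norm_mul, Real.norm_of_nonneg (hA0 y), Real.norm_eq_abs, abs_abs]
      by_cases h0 : An a y = 0
      · simp [h0]
      have := hf.2.2.1 y h0
      exact mul_le_of_le_one_left (hA0 y) (by linarith)
  have hcI : Integrable fun y => |cf y| * An a y := by
    refine hf.2.1.mono' ?_ (ae_of_all _ fun y => ?_)
    · have := hf.1
      have := ha.cf_meas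
      have : Measurable fun y => |cf y| * An a y := by fun_prop
      exact this.aestronglyMeasurable
    · rw [norm_mul, Real.norm_of_nonneg (hA0 y), Real.norm_eq_abs, abs_abs]
      exact mul_le_of_le_one_left (hA0 y) (ha.cf_le y)
  have hsplit : ∫ y, (|cf y| + |y|) * An a y = (∫ y, |cf y| * An a y) + ∫ y, |y| * An a y := by
    rw [← integral_add hcI hwI]
    refine integral_congr_ae (ae_of_all _ fun y => ?_)
    simp only
    ring
  have hc0 : 0 ≤ ∫ y, |cf y| * An a y := integral_nonneg fun y => mul_nonneg (abs_nonneg _) (hA0 y)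
  have hw0 : 0 ≤ ∫ y, |y| * An a y := integral_nonneg fun y => mul_nonneg (abs_nonneg _) (hA0 y)
  have hM2 : 0 ≤ M ^ 2 := sq_nonneg M
  have hδ0 : 0 ≤ |δ| := abs_nonneg δ
  set q1 := ∫ y, |cf y| * An a y
  set q2 := ∫ y, |y| * An a y
  set q3 := ∑' j, Qi a j ^ 2
  set q4 := a1 a
  rw [e1]
  rw [hsplit] at hmain ⊢
  have t1 : 0 ≤ CL * M ^ 2 * q4 * q1 := by positivity
  have t2 : 0 ≤ C3 * M ^ 2 * |δ| * q4 ^ 2 := by positivity
  have t3 : 0 ≤ CL * M ^ 2 * |δ| * q4 ^ 2 := by positivity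
  nlinarith [e2, be, e4, hmain, t1, t2, t3]

end Pool.Agent.Helper34.HRV
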