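import Pool.Agent.Helper34.HRV.Defs
import Pool.Agent.Helper34.HRV.St.C1
import Pool.Agent.Helper34.HRV.St.C2
import Pool.Agent.Helper34.HRV.St.L5
import Pool.Agent.Helper34.HRV.St.L6
import Pool.Agent.Helper34.HRV.St.O3
import Pool.Agent.Helper34.HRV.St.O4
import Pool.Agent.Helper34.HRV.St.S1
import Pool.Agent.Helper34.HRV.St.S2

/-! HRV piece S5 (project HRT, MP_2370de_an; hints: `/team-store/HRV_hints.md`). -/

set_option autoImplicit false

open MeasureTheory Complex Set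
open scoped ComplexConjugate Real

namespace Pool.Agent.Helper34.HRV

/-- the kernel of the trial function -/
noncomputable def kM (M : ℝ) : ℝ → ℂ := fun u =>
  if 1 / 2 < |u| ∧ |u| < 3 / 2 then (M : ℂ) else 0

theorem kM_ker {M : ℝ} (hM : 0 ≤ M) : Ker M (kM M) where
  meas := by
    unfold kM
    refine Measurable.ite ?_ measurable_const measurable_const
    exact (measurableSet_lt measurable_const measurable_id.abs).inter
      (measurableSet_lt measurable_id.abs measurable_const)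
  bd u := by
    unfold kM
    split_ifs
    · rw [Complex.norm_real, Real.norm_eq_abs, abs_of_nonneg hM]
    · rw [norm_zero]
      exact hM
  supp u hu := by
    unfold kM at hu
    by_contra h
    exact hu (if_neg h)

theorem Tl_zero (k : ℝ → ℂ) (p δ : ℝ) : Tl k p δ (fun _ => 0) = 0 := by
  unfold Tl Xl
  simp

theorem Ps_Dm {M : ℝ} (p y y' : ℝ) (hy : |y| < 1 / 20) (hy' : |y'| < 1 / 20) :
    Ps (kM M) p y y' =
      ∫ ρ in Dm y y', (M : ℂ) ^ 2 * ((wt ρ : ℂ) * cexp (((th y y' ρ * p : ℝ) : ℂ) * I)) := by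
  have hD : MeasurableSet (Dm y y') := measurableSet_Ioo
  unfold Ps
  rw [← integral_indicator measurableSet_Ioo, ← integral_indicator hD]
  congr 1
  funext ρ
  rw [abs_lt] at hy hy'
  by_cases h : ρ ∈ Dm y y'
  · obtain ⟨h1, h2⟩ := h
    have a1 := le_max_left y y'
    have a2 := le_max_right y y'
    have a3 := min_le_left y y'
    have a4 := min_le_right y y'
    have h3 : ρ ∈ Ioo (0 : ℝ) 2 := ⟨by linarith, by linarith⟩
    rw [indicator_of_mem (show ρ ∈ Dm y y' from ⟨h1, h2⟩), indicator_of_mem h3]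
    unfold kM
    rw [if_pos, if_pos]
    · ring
    · rw [abs_of_neg (by linarith : y' - ρ < 0)]
      constructor <;> linarith
    · rw [abs_of_pos (by linarith : 0 < ρ - y)]
      constructor <;> linarith
  · rw [indicator_of_notMem h]
    by_cases h3 : ρ ∈ Ioo (0 : ℝ) 2
    · rw [indicator_of_mem h3]
      have h4 : ¬ ((1 / 2 < |ρ - y| ∧ |ρ - y| < 3 / 2) ∧
          (1 / 2 < |y' - ρ| ∧ |y' - ρ| < 3 / 2)) := by
        rintro ⟨⟨b1, b2⟩, b3, b4⟩
        apply h
        obtain ⟨c1, c2⟩ := h3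
        have e1 : 0 < ρ - y := by
          rw [lt_abs] at b1
          rcases b1 with b1 | b1 <;> linarith
        have e2 : y' - ρ < 0 := by
          rw [lt_abs] at b3
          rcases b3 with b3 | b3 <;> linarith
        rw [abs_of_pos e1] at b1 b2
        rw [abs_of_neg e2] at b3 b4
        refine ⟨?_, ?_⟩
        · rcases max_cases y y' with ⟨d, -⟩ | ⟨d, -⟩ <;> rw [d] <;> linarith
        · rcases min_cases y y' with ⟨d, -⟩ | ⟨d, -⟩ <;> rw [d] <;> linarith
      have h5 : kM M (ρ - y) * kM M (y' - ρ) = 0 := by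
        unfold kM
        by_cases h6 : 1 / 2 < |ρ - y| ∧ |ρ - y| < 3 / 2
        · rw [if_neg (fun h7 => h4 ⟨h6, h7⟩), mul_zero]
        · rw [if_neg h6, zero_mul]
      rw [h5]
      simp
    · rw [indicator_of_notMem h3]

theorem th_cont (y y' : ℝ) : Continuous (th y y') := by
  have hc := cc_facts.2.2.2.2.2
  unfold th
  exact (hc.comp (continuous_id.sub continuous_const)).add
    (hc.comp (continuous_id.sub continuous_const))

theorem th_le (y y' ρ : ℝ) : |th y y' ρ| ≤ 2 := by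
  have h := cc_facts.2.2.1
  unfold th
  rw [abs_le]
  have h1 := h (ρ - y)
  have h2 := h (ρ - y')
  constructor <;> linarith [h1.1, h1.2, h2.1, h2.2]

theorem Dm_sub (y y' : ℝ) : Dm y y' ⊆ Icc (1 / 2 + max y y') (3 / 2 + min y y') :=
  Ioo_subset_Icc_self

/-- the inner integral from below -/
theorem Ps_low {M δ y y' x x' : ℝ} (hy : |y| < 1 / 20) (hy' : |y'| < 1 / 20)
    (hx : |x| ≤ 1) (hx' : |x'| ≤ 1) :
    M ^ 2 * (Wy y y' - 6 * (|x| + |x'|) - 6 * |δ|) ≤
      (((Real.sqrt ((1 - x) / 2) * Real.sqrt ((1 - x') / 2) : ℝ) : ℂ) *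
          Ps (kM M) (π / 2) y y' -
        ((Real.sqrt ((1 + x) / 2) * Real.sqrt ((1 + x') / 2) : ℝ) : ℂ) *
          Ps (kM M) (π / 2 - π + δ) y y').im := by
  obtain ⟨w0, hw0, hwy⟩ := wy_facts
  have hw := fun ρ h => hwy y y' ρ hy.le hy'.le h
  have hD : MeasurableSet (Dm y y') := measurableSet_Ioo
  have hcomp : IsCompact (Icc (1 / 2 + max y y') (3 / 2 + min y y')) := isCompact_Icc
  have hwtc : ContinuousOn wt (Icc (1 / 2 + max y y') (3 / 2 + min y y')) := fun ρ h =>
    (hw ρ h).2.2.2.2.2.2.2.continuousWithinAt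
  have hwyc : ContinuousOn (wy y y') (Icc (1 / 2 + max y y') (3 / 2 + min y y')) := fun ρ h =>
    (hw ρ h).2.2.2.2.2.2.1.continuousWithinAt
  have hthc := th_cont y y'
  have hint : ∀ p : ℝ, IntegrableOn (fun ρ =>
      (M : ℂ) ^ 2 * ((wt ρ : ℂ) * cexp (((th y y' ρ * p : ℝ) : ℂ) * I))) (Dm y y') := by
    intro p
    refine IntegrableOn.mono_set ?_ (Dm_sub y y')
    refine ContinuousOn.integrableOn_compact hcomp ?_
    refine ContinuousOn.mul continuousOn_const (ContinuousOn.mul ?_ ?_)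
    · exact Complex.continuous_ofReal.comp_continuousOn hwtc
    · have : Continuous fun ρ => cexp (((th y y' ρ * p : ℝ) : ℂ) * I) := by fun_prop
      exact this.continuousOn
  rw [Ps_Dm _ _ _ hy hy', Ps_Dm _ _ _ hy hy', ← integral_const_mul, ← integral_const_mul,
    ← integral_sub ((hint _).const_mul _) ((hint _).const_mul _)]
  have him : ∀ f : ℝ → ℂ, IntegrableOn f (Dm y y') →
      (∫ ρ in Dm y y', f ρ).im = ∫ ρ in Dm y y', (f ρ).im := fun f hf =>
    (integral_im hf).symm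
  have hcomb : IntegrableOn (fun ρ =>
      ((Real.sqrt ((1 - x) / 2) * Real.sqrt ((1 - x') / 2) : ℝ) : ℂ) *
          ((M : ℂ) ^ 2 * ((wt ρ : ℂ) * cexp (((th y y' ρ * (π / 2) : ℝ) : ℂ) * I))) -
        ((Real.sqrt ((1 + x) / 2) * Real.sqrt ((1 + x') / 2) : ℝ) : ℂ) *
          ((M : ℂ) ^ 2 * ((wt ρ : ℂ) * cexp (((th y y' ρ * (π / 2 - π + δ) : ℝ) : ℂ) * I))))
      (Dm y y') := ((hint _).const_mul _).sub ((hint _).const_mul _)
  rw [him _ hcomb]
  have hvol : volume.real (Dm y y') ≤ 1 := by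
    unfold Dm
    rw [Real.volume_real_Ioo]
    refine max_le ?_ zero_le_one
    have := min_le_left y y'
    have := le_max_left y y'
    linarith
  have hwyint : IntegrableOn (wy y y') (Dm y y') :=
    (ContinuousOn.integrableOn_compact hcomp hwyc).mono_set (Dm_sub y y')
  have hfin : volume (Dm y y') ≠ ⊤ := by
    unfold Dm
    rw [Real.volume_Ioo]
    exact ENNReal.ofReal_ne_top
  set η : ℝ := 2 * (|x| + |x'|) + 2 * |δ| with hη
  have hη0 : 0 ≤ η := by positivity
  have hcint : IntegrableOn (fun _ : ℝ => 3 * η) (Dm y y') := by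
    rw [integrableOn_const_iff]
    exact Or.inr (lt_top_iff_ne_top.2 hfin)
  calc M ^ 2 * (Wy y y' - 6 * (|x| + |x'|) - 6 * |δ|)
      = M ^ 2 * (Wy y y' - 3 * η * 1) := by rw [hη]; ring
    _ ≤ M ^ 2 * (Wy y y' - 3 * η * volume.real (Dm y y')) := by
        refine mul_le_mul_of_nonneg_left ?_ (sq_nonneg M)
        have := mul_le_mul_of_nonneg_left hvol (by positivity : 0 ≤ 3 * η)
        linarith
    _ = ∫ ρ in Dm y y', M ^ 2 * (wy y y' ρ - 3 * η) := by
        rw [integral_const_mul, integral_sub hwyint hcint]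
        congr 2
        rw [setIntegral_const, smul_eq_mul, mul_comm]
    _ ≤ _ := by
        refine setIntegral_mono_on ((hwyint.sub hcint).const_mul _) hcomb.im hD ?_
        intro ρ hρ
        obtain ⟨-, -, h3, h4, -, h6, -, -⟩ := hw ρ (Dm_sub y y' hρ)
        have hbr := bracket δ (th y y' ρ) x x' hx hx' (th_le y y' ρ)
        set θ := th y y' ρ with hθ
        have hz : ((Real.sqrt ((1 - x) / 2) * Real.sqrt ((1 - x') / 2) : ℝ) : ℂ) *
              ((M : ℂ) ^ 2 * ((wt ρ : ℂ) * cexp (((θ * (π / 2) : ℝ) : ℂ) * I))) -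
            ((Real.sqrt ((1 + x) / 2) * Real.sqrt ((1 + x') / 2) : ℝ) : ℂ) *
              ((M : ℂ) ^ 2 * ((wt ρ : ℂ) * cexp (((θ * (π / 2 - π + δ) : ℝ) : ℂ) * I))) =
            ((M ^ 2 * wt ρ : ℝ) : ℂ) * (I * (Real.sin (π * θ / 2) : ℂ) +
              cexp (((π * θ / 2 : ℝ) : ℂ) * I) *
                (br δ θ x x' - I * cexp (-(((π * θ / 2 : ℝ) : ℂ) * I)) *
                  (Real.sin (π * θ / 2) : ℂ))) := by
          unfold br
          have e1 : cexp (((θ * (π / 2) : ℝ) : ℂ) * I) = cexp (((π * θ / 2 : ℝ) : ℂ) * I) := by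
            congr 3
            ring
          have e2 : cexp (((θ * (π / 2 - π + δ) : ℝ) : ℂ) * I) =
              cexp (((π * θ / 2 : ℝ) : ℂ) * I) * cexp (-(((θ * (π - δ) : ℝ) : ℂ) * I)) := by
            rw [← Complex.exp_add]
            congr 1
            push_cast
            ring
          have e3 : cexp (((π * θ / 2 : ℝ) : ℂ) * I) * cexp (-(((π * θ / 2 : ℝ) : ℂ) * I)) =
              1 := by
            rw [← Complex.exp_add, add_neg_cancel, Complex.exp_zero]
          rw [e1, e2]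
          generalize cexp (((π * θ / 2 : ℝ) : ℂ) * I) = E1 at *
          generalize cexp (-(((π * θ / 2 : ℝ) : ℂ) * I)) = E2 at *
          generalize cexp (-(((θ * (π - δ) : ℝ) : ℂ) * I)) = E3 at *
          push_cast
          linear_combination ((M : ℂ) ^ 2 * (wt ρ : ℂ) * I * (Complex.sin (π * θ / 2))) * e3
        rw [hz]
        have hre : (((M ^ 2 * wt ρ : ℝ) : ℂ) * (I * (Real.sin (π * θ / 2) : ℂ) +
              cexp (((π * θ / 2 : ℝ) : ℂ) * I) *
                (br δ θ x x' - I * cexp (-(((π * θ / 2 : ℝ) : ℂ) * I)) *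
                  (Real.sin (π * θ / 2) : ℂ)))).im =
            M ^ 2 * (wt ρ * (Real.sin (π * θ / 2) + (cexp (((π * θ / 2 : ℝ) : ℂ) * I) *
                (br δ θ x x' - I * cexp (-(((π * θ / 2 : ℝ) : ℂ) * I)) *
                  (Real.sin (π * θ / 2) : ℂ))).im)) := by
          rw [Complex.im_ofReal_mul, Complex.add_im, Complex.mul_im, Complex.I_re, Complex.I_im,
            Complex.ofReal_re, zero_mul, one_mul, zero_add, mul_assoc]
        rw [hre]
        refine mul_le_mul_of_nonneg_left ?_ (sq_nonneg M)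
        have hn : |(cexp (((π * θ / 2 : ℝ) : ℂ) * I) *
                (br δ θ x x' - I * cexp (-(((π * θ / 2 : ℝ) : ℂ) * I)) *
                  (Real.sin (π * θ / 2) : ℂ))).im| ≤ η := by
          refine (Complex.abs_im_le_norm _).trans ?_
          rw [norm_mul, Complex.norm_exp_ofReal_mul_I, one_mul]
          exact hbr
        have hn1 := (abs_le.1 hn).1
        have : wt ρ * (Real.sin (π * θ / 2) - η) ≤ wt ρ * (Real.sin (π * θ / 2) +
            (cexp (((π * θ / 2 : ℝ) : ℂ) * I) *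
                (br δ θ x x' - I * cexp (-(((π * θ / 2 : ℝ) : ℂ) * I)) *
                  (Real.sin (π * θ / 2) : ℂ))).im) :=
          mul_le_mul_of_nonneg_left (by linarith) h3
        refine le_trans ?_ this
        unfold wy
        rw [← hθ]
        linarith only [mul_le_mul_of_nonneg_right h4 hη0]

theorem Zl_prod {C5 M p : ℝ} {k : ℝ → ℂ}
    (hb : ∀ y y' : ℝ, |y| < 1 / 20 → |y'| < 1 / 20 → ‖Ps k p y y'‖ ≤ C5 * M ^ 2)
    (hm : Measurable (fun z : ℝ × ℝ => Ps k p z.1 z.2)) {φ : ℝ → ℂ} (hφ : Lin φ) :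
    Integrable (fun z : ℝ × ℝ => φ z.1 * conj (φ z.2) * Ps k p z.1 z.2)
        ((volume : Measure ℝ).prod volume) ∧
      Zl k p φ = ∫ z : ℝ × ℝ, φ z.1 * conj (φ z.2) * Ps k p z.1 z.2
        ∂((volume : Measure ℝ).prod volume) := by
  have hint : Integrable (fun z : ℝ × ℝ => φ z.1 * conj (φ z.2) * Ps k p z.1 z.2)
      ((volume : Measure ℝ).prod volume) := by
    have h1 : Integrable (fun z : ℝ × ℝ => (C5 * M ^ 2) * (‖φ z.1‖ * ‖φ z.2‖))
        ((volume : Measure ℝ).prod volume) :=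
      (Integrable.mul_prod hφ.int.norm hφ.int.norm).const_mul _
    refine h1.mono' ?_ (ae_of_all _ fun z => ?_)
    · have h2 : Measurable fun z : ℝ × ℝ => φ z.1 * conj (φ z.2) * Ps k p z.1 z.2 := by
        have h3 : Measurable fun z : ℝ × ℝ => φ z.1 := hφ.meas.comp measurable_fst
        have h4 : Measurable fun z : ℝ × ℝ => conj (φ z.2) :=
          Complex.continuous_conj.measurable.comp (hφ.meas.comp measurable_snd)
        exact (h3.mul h4).mul hm
      exact h2.aestronglyMeasurable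
    · rw [norm_mul, norm_mul, RCLike.norm_conj]
      by_cases h3 : φ z.1 = 0
      · simp [h3]
      by_cases h4 : φ z.2 = 0
      · simp [h4]
      have h5 := hb z.1 z.2 (hφ.supp _ h3) (hφ.supp _ h4)
      calc ‖φ z.1‖ * ‖φ z.2‖ * ‖Ps k p z.1 z.2‖ ≤ ‖φ z.1‖ * ‖φ z.2‖ * (C5 * M ^ 2) :=
            mul_le_mul_of_nonneg_left h5 (by positivity)
        _ = _ := by ring
  refine ⟨hint, ?_⟩
  unfold Zl
  rw [integral_prod _ hint]

/-- S5. The lower bound for the trial function (B9 (3)). -/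
theorem B9low : ∃ C : ℝ, 0 < C ∧ ∀ (M δ : ℝ) (cf : ℝ → ℝ) (ζ : ℤ → ℂ) (α : ℝ → ℝ), 0 ≤ M →
    |δ| ≤ 1 / 100 → (∀ y, 0 ≤ α y) →
    Fib cf ζ (fun j y => if j = 0 then (α y : ℂ) else 0) →
    2 * M ^ 2 * W0 * (∫ y, α y) ^ 2 - C * M ^ 2 * (∫ y, α y) * (∫ y, (|cf y| + |y|) * α y) -
        C * M ^ 2 * |δ| * (∫ y, α y) ^ 2 ≤
      ∑' n, sg n * Tl (fun u => if 1 / 2 < |u| ∧ |u| < 3 / 2 then (M : ℂ) else 0)
        (Pt δ n) (dl δ n) (fl cf ζ (fun j y => if j = 0 then (α y : ℂ) else 0) n) := by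
  obtain ⟨C5, hC5, hPs⟩ := Ps_facts
  obtain ⟨C6, hC6, hline⟩ := line
  obtain ⟨hW0, C3, hC3, hWn⟩ := Wy_near
  refine ⟨4 * C3 + 2 * C6 + 40, by positivity, ?_⟩
  intro M δ cf ζ α hM hδ hα hfib
  change _ ≤ ∑' n, sg n * Tl (kM M) (Pt δ n) (dl δ n)
    (fl cf ζ (fun j y => if j = 0 then (α y : ℂ) else 0) n)
  have hker := kM_ker hM
  obtain ⟨-, -, -, -, hai, -, -, -, -, -, hlin⟩ := fib_facts hfib
  have hαi : Integrable α := by
    have h := (hai 0).norm
    refine h.congr (ae_of_all _ fun y => ?_)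
    simp [abs_of_nonneg (hα y)]
  have hαs : ∀ y, α y ≠ 0 → |y| < 1 / 20 := fun y hy => hfib.a_supp 0 y (by simpa using hy)
  -- the two lines
  have hf0 : fl cf ζ (fun j y => if j = 0 then (α y : ℂ) else 0) 0 =
      fun y => ζ 0 * (Real.sqrt ((1 - cf y) / 2) : ℂ) * α y := by
    funext y
    unfold fl
    simp
  have hf1 : fl cf ζ (fun j y => if j = 0 then (α y : ℂ) else 0) (-1) =
      fun y => (Real.sqrt ((1 + cf y) / 2) : ℂ) * α y := by
    funext y
    unfold fl
    simp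
  have hfn : ∀ n : ℤ, n ≠ 0 → n ≠ -1 →
      fl cf ζ (fun j y => if j = 0 then (α y : ℂ) else 0) n = fun _ => 0 := by
    intro n h0 h1
    funext y
    unfold fl
    by_cases he : Even n
    · have h2 : n / 2 ≠ 0 := by
        obtain ⟨m, hm⟩ := he
        omega
      simp [he, h2]
    · have h2 : (n + 1) / 2 ≠ 0 := by
        rw [Int.not_even_iff_odd] at he
        obtain ⟨m, hm⟩ := he
        omega
      simp only [he, h2, if_false, mul_zero]
  have hsum : ∑' n, sg n * Tl (kM M) (Pt δ n) (dl δ n)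
      (fl cf ζ (fun j y => if j = 0 then (α y : ℂ) else 0) n) =
      Tl (kM M) (π / 2) 0 (fun y => ζ 0 * (Real.sqrt ((1 - cf y) / 2) : ℂ) * α y) -
        Tl (kM M) (π / 2 - π + δ) δ (fun y => (Real.sqrt ((1 + cf y) / 2) : ℂ) * α y) := by
    rw [tsum_eq_sum (s := {0, -1})]
    · rw [Finset.sum_pair (by norm_num), hf0, hf1]
      have e1 : sg 0 = 1 := by simp [sg]
      have e2 : sg (-1) = -1 := by simp [sg]
      have e3 : Pt δ 0 = π / 2 := by simp [Pt, dl]
      have e4 : Pt δ (-1) = π / 2 - π + δ := by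
        simp [Pt, dl]
        ring
      have e5 : dl δ 0 = 0 := by simp [dl]
      have e6 : dl δ (-1) = δ := by simp [dl]
      rw [e1, e2, e3, e4, e5, e6]
      ring
    · intro n hn
      simp only [Finset.mem_insert, Finset.mem_singleton, not_or] at hn
      rw [hfn n hn.1 hn.2, Tl_zero, mul_zero]
  rw [hsum]
  have hl0 := hlin 0
  rw [hf0] at hl0
  have hl1 := hlin (-1)
  rw [hf1] at hl1
  have hs0 : ∀ y, Real.sqrt ((1 - cf y) / 2) ≤ 1 := by
    intro y
    have := (abs_le.1 (hfib.cf_le y)).1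
    rw [← Real.sqrt_one]
    exact Real.sqrt_le_sqrt (by linarith)
  have hs1 : ∀ y, Real.sqrt ((1 + cf y) / 2) ≤ 1 := by
    intro y
    have := (abs_le.1 (hfib.cf_le y)).2
    rw [← Real.sqrt_one]
    exact Real.sqrt_le_sqrt (by linarith)
  have hn0 : ∀ y, ‖ζ 0 * (Real.sqrt ((1 - cf y) / 2) : ℂ) * α y‖ ≤ α y := by
    intro y
    rw [norm_mul, norm_mul, hfib.ζ_one, one_mul, Complex.norm_real, Complex.norm_real,
      Real.norm_eq_abs, Real.norm_eq_abs, abs_of_nonneg (Real.sqrt_nonneg _),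
      abs_of_nonneg (hα y)]
    exact mul_le_of_le_one_left (hα y) (hs0 y)
  have hn1 : ∀ y, ‖(Real.sqrt ((1 + cf y) / 2) : ℂ) * α y‖ ≤ α y := by
    intro y
    rw [norm_mul, Complex.norm_real, Complex.norm_real,
      Real.norm_eq_abs, Real.norm_eq_abs, abs_of_nonneg (Real.sqrt_nonneg _),
      abs_of_nonneg (hα y)]
    exact mul_le_of_le_one_left (hα y) (hs1 y)
  -- integrals
  have hαm : Measurable α := by
    have h := (hfib.a_meas 0).norm
    convert h using 1
    funext y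
    simp [abs_of_nonneg (hα y)]
  have hyα : ∀ y, |y| * α y ≤ 1 * α y := by
    intro y
    by_cases h : α y = 0
    · simp [h]
    · exact mul_le_mul_of_nonneg_right (by have := hαs y h; linarith) (hα y)
  have hi1 : Integrable fun y => |y| * α y := by
    refine (hαi.const_mul 1).mono' (measurable_id.abs.mul hαm).aestronglyMeasurable
      (ae_of_all _ fun y => ?_)
    rw [Real.norm_eq_abs, abs_of_nonneg (mul_nonneg (abs_nonneg _) (hα y))]
    exact hyα y
  have hi2 : Integrable fun y => |cf y| * α y := by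
    refine hαi.mono' (hfib.cf_meas.abs.mul hαm).aestronglyMeasurable (ae_of_all _ fun y => ?_)
    rw [Real.norm_eq_abs, abs_of_nonneg (mul_nonneg (abs_nonneg _) (hα y))]
    exact mul_le_of_le_one_left (hα y) (hfib.cf_le y)
  have hiD : Integrable fun y => (|cf y| + |y|) * α y := by
    refine (hi2.add hi1).congr (ae_of_all _ fun y => ?_)
    simp only [Pi.add_apply]
    ring
  have ha0 : 0 ≤ ∫ y, α y := integral_nonneg hα
  have hD0 : 0 ≤ ∫ y, (|cf y| + |y|) * α y :=
    integral_nonneg fun y => mul_nonneg (by positivity) (hα y)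
  have hA : ∀ φ : ℝ → ℂ, (∀ y, ‖φ y‖ ≤ α y) → ∫ y, ‖φ y‖ ≤ ∫ y, α y := fun φ h =>
    integral_mono_of_nonneg (ae_of_all _ fun y => norm_nonneg _) hαi (ae_of_all _ h)
  have hB : ∀ φ : ℝ → ℂ, (∀ y, ‖φ y‖ ≤ α y) →
      ∫ y, |y| * ‖φ y‖ ≤ ∫ y, (|cf y| + |y|) * α y := fun φ h =>
    integral_mono_of_nonneg (ae_of_all _ fun y => by positivity) hiD
      (ae_of_all _ fun y => mul_le_mul (by linarith [abs_nonneg (cf y)]) (h y) (norm_nonneg _)
        (by positivity))
  have hE0 := hline M (π / 2) 0 (kM M) _ hker hl0 (by norm_num)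
  have hE1 := hline M (π / 2 - π + δ) δ (kM M) _ hker hl1 hδ
  set a := ∫ y, α y with ha
  set D := ∫ y, (|cf y| + |y|) * α y with hD
  have hE0' : |Tl (kM M) (π / 2) 0 (fun y => ζ 0 * (Real.sqrt ((1 - cf y) / 2) : ℂ) * α y) -
      2 * (Zl (kM M) (π / 2) (fun y => ζ 0 * (Real.sqrt ((1 - cf y) / 2) : ℂ) * α y)).im| ≤
      C6 * M ^ 2 * (D * a) := by
    refine hE0.trans (mul_le_mul_of_nonneg_left ?_ (by positivity))
    rw [abs_zero, zero_mul, add_zero]
    exact mul_le_mul (hB _ hn0) (hA _ hn0) (integral_nonneg fun y => norm_nonneg _) hD0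
  have hE1' : |Tl (kM M) (π / 2 - π + δ) δ
        (fun y => (Real.sqrt ((1 + cf y) / 2) : ℂ) * α y) -
      2 * (Zl (kM M) (π / 2 - π + δ) (fun y => (Real.sqrt ((1 + cf y) / 2) : ℂ) * α y)).im| ≤
      C6 * M ^ 2 * (D * a + |δ| * a ^ 2) := by
    refine hE1.trans (mul_le_mul_of_nonneg_left ?_ (by positivity))
    refine add_le_add (mul_le_mul (hB _ hn1) (hA _ hn1)
      (integral_nonneg fun y => norm_nonneg _) hD0) ?_
    refine mul_le_mul_of_nonneg_left ?_ (abs_nonneg _)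
    exact pow_le_pow_left₀ (integral_nonneg fun y => norm_nonneg _) (hA _ hn1) 2
  -- the main term
  obtain ⟨hb0, hm0⟩ := hPs M (π / 2) (kM M) hker
  obtain ⟨hb1, hm1⟩ := hPs M (π / 2 - π + δ) (kM M) hker
  obtain ⟨hI0, hZ0⟩ := Zl_prod hb0 hm0 hl0
  obtain ⟨hI1, hZ1⟩ := Zl_prod hb1 hm1 hl1
  have hmain : M ^ 2 * ((W0 - 6 * |δ|) * (a * a) - 2 * ((C3 + 6) * (D * a))) ≤
      (Zl (kM M) (π / 2) (fun y => ζ 0 * (Real.sqrt ((1 - cf y) / 2) : ℂ) * α y) -
        Zl (kM M) (π / 2 - π + δ) (fun y => (Real.sqrt ((1 + cf y) / 2) : ℂ) * α y)).im := by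
    rw [hZ0, hZ1, ← integral_sub hI0 hI1]
    have hcomb := hI0.sub hI1
    have him := integral_im hcomb
    have him' : ∀ z : ℂ, RCLike.im z = z.im := fun z => rfl
    simp only [him', Pi.sub_apply] at him
    rw [← him]
    have hP1 : Integrable (fun z : ℝ × ℝ => α z.1 * α z.2)
        ((volume : Measure ℝ).prod volume) := hαi.mul_prod hαi
    have hP2 : Integrable (fun z : ℝ × ℝ => ((|cf z.1| + |z.1|) * α z.1) * α z.2)
        ((volume : Measure ℝ).prod volume) := hiD.mul_prod hαi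
    have hP3 : Integrable (fun z : ℝ × ℝ => α z.1 * ((|cf z.2| + |z.2|) * α z.2))
        ((volume : Measure ℝ).prod volume) := hαi.mul_prod hiD
    have hP4 : Integrable (fun z : ℝ × ℝ => (C3 + 6) * (((|cf z.1| + |z.1|) * α z.1) * α z.2) +
          (C3 + 6) * (α z.1 * ((|cf z.2| + |z.2|) * α z.2)))
        ((volume : Measure ℝ).prod volume) := (hP2.const_mul _).add (hP3.const_mul _)
    have hlow : ∫ z : ℝ × ℝ, M ^ 2 * ((W0 - 6 * |δ|) * (α z.1 * α z.2) -
        ((C3 + 6) * (((|cf z.1| + |z.1|) * α z.1) * α z.2) +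
          (C3 + 6) * (α z.1 * ((|cf z.2| + |z.2|) * α z.2))))
            ∂((volume : Measure ℝ).prod volume) =
        M ^ 2 * ((W0 - 6 * |δ|) * (a * a) - 2 * ((C3 + 6) * (D * a))) := by
      rw [integral_const_mul, integral_sub (hP1.const_mul _) hP4, integral_add (hP2.const_mul _)
        (hP3.const_mul _), integral_const_mul, integral_const_mul, integral_const_mul,
        integral_prod_mul, integral_prod_mul (fun y => (|cf y| + |y|) * α y) α,
        integral_prod_mul α (fun y => (|cf y| + |y|) * α y)]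
      ring
    rw [← hlow]
    refine integral_mono (((hP1.const_mul _).sub
      ((hP2.const_mul _).add (hP3.const_mul _))).const_mul _) hcomb.im ?_
    intro z
    by_cases hz1 : α z.1 = 0
    · simp [hz1]
    by_cases hz2 : α z.2 = 0
    · simp [hz2]
    have h1 := hαs _ hz1
    have h2 := hαs _ hz2
    have h3 := Ps_low (M := M) (δ := δ) h1 h2 (hfib.cf_le z.1) (hfib.cf_le z.2)
    have h4 := hWn z.1 z.2 h1.le h2.le
    have h5 := (abs_le.1 h4).1
    have hζ : ζ 0 * conj (ζ 0) = 1 := by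
      rw [Complex.mul_conj, Complex.normSq_eq_norm_sq, hfib.ζ_one]
      simp
    have h6 : ζ 0 * (Real.sqrt ((1 - cf z.1) / 2) : ℂ) * α z.1 *
          conj (ζ 0 * (Real.sqrt ((1 - cf z.2) / 2) : ℂ) * α z.2) *
            Ps (kM M) (π / 2) z.1 z.2 -
          (Real.sqrt ((1 + cf z.1) / 2) : ℂ) * α z.1 *
          conj ((Real.sqrt ((1 + cf z.2) / 2) : ℂ) * α z.2) *
            Ps (kM M) (π / 2 - π + δ) z.1 z.2 =
        ((α z.1 * α z.2 : ℝ) : ℂ) *
        (((Real.sqrt ((1 - cf z.1) / 2) * Real.sqrt ((1 - cf z.2) / 2) : ℝ) : ℂ) *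
            Ps (kM M) (π / 2) z.1 z.2 -
          ((Real.sqrt ((1 + cf z.1) / 2) * Real.sqrt ((1 + cf z.2) / 2) : ℝ) : ℂ) *
            Ps (kM M) (π / 2 - π + δ) z.1 z.2) := by
      simp only [map_mul, Complex.conj_ofReal]
      push_cast
      linear_combination ((Real.sqrt ((1 - cf z.1) / 2) : ℂ) * α z.1 *
        (Real.sqrt ((1 - cf z.2) / 2) : ℂ) * α z.2 * Ps (kM M) (π / 2) z.1 z.2) * hζ
    change _ ≤ (_ : ℂ).im
    rw [h6, Complex.im_ofReal_mul]
    have hαα : 0 ≤ α z.1 * α z.2 := mul_nonneg (hα _) (hα _)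
    refine le_trans ?_ (mul_le_mul_of_nonneg_left h3 hαα)
    have h7 : M ^ 2 * (W0 - 6 * |δ| - (C3 + 6) * (|cf z.1| + |z.1|) -
        (C3 + 6) * (|cf z.2| + |z.2|)) ≤
        M ^ 2 * (Wy z.1 z.2 - 6 * (|cf z.1| + |cf z.2|) - 6 * |δ|) := by
      refine mul_le_mul_of_nonneg_left ?_ (sq_nonneg M)
      have c1 := mul_nonneg hC3.le (abs_nonneg (cf z.1))
      have c2 := mul_nonneg hC3.le (abs_nonneg (cf z.2))
      have c3 := abs_nonneg z.1
      have c4 := abs_nonneg z.2
      linarith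
    calc M ^ 2 * ((W0 - 6 * |δ|) * (α z.1 * α z.2) -
        ((C3 + 6) * (((|cf z.1| + |z.1|) * α z.1) * α z.2) +
          (C3 + 6) * (α z.1 * ((|cf z.2| + |z.2|) * α z.2))))
        = α z.1 * α z.2 * (M ^ 2 * (W0 - 6 * |δ| - (C3 + 6) * (|cf z.1| + |z.1|) -
        (C3 + 6) * (|cf z.2| + |z.2|))) := by ring
      _ ≤ _ := mul_le_mul_of_nonneg_left h7 hαα
  rw [Complex.sub_im] at hmain
  have g0 := (abs_le.1 hE0').1
  have g1 := (abs_le.1 hE1').2
  have hM2 : 0 ≤ M ^ 2 := sq_nonneg M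
  have k1 : 0 ≤ M ^ 2 * (D * a) := by positivity
  have k2 : 0 ≤ M ^ 2 * (|δ| * a ^ 2) := by positivity
  have k3 : 0 ≤ C6 * (M ^ 2 * (|δ| * a ^ 2)) := by positivity
  have k4 : 0 ≤ C3 * (M ^ 2 * (|δ| * a ^ 2)) := by positivity
  linarith only [hmain, g0, g1, k1, k2, k3, k4]

end Pool.Agent.Helper34.HRV
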